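import Pool.Agent.KneserRank.Smooth

/-!
# The derivative of `Phi` along the root curve

PROOF of `hasDerivAt_Phi`. Fix `h₀ > m`. For `h` near `h₀` and all `θ` put `t = par (x₁ h) (x₂ h) θ`,
which has derivative `(y₁ + y₂) / 2 + (y₂ - y₁) / 2 * cos θ` in `h`. The integrand of `Phi` is
`om t * kk t ^ (-1/2)`; by the chain rule (`hasDerivAt_om`, `hasDerivAt_kk`, `kk_pos`) its derivative
in `h` is `omt t * vel * kk ^ (-1/2) - (1/2) om t * kk ^ (-3/2) * (kkt * vel + kkh)`, which equals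
`thd` at `(x₁ h, x₂ h, y₁ h, y₂ h, θ)` because
`WWt * kk + WW * kkt = omt * kk ^ (-1/2) - (1/2) om * kk ^ (-3/2) * kkt`. The derivative is jointly
continuous in `(h, θ)` on a compact neighbourhood of `{h₀} × [0, π]` (contained in `h > m`), hence
bounded there; differentiate under the integral sign
(`intervalIntegral.hasDerivAt_integral_of_dominated_loc_of_deriv_le`).
PROOF of `kk_rel`. For fixed `t ∈ (0, 1)` and all `h > m`, dividing `HH_interp` by `x₂ h - x₁ h`: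
`h - HH t = (t - x₁ h) * (x₂ h - t) * kk (x₁ h) (x₂ h) t`. Differentiate at `h₀`
(`hasDerivAt_kk` with constant `s`).
-/

set_option autoImplicit false
set_option linter.unusedSectionVars false

namespace Pool.Agent.KneserRank

open MeasureTheory Set Filter Topology

variable {D : ℕ}

/-- The integrand of `Phi` along the curve has derivative `thd`. -/
private theorem par_hasDeriv {x₁ x₂ : ℝ → ℝ} {y₁ y₂ h : ℝ}
    (d₁ : HasDerivAt x₁ y₁ h) (d₂ : HasDerivAt x₂ y₂ h) (θ : ℝ) :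
    HasDerivAt (fun u => par (x₁ u) (x₂ u) θ)
      ((y₁ + y₂) / 2 + (y₂ - y₁) / 2 * Real.cos θ) h := by
  unfold par
  exact ((d₁.add d₂).div_const 2).add (((d₂.sub d₁).div_const 2).mul_const _)

private theorem integrand_hasDeriv {a e w : Fin D → ℝ} (ha : Pencil a) (hg : Generic a e w)
    {x₁ x₂ : ℝ → ℝ} {y₁ y₂ h : ℝ}
    (h₁ : x₁ h ∈ Ioo (0 : ℝ) 1) (h₂ : x₂ h ∈ Ioo (0 : ℝ) 1)
    (d₁ : HasDerivAt x₁ y₁ h) (d₂ : HasDerivAt x₂ y₂ h) (θ : ℝ) :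
    HasDerivAt (fun u => om a (par (x₁ u) (x₂ u) θ) *
        kk a e w (x₁ u) (x₂ u) (par (x₁ u) (x₂ u) θ) ^ (-(1 / 2) : ℝ))
      (thd a e w (x₁ h) (x₂ h) y₁ y₂ θ) h := by
  have hp := par_mem h₁ h₂ θ
  have dp := par_hasDeriv d₁ d₂ θ
  have hk := kk_pos ha hg h₁ h₂ hp
  have dk := hasDerivAt_kk (e := e) (w := w) (s := fun u => par (x₁ u) (x₂ u) θ)
    ha h₁ h₂ hp d₁ d₂ dp
  have dk2 := dk.rpow_const (p := (-(1 / 2) : ℝ)) (Or.inl hk.ne')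
  have dom := (hasDerivAt_om ha hp).comp h dp
  have dd := dom.mul dk2
  have e1 : kk a e w (x₁ h) (x₂ h) (par (x₁ h) (x₂ h) θ) ^ (-(1 / 2) : ℝ) =
      kk a e w (x₁ h) (x₂ h) (par (x₁ h) (x₂ h) θ) ^ (-(3 / 2) : ℝ) *
      kk a e w (x₁ h) (x₂ h) (par (x₁ h) (x₂ h) θ) := by
    rw [← Real.rpow_add_one hk.ne']
    norm_num
  have e2 : kk a e w (x₁ h) (x₂ h) (par (x₁ h) (x₂ h) θ) ^ (-(3 / 2) : ℝ) =
      kk a e w (x₁ h) (x₂ h) (par (x₁ h) (x₂ h) θ) ^ (-(5 / 2) : ℝ) *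
      kk a e w (x₁ h) (x₂ h) (par (x₁ h) (x₂ h) θ) := by
    rw [← Real.rpow_add_one hk.ne']
    norm_num
  have e3 : kk a e w (x₁ h) (x₂ h) (par (x₁ h) (x₂ h) θ) ^ (-(1 / 2) - 1 : ℝ) =
      kk a e w (x₁ h) (x₂ h) (par (x₁ h) (x₂ h) θ) ^ (-(3 / 2) : ℝ) := by
    norm_num
  refine dd.congr_deriv ?_
  simp only [Function.comp]
  unfold thd WWt WW
  rw [e3, e1]
  generalize kk a e w (x₁ h) (x₂ h) (par (x₁ h) (x₂ h) θ) = K at *
  rw [e2]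
  ring

private theorem curve_cont {a e w : Fin D → ℝ} {m : ℝ}
    {x₁ x₂ y₁ y₂ : ℝ → ℝ} (hr : Roots a e w m x₁ x₂ y₁ y₂) :
    ContinuousOn (fun p : ℝ × ℝ => (x₁ p.1, x₂ p.1, par (x₁ p.1) (x₂ p.1) p.2))
      (Ioi m ×ˢ (univ : Set ℝ)) := by
  have c1 : ContinuousOn (fun p : ℝ × ℝ => x₁ p.1) (Ioi m ×ˢ (univ : Set ℝ)) := by
    have : ContinuousOn x₁ (Ioi m) := fun u hu =>
      (hr.deriv₁ u hu).continuousAt.continuousWithinAt
    exact this.comp continuous_fst.continuousOn fun p hp => hp.1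
  have c2 : ContinuousOn (fun p : ℝ × ℝ => x₂ p.1) (Ioi m ×ˢ (univ : Set ℝ)) := by
    have : ContinuousOn x₂ (Ioi m) := fun u hu =>
      (hr.deriv₂ u hu).continuousAt.continuousWithinAt
    exact this.comp continuous_fst.continuousOn fun p hp => hp.1
  have c3 : ContinuousOn (fun p : ℝ × ℝ => par (x₁ p.1) (x₂ p.1) p.2)
      (Ioi m ×ˢ (univ : Set ℝ)) := by
    unfold par
    exact ((c1.add c2).div_const 2).add
      (((c2.sub c1).div_const 2).mul (Real.continuous_cos.comp continuous_snd).continuousOn)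
  exact c1.prodMk (c2.prodMk c3)

private theorem curve_maps {a e w : Fin D → ℝ} {m : ℝ}
    {x₁ x₂ y₁ y₂ : ℝ → ℝ} (hr : Roots a e w m x₁ x₂ y₁ y₂) :
    MapsTo (fun p : ℝ × ℝ => (x₁ p.1, x₂ p.1, par (x₁ p.1) (x₂ p.1) p.2))
      (Ioi m ×ˢ (univ : Set ℝ)) (Ioo (0 : ℝ) 1 ×ˢ Ioo (0 : ℝ) 1 ×ˢ Ioo (0 : ℝ) 1) := by
  intro p hp
  have h1 := hr.mem₁ p.1 hp.1
  have h2 := hr.mem₂ p.1 hp.1
  exact ⟨h1, h2, par_mem h1 h2 p.2⟩

private theorem thd_cont {a e w : Fin D → ℝ} (ha : Pencil a) (hg : Generic a e w) {m : ℝ}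
    {x₁ x₂ y₁ y₂ : ℝ → ℝ} (hr : Roots a e w m x₁ x₂ y₁ y₂) :
    ContinuousOn (fun p : ℝ × ℝ => thd a e w (x₁ p.1) (x₂ p.1) (y₁ p.1) (y₂ p.1) p.2)
      (Ioi m ×ˢ (univ : Set ℝ)) := by
  have cc := curve_cont hr
  have cm := curve_maps hr
  have d1 : ContinuousOn (fun p : ℝ × ℝ => y₁ p.1) (Ioi m ×ˢ (univ : Set ℝ)) :=
    hr.cont₁.comp continuous_fst.continuousOn fun p hp => hp.1
  have d2 : ContinuousOn (fun p : ℝ × ℝ => y₂ p.1) (Ioi m ×ˢ (univ : Set ℝ)) :=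
    hr.cont₂.comp continuous_fst.continuousOn fun p hp => hp.1
  have k1 := (continuousOn_kk (e := e) (w := w) ha).comp cc cm
  have k2 := (continuousOn_kkt (e := e) (w := w) ha).comp cc cm
  have w1 := (continuousOn_WW ha hg).comp cc cm
  have w2 := (continuousOn_WWt ha hg).comp cc cm
  have cc2 : ContinuousOn (fun p : ℝ × ℝ => ((y₁ p.1, y₂ p.1),
      (x₁ p.1, x₂ p.1, par (x₁ p.1) (x₂ p.1) p.2))) (Ioi m ×ˢ (univ : Set ℝ)) :=
    (d1.prodMk d2).prodMk cc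
  have cm2 : MapsTo (fun p : ℝ × ℝ => ((y₁ p.1, y₂ p.1),
      (x₁ p.1, x₂ p.1, par (x₁ p.1) (x₂ p.1) p.2))) (Ioi m ×ˢ (univ : Set ℝ))
      (univ ×ˢ Ioo (0 : ℝ) 1 ×ˢ Ioo (0 : ℝ) 1 ×ˢ Ioo (0 : ℝ) 1) := fun p hp =>
    ⟨mem_univ _, cm hp⟩
  have k3 := (continuousOn_kkh (e := e) (w := w) ha).comp cc2 cm2
  unfold thd
  exact (((w2.mul k1).add (w1.mul k2)).mul (((d1.add d2).div_const 2).add
    (((d2.sub d1).div_const 2).mul
      (Real.continuous_cos.comp continuous_snd).continuousOn))).sub ((w1.mul k3).div_const 2)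

private theorem int_cont {a e w : Fin D → ℝ} (ha : Pencil a) (hg : Generic a e w) {m : ℝ}
    {x₁ x₂ y₁ y₂ : ℝ → ℝ} (hr : Roots a e w m x₁ x₂ y₁ y₂) :
    ContinuousOn (fun p : ℝ × ℝ => om a (par (x₁ p.1) (x₂ p.1) p.2) *
        kk a e w (x₁ p.1) (x₂ p.1) (par (x₁ p.1) (x₂ p.1) p.2) ^ (-(1 / 2) : ℝ))
      (Ioi m ×ˢ (univ : Set ℝ)) := by
  have cc := curve_cont hr
  have cm := curve_maps hr
  have k1 := (continuousOn_kk (e := e) (w := w) ha).comp cc cm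
  have k2 := k1.rpow_const (p := (-(1 / 2) : ℝ)) fun p hp =>
    Or.inl (kk_pos ha hg (cm hp).1 (cm hp).2.1 (cm hp).2.2).ne'
  have o1 : ContinuousOn (fun p : ℝ × ℝ => om a (par (x₁ p.1) (x₂ p.1) p.2))
      (Ioi m ×ˢ (univ : Set ℝ)) :=
    (continuousOn_om ha).comp (cc.snd.snd) fun p hp => (cm hp).2.2
  exact o1.mul k2

private theorem slice_cont {f : ℝ × ℝ → ℝ} {m u : ℝ} (hu : m < u)
    (hf : ContinuousOn f (Ioi m ×ˢ (univ : Set ℝ))) : Continuous fun θ => f (u, θ) := by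
  rw [← continuousOn_univ]
  exact hf.comp (by fun_prop) fun θ _ => ⟨hu, mem_univ _⟩

theorem hasDerivAt_Phi {a e w : Fin D → ℝ} (ha : Pencil a) (hg : Generic a e w) {m : ℝ}
    {x₁ x₂ y₁ y₂ : ℝ → ℝ} (hr : Roots a e w m x₁ x₂ y₁ y₂) {h₀ : ℝ} (h : m < h₀) :
    HasDerivAt (fun u => Phi a e w (x₁ u) (x₂ u))
      (∫ θ in (0 : ℝ)..Real.pi, thd a e w (x₁ h₀) (x₂ h₀) (y₁ h₀) (y₂ h₀) θ) h₀ := by
  unfold Phi
  set δ : ℝ := (h₀ - m) / 2 with hδ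
  have hδ0 : 0 < δ := by rw [hδ]; linarith
  have hsub : Icc (h₀ - δ) (h₀ + δ) ⊆ Ioi m := by
    intro u hu
    have := hu.1
    rw [mem_Ioi]
    rw [hδ] at this
    linarith
  have hN : Icc (h₀ - δ) (h₀ + δ) ∈ 𝓝 h₀ := Icc_mem_nhds (by linarith) (by linarith)
  have hcomp : IsCompact (Icc (h₀ - δ) (h₀ + δ) ×ˢ Icc (0 : ℝ) Real.pi) :=
    isCompact_Icc.prod isCompact_Icc
  obtain ⟨C, hC⟩ := hcomp.exists_bound_of_continuousOn
    ((thd_cont ha hg hr).mono (prod_mono hsub (subset_univ _)))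
  have hsl := fun (u : ℝ) (hu : m < u) => slice_cont hu (int_cont ha hg hr)
  refine (intervalIntegral.hasDerivAt_integral_of_dominated_loc_of_deriv_le
    (F := fun u θ => om a (par (x₁ u) (x₂ u) θ) *
        kk a e w (x₁ u) (x₂ u) (par (x₁ u) (x₂ u) θ) ^ (-(1 / 2) : ℝ))
    (F' := fun u θ => thd a e w (x₁ u) (x₂ u) (y₁ u) (y₂ u) θ)
    (bound := fun _ => C) (s := Icc (h₀ - δ) (h₀ + δ)) hN ?_ ?_ ?_ ?_ ?_ ?_).2
  · filter_upwards [hN] with u hu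
    exact (hsl u (hsub hu)).aestronglyMeasurable
  · exact (hsl h₀ h).intervalIntegrable _ _
  · exact (slice_cont h (thd_cont ha hg hr)).aestronglyMeasurable
  · refine Eventually.of_forall fun θ hθ u hu => ?_
    rw [uIoc_of_le Real.pi_pos.le] at hθ
    exact hC (u, θ) ⟨hu, Ioc_subset_Icc_self hθ⟩
  · exact intervalIntegrable_const
  · refine Eventually.of_forall fun θ _ u hu => ?_
    have hu' := hsub hu
    exact integrand_hasDeriv ha hg (hr.mem₁ u hu') (hr.mem₂ u hu') (hr.deriv₁ u hu')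
      (hr.deriv₂ u hu') θ

theorem kk_rel {a e w : Fin D → ℝ} (ha : Pencil a) {m : ℝ}
    {x₁ x₂ y₁ y₂ : ℝ → ℝ} (hr : Roots a e w m x₁ x₂ y₁ y₂) {h₀ : ℝ} (h : m < h₀) {t : ℝ}
    (ht : t ∈ Ioo (0 : ℝ) 1) :
    (-y₁ h₀ * (x₂ h₀ - t) + y₂ h₀ * (t - x₁ h₀)) * kk a e w (x₁ h₀) (x₂ h₀) t +
      (t - x₁ h₀) * (x₂ h₀ - t) * kkh a e w (x₁ h₀) (x₂ h₀) (y₁ h₀) (y₂ h₀) t = 1 := by
  have key : ∀ u, m < u → u - HH a e w t =
      (t - x₁ u) * (x₂ u - t) * kk a e w (x₁ u) (x₂ u) t := by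
    intro u hu
    have h1 := HH_interp ha e w (hr.mem₁ u hu) (hr.mem₂ u hu) ht
    rw [hr.root₁ u hu, hr.root₂ u hu] at h1
    have h2 : 0 < x₂ u - x₁ u := sub_pos.2 (hr.lt u hu)
    apply mul_left_cancel₀ h2.ne'
    linarith
  have dL : HasDerivAt (fun u => u - HH a e w t) 1 h₀ := (hasDerivAt_id h₀).sub_const _
  have dk := hasDerivAt_kk (e := e) (w := w) (s := fun _ => t) ha (hr.mem₁ h₀ h)
    (hr.mem₂ h₀ h) ht (hr.deriv₁ h₀ h) (hr.deriv₂ h₀ h) (hasDerivAt_const h₀ t)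
  have dR := (((hr.deriv₁ h₀ h).const_sub t).mul ((hr.deriv₂ h₀ h).sub_const t)).mul dk
  have dR' : HasDerivAt (fun u => u - HH a e w t) _ h₀ := dR.congr_of_eventuallyEq (by
    filter_upwards [Ioi_mem_nhds h] with u hu
    exact key u hu)
  have := dR'.unique dL
  simp only [Pi.mul_apply] at this
  linear_combination this

end Pool.Agent.KneserRank
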