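import Pool.Agent.KneserRank.Algebra

/-!
# The root functions

PROOF. `HH` is differentiable (a rational function without poles) on `(0, 1)`, with derivative
`rootsHd`, and `HH y = HH x + (y - x) rootsHd x + (y - x) ^ 2 kk x y x` (`roots_grad`, a rational
identity). It tends to `+∞` at `0` (the term of the index of `Generic.left` is
`(w k + t e k) ^ 2 / (4 t)` with `w k ≠ 0`) and at `1` (index of `Generic.right`), because all terms
are nonnegative. So it attains its minimum `m` at a point `t₀`; by the identity `rootsHd x ≠ 0` for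
`x ≠ t₀`, and `HH` is injective on `(0, t₀)` and on `(t₀, 1)`. For `h > m` let `x₁ h ∈ (0, t₀)` and
`x₂ h ∈ (t₀, 1)` be the two roots (intermediate value theorem). The derivative of the root functions
comes from the inverse function theorem.
-/

set_option autoImplicit false
set_option linter.unusedSectionVars false

namespace Pool.Agent.KneserRank

open MeasureTheory Set Filter Topology

variable {D : ℕ}

/-- The derivative of `HH`. -/
noncomputable def rootsHd (a e w : Fin D → ℝ) (t : ℝ) : ℝ :=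
  ∑ k, (2 * (w k + t * e k) * e k * ll a k t - (w k + t * e k) ^ 2 * (2 * a k - 1)) /
    (4 * ll a k t ^ 2)

private theorem roots_ll_deriv (a : Fin D → ℝ) (k : Fin D) (t : ℝ) :
    HasStrictDerivAt (fun s => ll a k s) (2 * a k - 1) t := by
  unfold ll
  have h1 : HasStrictDerivAt (fun s : ℝ => a k * s) (a k * 1) t :=
    (hasStrictDerivAt_id t).const_mul (a k)
  have h2 : HasStrictDerivAt (fun s : ℝ => (1 - a k) * (1 - s)) ((1 - a k) * (-1)) t :=
    ((hasStrictDerivAt_id t).const_sub 1).const_mul (1 - a k)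
  have h3 := h1.add h2
  have e3 : a k * 1 + (1 - a k) * (-1) = 2 * a k - 1 := by ring
  rw [e3] at h3
  exact h3

private theorem roots_deriv {a : Fin D → ℝ} (ha : Pencil a) (e w : Fin D → ℝ) {t : ℝ}
    (ht : t ∈ Ioo (0 : ℝ) 1) : HasStrictDerivAt (HH a e w) (rootsHd a e w t) t := by
  have hk : ∀ k ∈ (Finset.univ : Finset (Fin D)),
      HasStrictDerivAt (fun s => (w k + s * e k) ^ 2 / (4 * ll a k s))
        ((2 * (w k + t * e k) * e k * ll a k t - (w k + t * e k) ^ 2 * (2 * a k - 1)) /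
          (4 * ll a k t ^ 2)) t := by
    intro k _
    have p := (ll_pos ha ht k).ne'
    have h1 : HasStrictDerivAt (fun s : ℝ => w k + s * e k) (1 * e k) t :=
      ((hasStrictDerivAt_id t).mul_const (e k)).const_add (w k)
    have h2 := h1.pow 2
    have h3 : HasStrictDerivAt (fun s => 4 * ll a k s) (4 * (2 * a k - 1)) t :=
      (roots_ll_deriv a k t).const_mul 4
    have h4 := h2.div h3 (mul_ne_zero (by norm_num) p)
    refine h4.congr_deriv ?_
    have e4 : ((fun s : ℝ => w k + s * e k) ^ 2) t = (w k + t * e k) ^ 2 := rfl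
    rw [e4]
    simp only [Nat.cast_ofNat]
    field_simp
    ring
  have := HasStrictDerivAt.fun_sum hk
  exact this

private theorem roots_cont {a : Fin D → ℝ} (ha : Pencil a) (e w : Fin D → ℝ) :
    ContinuousOn (rootsHd a e w) (Ioo (0 : ℝ) 1) := by
  unfold rootsHd
  refine continuousOn_finsetSum _ fun k _ => ?_
  have hl : Continuous fun t => ll a k t := by
    unfold ll
    fun_prop
  refine ContinuousOn.div ?_ ?_ ?_
  · fun_prop
  · fun_prop
  · intro t ht
    have p := (ll_pos ha ht k).ne'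
    positivity

private theorem roots_grad {a : Fin D → ℝ} (ha : Pencil a) (e w : Fin D → ℝ) {x y : ℝ}
    (hx : x ∈ Ioo (0 : ℝ) 1) (hy : y ∈ Ioo (0 : ℝ) 1) :
    HH a e w y = HH a e w x + (y - x) * rootsHd a e w x + (y - x) ^ 2 * kk a e w x y x := by
  unfold HH kk rootsHd
  rw [Finset.mul_sum, Finset.mul_sum, ← Finset.sum_add_distrib, ← Finset.sum_add_distrib]
  refine Finset.sum_congr rfl fun k _ => ?_
  have p₁ := (ll_pos ha hx k).ne'
  have p₂ := (ll_pos ha hy k).ne'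
  have key : (w k + y * e k) ^ 2 * ll a k x ^ 2 =
      (w k + x * e k) ^ 2 * ll a k x * ll a k y +
        (y - x) * (2 * (w k + x * e k) * e k * ll a k x - (w k + x * e k) ^ 2 * (2 * a k - 1)) *
          ll a k y + (y - x) ^ 2 * DD a e w k ^ 2 := by
    unfold ll DD
    ring
  field_simp
  linear_combination key

private theorem roots_ge {a : Fin D → ℝ} (ha : Pencil a) (e w : Fin D → ℝ) {t : ℝ}
    (ht : t ∈ Ioo (0 : ℝ) 1) (k : Fin D) :
    (w k + t * e k) ^ 2 / (4 * ll a k t) ≤ HH a e w t := by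
  unfold HH
  refine Finset.single_le_sum (f := fun k => (w k + t * e k) ^ 2 / (4 * ll a k t))
    (fun j _ => div_nonneg (sq_nonneg _) ?_) (Finset.mem_univ k)
  have := ll_pos ha ht j
  positivity

private theorem roots_coercive_left {a e w : Fin D → ℝ} (ha : Pencil a) (hg : Generic a e w)
    (M : ℝ) : ∃ δ : ℝ, 0 < δ ∧ δ < 1 ∧ ∀ t, 0 < t → t ≤ δ → M < HH a e w t := by
  obtain ⟨k, hk, hwk⟩ := hg.left
  have h1 : Tendsto (fun t : ℝ => (w k + t * e k) ^ 2) (𝓝[>] 0) (𝓝 (w k ^ 2)) := by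
    have : ContinuousAt (fun t : ℝ => (w k + t * e k) ^ 2) 0 := by fun_prop
    have h := this.tendsto.mono_left (nhdsWithin_le_nhds (s := Ioi (0 : ℝ)))
    simpa using h
  have h2 : Tendsto (fun t : ℝ => (4 * t)⁻¹) (𝓝[>] 0) atTop := by
    have h := (tendsto_inv_nhdsGT_zero (𝕜 := ℝ)).const_mul_atTop (show (0 : ℝ) < 4⁻¹ by norm_num)
    refine h.congr fun t => ?_
    rw [mul_inv]
  have h3 := h1.pos_mul_atTop (by positivity) h2
  have h4 := h3.eventually_gt_atTop M
  rw [eventually_iff, mem_nhdsGT_iff_exists_Ioc_subset] at h4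
  obtain ⟨u, hu, hsub⟩ := h4
  have hu' : (0 : ℝ) < u := hu
  refine ⟨min u (1 / 2), lt_min hu' (by norm_num), lt_of_le_of_lt (min_le_right _ _) (by norm_num),
    fun t ht htu => ?_⟩
  have ht1 : t ∈ Ioo (0 : ℝ) 1 :=
    ⟨ht, lt_of_le_of_lt (htu.trans (min_le_right _ _)) (by norm_num)⟩
  have h5 : M < (w k + t * e k) ^ 2 * (4 * t)⁻¹ := hsub ⟨ht, htu.trans (min_le_left _ _)⟩
  refine h5.trans_le ?_
  have h6 := roots_ge ha e w ht1 k
  have h7 : ll a k t = t := by
    unfold ll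
    rw [hk]
    ring
  rw [h7] at h6
  rwa [div_eq_mul_inv] at h6

private theorem roots_coercive_right {a e w : Fin D → ℝ} (ha : Pencil a) (hg : Generic a e w)
    (M : ℝ) : ∃ δ : ℝ, 0 < δ ∧ δ < 1 ∧ ∀ t, δ ≤ t → t < 1 → M < HH a e w t := by
  obtain ⟨k, hk, hwk⟩ := hg.right
  have h1 : Tendsto (fun t : ℝ => (w k + t * e k) ^ 2) (𝓝[<] 1) (𝓝 ((w k + e k) ^ 2)) := by
    have : ContinuousAt (fun t : ℝ => (w k + t * e k) ^ 2) 1 := by fun_prop
    have h := this.tendsto.mono_left (nhdsWithin_le_nhds (s := Iio (1 : ℝ)))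
    simpa using h
  have h2 : Tendsto (fun t : ℝ => (4 * (1 - t))⁻¹) (𝓝[<] 1) atTop := by
    have h0 : Tendsto (fun t : ℝ => 1 - t) (𝓝[<] 1) (𝓝[>] 0) := by
      refine tendsto_nhdsWithin_iff.mpr ⟨?_, ?_⟩
      · have : ContinuousAt (fun t : ℝ => 1 - t) 1 := by fun_prop
        have h := this.tendsto.mono_left (nhdsWithin_le_nhds (s := Iio (1 : ℝ)))
        simpa using h
      · filter_upwards [self_mem_nhdsWithin] with t ht
        have : t < 1 := ht
        show (0 : ℝ) < 1 - t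
        linarith
    have h := ((tendsto_inv_nhdsGT_zero (𝕜 := ℝ)).const_mul_atTop
      (show (0 : ℝ) < 4⁻¹ by norm_num)).comp h0
    refine h.congr fun t => ?_
    simp only [Function.comp_apply]
    rw [mul_inv]
  have h3 := h1.pos_mul_atTop (by positivity) h2
  have h4 := h3.eventually_gt_atTop M
  rw [eventually_iff, mem_nhdsLT_iff_exists_Ico_subset] at h4
  obtain ⟨u, hu, hsub⟩ := h4
  have hu' : u < (1 : ℝ) := hu
  refine ⟨max u (1 / 2), lt_of_lt_of_le (by norm_num) (le_max_right _ _),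
    max_lt hu' (by norm_num), fun t htu ht => ?_⟩
  have ht1 : t ∈ Ioo (0 : ℝ) 1 :=
    ⟨lt_of_lt_of_le (by norm_num) ((le_max_right _ _).trans htu), ht⟩
  have h5 : M < (w k + t * e k) ^ 2 * (4 * (1 - t))⁻¹ := hsub ⟨(le_max_left _ _).trans htu, ht⟩
  refine h5.trans_le ?_
  have h6 := roots_ge ha e w ht1 k
  have h7 : ll a k t = 1 - t := by
    unfold ll
    rw [hk]
    ring
  rw [h7] at h6
  rwa [div_eq_mul_inv] at h6

private theorem roots_min {a e w : Fin D → ℝ} (ha : Pencil a) (hg : Generic a e w) :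
    ∃ t₀ ∈ Ioo (0 : ℝ) 1, ∀ t ∈ Ioo (0 : ℝ) 1, HH a e w t₀ ≤ HH a e w t := by
  have hh : (1 / 2 : ℝ) ∈ Ioo (0 : ℝ) 1 := ⟨by norm_num, by norm_num⟩
  obtain ⟨δ, hδ0, hδ1, hδ⟩ := roots_coercive_left ha hg (HH a e w (1 / 2))
  obtain ⟨ε, hε0, hε1, hε⟩ := roots_coercive_right ha hg (HH a e w (1 / 2))
  have h1 : δ < 1 / 2 := by
    by_contra h
    exact lt_irrefl _ (hδ (1 / 2) (by norm_num) (not_lt.mp h))
  have h2 : 1 / 2 < ε := by
    by_contra h
    exact lt_irrefl _ (hε (1 / 2) (not_lt.mp h) (by norm_num))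
  have hsub : Icc δ ε ⊆ Ioo (0 : ℝ) 1 := fun t ht => ⟨hδ0.trans_le ht.1, ht.2.trans_lt hε1⟩
  have hc : ContinuousOn (HH a e w) (Icc δ ε) := fun t ht =>
    (roots_deriv ha e w (hsub ht)).hasDerivAt.continuousAt.continuousWithinAt
  obtain ⟨t₀, ht₀, hmin⟩ := isCompact_Icc.exists_isMinOn ⟨1 / 2, h1.le, h2.le⟩ hc
  refine ⟨t₀, hsub ht₀, fun t ht => ?_⟩
  have h3 : HH a e w t₀ ≤ HH a e w (1 / 2) := hmin ⟨h1.le, h2.le⟩
  rcases lt_or_ge t δ with h | h
  · exact h3.trans (hδ t ht.1 h.le).le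
  · rcases lt_or_ge ε t with h' | h'
    · exact h3.trans (hε t h'.le ht.2).le
    · exact hmin ⟨h, h'⟩

private theorem roots_branch {f f' : ℝ → ℝ} {U : Set ℝ} {m : ℝ} {g : ℝ → ℝ} (hU : IsOpen U)
    (hf : ∀ x ∈ U, HasStrictDerivAt f (f' x) x) (hne : ∀ x ∈ U, f' x ≠ 0)
    (hc : ContinuousOn f' U) (hinj : InjOn f U) (hg : ∀ h, m < h → g h ∈ U)
    (hfg : ∀ h, m < h → f (g h) = h) :
    (∀ h, m < h → HasDerivAt g (f' (g h))⁻¹ h) ∧
      ContinuousOn (fun h => (f' (g h))⁻¹) (Ioi m) := by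
  have hd : ∀ h, m < h → HasDerivAt g (f' (g h))⁻¹ h := by
    intro h hh
    have hs := hf (g h) (hg h hh)
    have hn := hne (g h) (hg h hh)
    have h1 : HasStrictDerivAt (hs.localInverse f (f' (g h)) (g h) hn) (f' (g h))⁻¹ (f (g h)) :=
      hs.to_localInverse hn
    rw [hfg h hh] at h1
    refine h1.hasDerivAt.congr_of_eventuallyEq ?_
    have hF := hs.hasStrictFDerivAt_equiv hn
    have hr : ∀ᶠ y in 𝓝 (f (g h)), f (hs.localInverse f (f' (g h)) (g h) hn y) = y :=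
      hF.eventually_right_inverse
    have ha : hs.localInverse f (f' (g h)) (g h) hn (f (g h)) = g h :=
      hF.localInverse_apply_image
    rw [hfg h hh] at hr ha
    have hcont := h1.hasDerivAt.continuousAt
    have hU' : ∀ᶠ y in 𝓝 h, hs.localInverse f (f' (g h)) (g h) hn y ∈ U := by
      refine hcont.eventually_mem ?_
      rw [ha]
      exact hU.mem_nhds (hg h hh)
    filter_upwards [hr, hU', lt_mem_nhds hh] with y h2 h3 h4
    exact hinj (hg y h4) h3 ((hfg y h4).trans h2.symm)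
  refine ⟨hd, ?_⟩
  have hgc : ContinuousOn g (Ioi m) := fun h hh => (hd h hh).continuousAt.continuousWithinAt
  exact (hc.comp hgc fun h hh => hg h hh).inv₀ fun h hh => hne _ (hg h hh)

theorem exists_roots {a e w : Fin D → ℝ} (ha : Pencil a) (hg : Generic a e w) :
    ∃ (m : ℝ) (x₁ x₂ y₁ y₂ : ℝ → ℝ), Roots a e w m x₁ x₂ y₁ y₂ := by
  obtain ⟨t₀, ht₀, hmin⟩ := roots_min ha hg
  have hne : ∀ x ∈ Ioo (0 : ℝ) 1, x ≠ t₀ → (t₀ - x) * rootsHd a e w x < 0 := by
    intro x hx hxt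
    have h1 := roots_grad ha e w hx ht₀
    have h2 := hmin x hx
    have h3 := kk_pos ha hg hx ht₀ hx
    have h4 : 0 < (t₀ - x) ^ 2 := by
      have : t₀ - x ≠ 0 := sub_ne_zero.mpr (Ne.symm hxt)
      positivity
    have h5 := mul_pos h4 h3
    linarith
  have hcts : ∀ t ∈ Ioo (0 : ℝ) 1, ContinuousAt (HH a e w) t := fun t ht =>
    (roots_deriv ha e w ht).hasDerivAt.continuousAt
  -- injectivity
  have hanti : ∀ x ∈ Ioo (0 : ℝ) 1, ∀ y ∈ Ioo (0 : ℝ) 1, x < y → y < t₀ →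
      HH a e w y < HH a e w x := by
    intro x hx y hy hxy hyt
    have h1 := HH_interp ha e w hx ht₀ hy
    have h2 := kk_pos ha hg hx ht₀ hy
    have h3 := hmin y hy
    have h4 : 0 < (t₀ - x) * ((y - x) * (t₀ - y)) * kk a e w x t₀ y :=
      mul_pos (mul_pos (by linarith) (mul_pos (by linarith) (by linarith))) h2
    have h5 : (y - x) * HH a e w t₀ ≤ (y - x) * HH a e w y :=
      mul_le_mul_of_nonneg_left h3 (by linarith)
    have h6 : (t₀ - y) * HH a e w y < (t₀ - y) * HH a e w x := by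
      have e1 : (t₀ - y) * HH a e w y = (t₀ - x) * HH a e w y - (y - x) * HH a e w y := by ring
      rw [e1, h1]
      linarith
    exact lt_of_mul_lt_mul_left h6 (by linarith)
  have hmono : ∀ x ∈ Ioo (0 : ℝ) 1, ∀ y ∈ Ioo (0 : ℝ) 1, x < y → t₀ < x →
      HH a e w x < HH a e w y := by
    intro x hx y hy hxy hyt
    have h1 := HH_interp ha e w ht₀ hy hx
    have h2 := kk_pos ha hg ht₀ hy hx
    have h3 := hmin x hx
    have h4 : 0 < (y - t₀) * ((x - t₀) * (y - x)) * kk a e w t₀ y x :=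
      mul_pos (mul_pos (by linarith) (mul_pos (by linarith) (by linarith))) h2
    have h5 : (y - x) * HH a e w t₀ ≤ (y - x) * HH a e w x :=
      mul_le_mul_of_nonneg_left h3 (by linarith)
    have h6 : (x - t₀) * HH a e w x < (x - t₀) * HH a e w y := by
      have e1 : (x - t₀) * HH a e w x = (y - t₀) * HH a e w x - (y - x) * HH a e w x := by ring
      rw [e1, h1]
      linarith
    exact lt_of_mul_lt_mul_left h6 (by linarith)
  -- existence of roots
  have hex₁ : ∀ h, HH a e w t₀ < h → ∃ x ∈ Ioo (0 : ℝ) t₀, HH a e w x = h := by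
    intro h hh
    obtain ⟨δ, hδ0, hδ1, hδ⟩ := roots_coercive_left ha hg h
    have h1 : δ < t₀ := by
      by_contra hcon
      exact absurd (hδ t₀ ht₀.1 (not_lt.mp hcon)) (not_lt.mpr hh.le)
    have hsub : Icc δ t₀ ⊆ Ioo (0 : ℝ) 1 := fun t ht => ⟨hδ0.trans_le ht.1, ht.2.trans_lt ht₀.2⟩
    have hc : ContinuousOn (HH a e w) (Icc δ t₀) := fun t ht =>
      (hcts t (hsub ht)).continuousWithinAt
    obtain ⟨x, hx, hxh⟩ := intermediate_value_Ioo' h1.le hc ⟨hh, hδ δ hδ0 le_rfl⟩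
    exact ⟨x, ⟨hδ0.trans hx.1, hx.2⟩, hxh⟩
  have hex₂ : ∀ h, HH a e w t₀ < h → ∃ x ∈ Ioo t₀ (1 : ℝ), HH a e w x = h := by
    intro h hh
    obtain ⟨δ, hδ0, hδ1, hδ⟩ := roots_coercive_right ha hg h
    have h1 : t₀ < δ := by
      by_contra hcon
      exact absurd (hδ t₀ (not_lt.mp hcon) ht₀.2) (not_lt.mpr hh.le)
    have hsub : Icc t₀ δ ⊆ Ioo (0 : ℝ) 1 := fun t ht => ⟨ht₀.1.trans_le ht.1, ht.2.trans_lt hδ1⟩
    have hc : ContinuousOn (HH a e w) (Icc t₀ δ) := fun t ht =>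
      (hcts t (hsub ht)).continuousWithinAt
    obtain ⟨x, hx, hxh⟩ := intermediate_value_Ioo h1.le hc ⟨hh, hδ δ le_rfl hδ1⟩
    exact ⟨x, ⟨hx.1, hx.2.trans hδ1⟩, hxh⟩
  choose! x₁ hx₁ hr₁ using hex₁
  choose! x₂ hx₂ hr₂ using hex₂
  have hsub₁ : Ioo (0 : ℝ) t₀ ⊆ Ioo (0 : ℝ) 1 := fun t ht => ⟨ht.1, ht.2.trans ht₀.2⟩
  have hsub₂ : Ioo t₀ (1 : ℝ) ⊆ Ioo (0 : ℝ) 1 := fun t ht => ⟨ht₀.1.trans ht.1, ht.2⟩
  have b₁ := roots_branch (f := HH a e w) (f' := rootsHd a e w) (U := Ioo (0 : ℝ) t₀)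
    (m := HH a e w t₀) (g := x₁) isOpen_Ioo (fun x hx => roots_deriv ha e w (hsub₁ hx))
    (fun x hx => by
      have := hne x (hsub₁ hx) hx.2.ne
      intro h0
      rw [h0, mul_zero] at this
      exact lt_irrefl _ this)
    ((roots_cont ha e w).mono hsub₁)
    (fun x hx y hy hxy => by
      rcases lt_trichotomy x y with h | h | h
      · exact absurd hxy (hanti x (hsub₁ hx) y (hsub₁ hy) h hy.2).ne'
      · exact h
      · exact absurd hxy (hanti y (hsub₁ hy) x (hsub₁ hx) h hx.2).ne)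
    hx₁ hr₁
  have b₂ := roots_branch (f := HH a e w) (f' := rootsHd a e w) (U := Ioo t₀ (1 : ℝ))
    (m := HH a e w t₀) (g := x₂) isOpen_Ioo (fun x hx => roots_deriv ha e w (hsub₂ hx))
    (fun x hx => by
      have := hne x (hsub₂ hx) hx.1.ne'
      intro h0
      rw [h0, mul_zero] at this
      exact lt_irrefl _ this)
    ((roots_cont ha e w).mono hsub₂)
    (fun x hx y hy hxy => by
      rcases lt_trichotomy x y with h | h | h
      · exact absurd hxy (hmono x (hsub₂ hx) y (hsub₂ hy) h hx.1).ne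
      · exact h
      · exact absurd hxy (hmono y (hsub₂ hy) x (hsub₂ hx) h hy.1).ne')
    hx₂ hr₂
  exact ⟨HH a e w t₀, x₁, x₂, fun h => (rootsHd a e w (x₁ h))⁻¹,
    fun h => (rootsHd a e w (x₂ h))⁻¹,
    { low := hmin
      mem₁ := fun h hh => hsub₁ (hx₁ h hh)
      mem₂ := fun h hh => hsub₂ (hx₂ h hh)
      lt := fun h hh => (hx₁ h hh).2.trans (hx₂ h hh).1
      root₁ := hr₁
      root₂ := hr₂
      deriv₁ := b₁.1
      deriv₂ := b₂.1
      cont₁ := b₁.2
      cont₂ := b₂.2 }⟩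

end Pool.Agent.KneserRank
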