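import Pool.Agent.KneserRank.Defs

/-!
# The pencil: divided differences

PROOF of `HH_interp`: for one index, with `n t = w + t e`, `l t = (1 - a) + t (2 a - 1)` and
`δ = w (2 a - 1) - e (1 - a)` (`= n l' - n' l`), the identity
`(x₂ - x₁) n(t)²/l(t) = (x₂ - t) n(x₁)²/l(x₁) + (t - x₁) n(x₂)²/l(x₂)
  - (x₂ - x₁)(t - x₁)(x₂ - t) δ²/(l(x₁) l(x₂) l(t))` is a polynomial identity after clearing
denominators (`field_simp; ring`). Sum over the indices.
PROOF of `kk_pos`: all terms are `≥ 0` and the term of the index `k` of `Generic.left`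
(`a k = 1`, `DD = w k ≠ 0`) is `> 0`.
-/

set_option autoImplicit false
set_option linter.unusedSectionVars false

namespace Pool.Agent.KneserRank

open MeasureTheory Set Filter Topology

variable {D : ℕ}

theorem HH_interp {a : Fin D → ℝ} (ha : Pencil a) (e w : Fin D → ℝ) {x₁ x₂ t : ℝ}
    (h₁ : x₁ ∈ Ioo (0 : ℝ) 1) (h₂ : x₂ ∈ Ioo (0 : ℝ) 1) (ht : t ∈ Ioo (0 : ℝ) 1) :
    (x₂ - x₁) * HH a e w t = (x₂ - t) * HH a e w x₁ + (t - x₁) * HH a e w x₂ -
      (x₂ - x₁) * ((t - x₁) * (x₂ - t)) * kk a e w x₁ x₂ t := by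
  unfold HH kk
  rw [Finset.mul_sum, Finset.mul_sum, Finset.mul_sum, Finset.mul_sum, ← Finset.sum_add_distrib,
    ← Finset.sum_sub_distrib]
  refine Finset.sum_congr rfl fun k _ => ?_
  have p₁ := (ll_pos ha h₁ k).ne'
  have p₂ := (ll_pos ha h₂ k).ne'
  have p := (ll_pos ha ht k).ne'
  have key : (x₂ - x₁) * (w k + t * e k) ^ 2 * ll a k x₁ * ll a k x₂ =
      (x₂ - t) * (w k + x₁ * e k) ^ 2 * ll a k x₂ * ll a k t +
        (t - x₁) * (w k + x₂ * e k) ^ 2 * ll a k x₁ * ll a k t -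
        (x₂ - x₁) * ((t - x₁) * (x₂ - t)) * DD a e w k ^ 2 := by
    unfold ll DD
    ring
  field_simp
  linear_combination key

theorem kk_pos {a e w : Fin D → ℝ} (ha : Pencil a) (hg : Generic a e w) {x₁ x₂ t : ℝ}
    (h₁ : x₁ ∈ Ioo (0 : ℝ) 1) (h₂ : x₂ ∈ Ioo (0 : ℝ) 1) (ht : t ∈ Ioo (0 : ℝ) 1) :
    0 < kk a e w x₁ x₂ t := by
  obtain ⟨k, hk, hwk⟩ := hg.left
  unfold kk
  have hden : ∀ j, 0 < 4 * ll a j x₁ * ll a j x₂ * ll a j t := fun j =>
    mul_pos (mul_pos (mul_pos (by norm_num) (ll_pos ha h₁ j)) (ll_pos ha h₂ j)) (ll_pos ha ht j)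
  refine Finset.sum_pos' (fun j _ => div_nonneg (sq_nonneg _) (hden j).le)
    ⟨k, Finset.mem_univ k, div_pos ?_ (hden k)⟩
  have hD : DD a e w k = w k := by
    unfold DD
    rw [hk]
    ring
  rw [hD]
  positivity

end Pool.Agent.KneserRank
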