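import Pool.Agent.KneserRank.Algebra

/-!
# The pencil: convexity

PROOF of `convexOn_WW`. Put `Y t = t (1 - t) kk x₁ x₂ t = ∑ k, g k * (t (1 - t) / l k t)` with
`g k = DD k ^ 2 / (4 l k x₁ l k x₂) ≥ 0`. Each `t (1 - t) / (a t + b (1 - t))`, `a + b = 1`, is
concave
on `(0, 1)` (second derivative `-2 a b / (a t + b (1 - t)) ^ 3`; it is `1 - t` for `a = 1` and `t`
for
`a = 0`), so `Y` is concave and positive. Since at least three `l k` equal `t` and at least three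
equal
`1 - t`, `om a t = (t (1 - t)) ^ (-3/2) * ∏ k ∈ R, l k t ^ (-1/2)` for the set `R` of the remaining
indices, hence `WW t = Y t ^ (-3/2) * ∏ k ∈ R, l k t ^ (-1/2) =
exp (-(3/2) log (Y t) - (1/2) ∑ k ∈ R, log (l k t))`. The exponent is convex
(`log` is concave and increasing, `Y` and `l k` are concave and positive), so `WW` is convex.
-/

set_option autoImplicit false
set_option linter.unusedSectionVars false

namespace Pool.Agent.KneserRank

open MeasureTheory Set Filter Topology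

variable {D : ℕ}

private theorem Convex_sum {κ : Type*} (s : Finset κ) {f : κ → ℝ → ℝ} {S : Set ℝ}
    (hS : Convex ℝ S) (h : ∀ i ∈ s, ConcaveOn ℝ S (f i)) :
    ConcaveOn ℝ S fun t => ∑ i ∈ s, f i t := by
  refine ⟨hS, fun x hx y hy α β hα hβ hαβ => ?_⟩
  simp only [smul_eq_mul, Finset.mul_sum, ← Finset.sum_add_distrib]
  exact Finset.sum_le_sum fun i hi => by
    simpa only [smul_eq_mul] using (h i hi).2 hx hy hα hβ hαβ

private theorem Convex_log {S : Set ℝ} {f : ℝ → ℝ} (hf : ConcaveOn ℝ S f)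
    (h : ∀ x ∈ S, 0 < f x) : ConcaveOn ℝ S fun x => Real.log (f x) := by
  refine ⟨hf.1, fun x hx y hy α β hα hβ hαβ => ?_⟩
  have h1 := strictConcaveOn_log_Ioi.concaveOn.2 (h x hx) (h y hy) hα hβ hαβ
  have h2 := hf.2 hx hy hα hβ hαβ
  have h3 : 0 < α • f x + β • f y := (convex_Ioi (0 : ℝ)) (h x hx) (h y hy) hα hβ hαβ
  exact h1.trans (Real.log_le_log h3 h2)

private theorem Convex_exp {S : Set ℝ} {f : ℝ → ℝ} (hf : ConvexOn ℝ S f) :
    ConvexOn ℝ S fun x => Real.exp (f x) := by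
  refine ⟨hf.1, fun x hx y hy α β hα hβ hαβ => ?_⟩
  exact (Real.exp_le_exp.2 (hf.2 hx hy hα hβ hαβ)).trans
    (convexOn_exp.2 (mem_univ _) (mem_univ _) hα hβ hαβ)

private theorem Convex_lin {a : ℝ} (h0 : 0 ≤ a) (h1 : a ≤ 1) {t : ℝ} (ht : t ∈ Ioo (0 : ℝ) 1) :
    0 < a * t + (1 - a) * (1 - t) := by
  have ht0 := ht.1
  have ht1 := ht.2
  rcases h0.eq_or_lt with h | h
  · rw [← h]; linarith
  · have h2 : 0 < a * t := mul_pos h ht0
    have h3 : 0 ≤ (1 - a) * (1 - t) := mul_nonneg (by linarith) (by linarith)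
    linarith

private theorem Convex_frac {a : ℝ} (h0 : 0 ≤ a) (h1 : a ≤ 1) :
    ConcaveOn ℝ (Ioo (0 : ℝ) 1) fun t => t * (1 - t) / (a * t + (1 - a) * (1 - t)) := by
  refine ⟨convex_Ioo 0 1, fun x hx y hy α β hα hβ hαβ => ?_⟩
  have hz := convex_Ioo (0 : ℝ) 1 hx hy hα hβ hαβ
  simp only [smul_eq_mul] at hz ⊢
  have lx := Convex_lin h0 h1 hx
  have ly := Convex_lin h0 h1 hy
  have lz := Convex_lin h0 h1 hz
  obtain rfl : β = 1 - α := by linarith
  have h6 : 0 ≤ a * (1 - a) * (α * (1 - α)) * (x - y) ^ 2 :=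
    mul_nonneg (mul_nonneg (mul_nonneg h0 (by linarith)) (mul_nonneg hα hβ)) (sq_nonneg _)
  rw [← mul_div_assoc, ← mul_div_assoc, div_add_div _ _ lx.ne' ly.ne',
    div_le_div_iff₀ (mul_pos lx ly) lz]
  linarith

theorem convexOn_WW {a e w : Fin D → ℝ} (ha : Pencil a) (hg : Generic a e w) {x₁ x₂ : ℝ}
    (h₁ : x₁ ∈ Ioo (0 : ℝ) 1) (h₂ : x₂ ∈ Ioo (0 : ℝ) 1) :
    ConvexOn ℝ (Ioo (0 : ℝ) 1) (WW a e w x₁ x₂) := by
  classical
  obtain ⟨A, hA, hA3⟩ := Finset.exists_subset_card_eq ha.zeros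
  obtain ⟨B, hB, hB3⟩ := Finset.exists_subset_card_eq ha.ones
  have hAB : Disjoint A B := by
    rw [Finset.disjoint_left]
    intro k hk hk'
    have h3 := (Finset.mem_filter.1 (hA hk)).2
    have h4 := (Finset.mem_filter.1 (hB hk')).2
    rw [h3] at h4
    exact zero_ne_one h4
  have hlc : ∀ k, ConcaveOn ℝ (Ioo (0 : ℝ) 1) fun t => ll a k t := by
    intro k
    refine ⟨convex_Ioo 0 1, fun x hx y hy α β hα hβ hαβ => ?_⟩
    obtain rfl : β = 1 - α := by linarith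
    simp only [ll, smul_eq_mul]
    apply le_of_eq
    ring
  have hYc : ConcaveOn ℝ (Ioo (0 : ℝ) 1) fun t => ∑ k, DD a e w k ^ 2 / (4 * ll a k x₁ *
      ll a k x₂) * (t * (1 - t) / (a k * t + (1 - a k) * (1 - t))) := by
    refine Convex_sum _ (convex_Ioo 0 1) fun k _ => ?_
    refine ⟨convex_Ioo 0 1, fun x hx y hy α β hα hβ hαβ => ?_⟩
    have h3 := (Convex_frac (ha.nonneg k) (ha.le_one k)).2 hx hy hα hβ hαβ
    simp only [smul_eq_mul] at h3 ⊢
    have h4 : 0 ≤ DD a e w k ^ 2 / (4 * ll a k x₁ * ll a k x₂) :=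
      div_nonneg (sq_nonneg _) (mul_pos (mul_pos four_pos (ll_pos ha h₁ k)) (ll_pos ha h₂ k)).le
    refine le_trans (le_of_eq ?_) (mul_le_mul_of_nonneg_left h3 h4)
    ring
  have hYe : ∀ t ∈ Ioo (0 : ℝ) 1, ∑ k, DD a e w k ^ 2 / (4 * ll a k x₁ * ll a k x₂) *
      (t * (1 - t) / (a k * t + (1 - a k) * (1 - t))) = t * (1 - t) * kk a e w x₁ x₂ t := by
    intro t ht
    unfold kk
    rw [Finset.mul_sum]
    refine Finset.sum_congr rfl fun k _ => ?_
    have e1 := (ll_pos ha h₁ k).ne'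
    have e2 := (ll_pos ha h₂ k).ne'
    have e3 := (ll_pos ha ht k).ne'
    have e4 : a k * t + (1 - a k) * (1 - t) = ll a k t := rfl
    rw [e4]
    field_simp
  have hYp : ∀ t ∈ Ioo (0 : ℝ) 1, 0 < ∑ k, DD a e w k ^ 2 / (4 * ll a k x₁ * ll a k x₂) *
      (t * (1 - t) / (a k * t + (1 - a k) * (1 - t))) := by
    intro t ht
    rw [hYe t ht]
    exact mul_pos (mul_pos ht.1 (by linarith [ht.2])) (kk_pos ha hg h₁ h₂ ht)
  have c1 := Convex_log hYc hYp
  have c2 : ConcaveOn ℝ (Ioo (0 : ℝ) 1) fun t =>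
      ∑ k ∈ Finset.univ \ (A ∪ B), Real.log (ll a k t) :=
    Convex_sum _ (convex_Ioo 0 1) fun k _ => Convex_log (hlc k) fun t ht => ll_pos ha ht k
  have c3 : ConvexOn ℝ (Ioo (0 : ℝ) 1) fun t => -(3 / 2 * Real.log (∑ k, DD a e w k ^ 2 /
      (4 * ll a k x₁ * ll a k x₂) * (t * (1 - t) / (a k * t + (1 - a k) * (1 - t)))) +
      1 / 2 * ∑ k ∈ Finset.univ \ (A ∪ B), Real.log (ll a k t)) := by
    refine ⟨convex_Ioo 0 1, fun x hx y hy α β hα hβ hαβ => ?_⟩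
    have d1 := c1.2 hx hy hα hβ hαβ
    have d2 := c2.2 hx hy hα hβ hαβ
    simp only [smul_eq_mul] at d1 d2 ⊢
    linarith
  refine (Convex_exp c3).congr fun t ht => ?_
  have ht1 : 0 < 1 - t := by linarith [ht.2]
  have hk := kk_pos ha hg h₁ h₂ ht
  have hR : 0 < ∏ k ∈ Finset.univ \ (A ∪ B), ll a k t :=
    Finset.prod_pos fun k _ => ll_pos ha ht k
  have hP : ∏ k, ll a k t = (∏ k ∈ Finset.univ \ (A ∪ B), ll a k t) *
      ((1 - t) ^ 3 * t ^ 3) := by
    rw [← Finset.prod_sdiff (Finset.subset_univ (A ∪ B)), Finset.prod_union hAB]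
    congr 2
    · rw [← hA3]
      refine Finset.prod_eq_pow_card fun k hk => ?_
      rw [ll, (Finset.mem_filter.1 (hA hk)).2]
      ring
    · rw [← hB3]
      refine Finset.prod_eq_pow_card fun k hk => ?_
      rw [ll, (Finset.mem_filter.1 (hB hk)).2]
      ring
  have hPp : 0 < ∏ k, ll a k t := Finset.prod_pos fun k _ => ll_pos ha ht k
  show Real.exp (-(3 / 2 * Real.log (∑ k, DD a e w k ^ 2 / (4 * ll a k x₁ * ll a k x₂) *
      (t * (1 - t) / (a k * t + (1 - a k) * (1 - t)))) +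
      1 / 2 * ∑ k ∈ Finset.univ \ (A ∪ B), Real.log (ll a k t))) = WW a e w x₁ x₂ t
  rw [hYe t ht]
  have hs : √(∏ k, ll a k t) = Real.exp (1 / 2 * Real.log (∏ k, ll a k t)) := by
    rw [Real.sqrt_eq_rpow, Real.rpow_def_of_pos hPp, mul_comm]
  unfold WW om
  rw [hs, ← Real.exp_neg, Real.rpow_def_of_pos hk, ← Real.exp_add, hP,
    Real.log_mul hR.ne' (mul_pos (pow_pos ht1 3) (pow_pos ht.1 3)).ne',
    Real.log_mul (pow_pos ht1 3).ne' (pow_pos ht.1 3).ne', Real.log_pow, Real.log_pow,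
    Real.log_prod (fun k _ => (ll_pos ha ht k).ne'),
    Real.log_mul (mul_pos ht.1 ht1).ne' hk.ne', Real.log_mul ht.1.ne' ht1.ne']
  congr 1
  push_cast
  ring

end Pool.Agent.KneserRank
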