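import Pool.Agent.KneserRank.Defs

/-!
# Linear algebra: coordinates in which both quadratic forms are diagonal

PROOF of `exists_coord`. `W` carries the inner product of `WithLp 2 (E × E)`. Let `α, β : W → E`
be the two coordinate maps, so `‖v‖ ^ 2 = ‖α v‖ ^ 2 + ‖β v‖ ^ 2`, and let `b` be an orthonormal
  basis
of `W` made of eigenvectors of the symmetric operator `adjoint α ∘ α`
(`LinearMap.IsSymmetric.eigenvectorBasis`), with eigenvalues `a k`. Then
`‖α v‖ ^ 2 = ∑ k, a k * (b.repr v k) ^ 2` and `‖β v‖ ^ 2 = ∑ k, (1 - a k) * (b.repr v k) ^ 2`, so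
`0 ≤ a k ≤ 1`. The kernel of `α` is spanned by the `b k` with `a k = 0` and has dimension at least
`finrank W - finrank E`; likewise for `β` and `a k = 1`. Put
`z i := b.repr (p i - p i₀, q i - q i₀)`. For the last claim,
`∑ k, (2 a k - 1) z i k ^ 2 = ‖p i - p i₀‖ ^ 2 - ‖q i - q i₀‖ ^ 2 = ‖p i‖ ^ 2 - ‖q i‖ ^ 2 -
2 ⟪p i - p i₀, p i₀⟫ + 2 ⟪q i - q i₀, q i₀⟫ - ‖p i₀‖ ^ 2 + ‖q i₀‖ ^ 2`, and by hypothesis
`‖p i‖ ^ 2 - ‖q i‖ ^ 2 - (‖p i₀‖ ^ 2 - ‖q i₀‖ ^ 2) = lam (p i - p i₀) + mu (q i - q i₀)`, so the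
  left
side is the value at `(p i - p i₀, q i - q i₀)` of a linear functional on `W`; `e k` is its value
at `b k`.
-/

set_option autoImplicit false
set_option linter.unusedSectionVars false

namespace Pool.Agent.KneserRank

open Set Module
open scoped InnerProductSpace

variable {E : Type*} [NormedAddCommGroup E] [InnerProductSpace ℝ E] [FiniteDimensional ℝ E]
variable {n : ℕ}

theorem exists_coord (p q : Fin n → E) (i₀ : Fin n) (W : Submodule ℝ (WithLp 2 (E × E))) {D : ℕ}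
    (hD : finrank ℝ W = D) (hmem : ∀ i, WithLp.toLp 2 (p i - p i₀, q i - q i₀) ∈ W)
    (hrel : ∃ (lam mu : E →ₗ[ℝ] ℝ) (c : ℝ), ∀ i,
      ‖p i‖ ^ 2 - ‖q i‖ ^ 2 = lam (p i) + mu (q i) + c) :
    ∃ (a e : Fin D → ℝ) (z : Fin n → Fin D → ℝ),
      (∀ k, 0 ≤ a k) ∧ (∀ k, a k ≤ 1) ∧
      D ≤ finrank ℝ E + (Finset.univ.filter fun k => a k = 0).card ∧
      D ≤ finrank ℝ E + (Finset.univ.filter fun k => a k = 1).card ∧
      (∀ i j, ‖p i - p j‖ ^ 2 = ∑ k, a k * (z i k - z j k) ^ 2) ∧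
      (∀ i j, ‖q i - q j‖ ^ 2 = ∑ k, (1 - a k) * (z i k - z j k) ^ 2) ∧
      (∀ i, ∑ k, (2 * a k - 1) * z i k ^ 2 = ∑ k, e k * z i k) := by
  classical
  -- the two coordinate maps
  let α : W →ₗ[ℝ] E :=
    { toFun := fun v => (v : WithLp 2 (E × E)).fst
      map_add' := fun x y => rfl
      map_smul' := fun c x => rfl }
  let β : W →ₗ[ℝ] E :=
    { toFun := fun v => (v : WithLp 2 (E × E)).snd
      map_add' := fun x y => rfl
      map_smul' := fun c x => rfl }
  have hinner : ∀ v w : W, ⟪v, w⟫_ℝ = ⟪α v, α w⟫_ℝ + ⟪β v, β w⟫_ℝ := by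
    intro v w
    rw [Submodule.coe_inner, WithLp.prod_inner_apply]
    rfl
  let T : W →ₗ[ℝ] W := LinearMap.adjoint α ∘ₗ α
  have hT : T.IsSymmetric := by
    intro x y
    simp only [T, LinearMap.comp_apply, LinearMap.adjoint_inner_left,
      LinearMap.adjoint_inner_right]
  have hTα : ∀ v w : W, ⟪T v, w⟫_ℝ = ⟪α v, α w⟫_ℝ := by
    intro v w
    simp only [T, LinearMap.comp_apply, LinearMap.adjoint_inner_left]
  let b := hT.eigenvectorBasis hD
  let a : Fin D → ℝ := hT.eigenvalues hD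
  have hTb : ∀ k, T (b k) = a k • b k := fun k => hT.apply_eigenvectorBasis hD k
  have hαb : ∀ k l, ⟪α (b k), α (b l)⟫_ℝ = a k * ⟪b k, b l⟫_ℝ := by
    intro k l
    rw [← hTα, hTb]
    exact real_inner_smul_left (F := W) (b k) (b l) (a k)
  have hββ : ∀ k l, ⟪β (b k), β (b l)⟫_ℝ = (1 - a k) * ⟪b k, b l⟫_ℝ := by
    intro k l
    have h := hinner (b k) (b l)
    rw [hαb] at h
    linarith
  have hbb : ∀ k, ⟪b k, b k⟫_ℝ = 1 := by
    intro k
    rw [real_inner_self_eq_norm_sq, b.orthonormal.1 k]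
    norm_num
  have hbo : ∀ k l, k ≠ l → ⟪b k, b l⟫_ℝ = 0 := fun k l h => b.orthonormal.2 h
  have hα2 : ∀ v : W, ‖α v‖ ^ 2 = ∑ k, a k * (b.repr v k) ^ 2 := by
    intro v
    rw [← real_inner_self_eq_norm_sq, ← hTα, ← b.sum_inner_mul_inner]
    refine Finset.sum_congr rfl fun k _ => ?_
    have e1 : ⟪T v, b k⟫_ℝ = a k * ⟪v, b k⟫_ℝ := by
      rw [hT v (b k), hTb]
      exact real_inner_smul_right (F := W) v (b k) (a k)
    rw [e1, b.repr_apply_apply, real_inner_comm v (b k)]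
    ring
  have hn2 : ∀ v : W, ‖v‖ ^ 2 = ∑ k, (b.repr v k) ^ 2 := by
    intro v
    rw [← real_inner_self_eq_norm_sq, ← b.sum_inner_mul_inner]
    refine Finset.sum_congr rfl fun k _ => ?_
    rw [b.repr_apply_apply, real_inner_comm v (b k)]
    ring
  have hβ2 : ∀ v : W, ‖β v‖ ^ 2 = ∑ k, (1 - a k) * (b.repr v k) ^ 2 := by
    intro v
    have h := hinner v v
    rw [real_inner_self_eq_norm_sq, real_inner_self_eq_norm_sq, real_inner_self_eq_norm_sq,
      hα2, hn2] at h
    have h2 : ∑ k, (1 - a k) * (b.repr v k) ^ 2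
        = ∑ k, (b.repr v k) ^ 2 - ∑ k, a k * (b.repr v k) ^ 2 := by
      rw [← Finset.sum_sub_distrib]
      refine Finset.sum_congr rfl fun k _ => ?_
      ring
    rw [h2]
    linarith
  have ha0 : ∀ k, 0 ≤ a k := by
    intro k
    have h := hαb k k
    rw [hbb, mul_one, real_inner_self_eq_norm_sq] at h
    rw [← h]
    positivity
  have ha1 : ∀ k, a k ≤ 1 := by
    intro k
    have h := hββ k k
    rw [hbb, mul_one, real_inner_self_eq_norm_sq] at h
    have h2 : 0 ≤ ‖β (b k)‖ ^ 2 := by positivity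
    linarith
  -- dimension counts
  have hcard0 : (Finset.univ.filter fun k => ¬ a k = 0).card ≤ finrank ℝ E := by
    have hli : LinearIndependent ℝ (fun k : {k // ¬ a k = 0} => α (b k)) := by
      refine linearIndependent_of_ne_zero_of_inner_eq_zero (𝕜 := ℝ) ?_ ?_
      · intro k h0
        have h := hαb k k
        rw [h0, inner_zero_left, hbb, mul_one] at h
        exact k.2 h.symm
      · intro k l hkl
        change ⟪α (b k), α (b l)⟫_ℝ = 0
        rw [hαb, hbo k l (fun h => hkl (Subtype.ext h)), mul_zero]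
    have h := hli.fintype_card_le_finrank
    rwa [Fintype.card_subtype] at h
  have hcard1 : (Finset.univ.filter fun k => ¬ a k = 1).card ≤ finrank ℝ E := by
    have hli : LinearIndependent ℝ (fun k : {k // ¬ a k = 1} => β (b k)) := by
      refine linearIndependent_of_ne_zero_of_inner_eq_zero (𝕜 := ℝ) ?_ ?_
      · intro k h0
        have h := hββ k k
        rw [h0, inner_zero_left, hbb, mul_one] at h
        exact k.2 (by linarith)
      · intro k l hkl
        change ⟪β (b k), β (b l)⟫_ℝ = 0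
        rw [hββ, hbo k l (fun h => hkl (Subtype.ext h)), mul_zero]
    have h := hli.fintype_card_le_finrank
    rwa [Fintype.card_subtype] at h
  have hsplit0 := Finset.card_filter_add_card_filter_not (s := (Finset.univ : Finset (Fin D)))
    (fun k => a k = 0)
  have hsplit1 := Finset.card_filter_add_card_filter_not (s := (Finset.univ : Finset (Fin D)))
    (fun k => a k = 1)
  rw [Finset.card_univ, Fintype.card_fin] at hsplit0 hsplit1
  -- the points
  let w : Fin n → W := fun i => ⟨WithLp.toLp 2 (p i - p i₀, q i - q i₀), hmem i⟩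
  have hαw : ∀ i, α (w i) = p i - p i₀ := fun i => rfl
  have hβw : ∀ i, β (w i) = q i - q i₀ := fun i => rfl
  obtain ⟨lam, mu, c, hc⟩ := hrel
  let φ : W →ₗ[ℝ] ℝ := lam ∘ₗ α + mu ∘ₗ β - (2 : ℝ) • ((innerₛₗ ℝ (p i₀)) ∘ₗ α)
    + (2 : ℝ) • ((innerₛₗ ℝ (q i₀)) ∘ₗ β)
  have hφ : ∀ v, φ v = lam (α v) + mu (β v) - 2 * ⟪p i₀, α v⟫_ℝ + 2 * ⟪q i₀, β v⟫_ℝ := by
    intro v
    simp [φ]
  refine ⟨a, fun k => φ (b k), fun i k => b.repr (w i) k, ha0, ha1, by omega, by omega,
    ?_, ?_, ?_⟩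
  · intro i j
    have h := hα2 (w i - w j)
    rw [map_sub, hαw, hαw, sub_sub_sub_cancel_right] at h
    rw [h]
    refine Finset.sum_congr rfl fun k _ => ?_
    rw [map_sub]
    rfl
  · intro i j
    have h := hβ2 (w i - w j)
    rw [map_sub, hβw, hβw, sub_sub_sub_cancel_right] at h
    rw [h]
    refine Finset.sum_congr rfl fun k _ => ?_
    rw [map_sub]
    rfl
  · intro i
    have h1 : φ (w i) = ∑ k, φ (b k) * b.repr (w i) k := by
      conv_lhs => rw [← b.sum_repr (w i)]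
      rw [map_sum]
      refine Finset.sum_congr rfl fun k _ => ?_
      rw [map_smul, smul_eq_mul, mul_comm]
    rw [← h1, hφ, hαw, hβw]
    have h2 : ∑ k, (2 * a k - 1) * (b.repr (w i) k) ^ 2 = ‖α (w i)‖ ^ 2 - ‖β (w i)‖ ^ 2 := by
      rw [hα2, hβ2, ← Finset.sum_sub_distrib]
      refine Finset.sum_congr rfl fun k _ => ?_
      ring
    rw [h2, hαw, hβw, norm_sub_sq_real, norm_sub_sq_real, map_sub, map_sub, inner_sub_right,
      inner_sub_right, real_inner_self_eq_norm_sq, real_inner_self_eq_norm_sq,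
      real_inner_comm (p i) (p i₀), real_inner_comm (q i) (q i₀)]
    have h3 := hc i
    have h4 := hc i₀
    linarith

end Pool.Agent.KneserRank
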