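import Mathlib

/-!
# The rank theorem for Kneser's inequality: definitions

Overview. For `p, q : Fin n → E`, `d = finrank E`, a contraction, let `r` be the dimension of the
span of the vectors `(1, p i, q i, ‖p i‖ ^ 2 - ‖q i‖ ^ 2)`. If `r ≤ d + 4` then the weighted
inequality holds. The proof tests the inequality on finite sums of Gaussians; it is reduced to the
positivity property `Pos` below, and `Pos` is proved either from configurations in dimension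
`d + 2` or, if the affine dimension `D` of the points `(p i, q i)` is `d + 3`, from the
monotonicity of the function `Flin` below.
-/

set_option autoImplicit false
set_option linter.unusedSectionVars false

namespace Pool.Agent.KneserRank

open MeasureTheory Set Filter Topology
open scoped ENNReal

section exponents

variable {ι : Type*} [Fintype ι]

/-- Total mass of the exponents. -/
noncomputable def tot (k : ι → ℕ) : ℝ := ∑ i, (k i : ℝ)

/-- `½ ∑ i j, k i * k j * s i j`. -/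
noncomputable def quad (k : ι → ℕ) (s : ι → ι → ℝ) : ℝ :=
  (∑ i, ∑ j, (k i : ℝ) * (k j : ℝ) * s i j) / 2

/-- `exp (-∑ i, k i * y i)`. -/
noncomputable def ee (k : ι → ℕ) (y : ι → ℝ) : ℝ := Real.exp (-∑ i, (k i : ℝ) * y i)

/-- The positivity property, for matrices `s`, `r` of squared distances, in dimension `d`. -/
def Pos (d : ℕ) (s r : ι → ι → ℝ) : Prop :=
  ∀ (T : Finset (ι → ℕ)) (C : (ι → ℕ) → ℝ), (∀ k ∈ T, k ≠ 0) →
    (∀ y : ι → ℝ, (∀ i, 0 ≤ y i) → 0 ≤ ∑ k ∈ T, C k * ee k y) →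
    0 ≤ ∑ k ∈ T, C k * (tot k ^ (-((d : ℝ) / 2 + 1)) *
      ∫ t in (0 : ℝ)..1, Real.exp (-((t * quad k s + (1 - t) * quad k r) / tot k)))

theorem tot_pos {k : ι → ℕ} (hk : k ≠ 0) : 0 < tot k := by
  obtain ⟨i, hi⟩ := Function.ne_iff.mp hk
  unfold tot
  refine Finset.sum_pos' (fun j _ => Nat.cast_nonneg _) ⟨i, Finset.mem_univ i, ?_⟩
  exact_mod_cast Nat.pos_of_ne_zero hi

end exponents

section pencil

variable {D : ℕ}

/-- The linear functions `l k`, positive on `(0, 1)` if `0 ≤ a k ≤ 1`. -/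
noncomputable def ll (a : Fin D → ℝ) (k : Fin D) (t : ℝ) : ℝ := a k * t + (1 - a k) * (1 - t)

/-- The convex function `H`. -/
noncomputable def HH (a e w : Fin D → ℝ) (t : ℝ) : ℝ :=
  ∑ k, (w k + t * e k) ^ 2 / (4 * ll a k t)

/-- The density `∏ k, l k ^ (-1/2)`. -/
noncomputable def om (a : Fin D → ℝ) (t : ℝ) : ℝ := (√(∏ k, ll a k t))⁻¹

/-- The constants in the second divided difference of `H`. -/
noncomputable def DD (a e w : Fin D → ℝ) (k : Fin D) : ℝ :=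
  w k * (2 * a k - 1) - e k * (1 - a k)

/-- The second divided difference of `H` at `x₁, x₂, t`. -/
noncomputable def kk (a e w : Fin D → ℝ) (x₁ x₂ t : ℝ) : ℝ :=
  ∑ k, DD a e w k ^ 2 / (4 * ll a k x₁ * ll a k x₂ * ll a k t)

/-- The function whose convexity gives the monotonicity. -/
noncomputable def WW (a e w : Fin D → ℝ) (x₁ x₂ t : ℝ) : ℝ :=
  om a t * kk a e w x₁ x₂ t ^ (-(3 / 2) : ℝ)

/-- The derivative of `om`. -/
noncomputable def omt (a : Fin D → ℝ) (t : ℝ) : ℝ :=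
  -(om a t * ∑ k, (2 * a k - 1) / ll a k t) / 2

/-- The derivative of `kk` in `t`. -/
noncomputable def kkt (a e w : Fin D → ℝ) (x₁ x₂ t : ℝ) : ℝ :=
  -∑ k, DD a e w k ^ 2 * (2 * a k - 1) / (4 * ll a k x₁ * ll a k x₂ * ll a k t ^ 2)

/-- The derivative of `kk` in `(x₁, x₂)` in the direction `(y₁, y₂)`. -/
noncomputable def kkh (a e w : Fin D → ℝ) (x₁ x₂ y₁ y₂ t : ℝ) : ℝ :=
  -∑ k, DD a e w k ^ 2 / (4 * ll a k x₁ * ll a k x₂ * ll a k t) *
    ((2 * a k - 1) * y₁ / ll a k x₁ + (2 * a k - 1) * y₂ / ll a k x₂)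

/-- The derivative of `WW` in `t`. -/
noncomputable def WWt (a e w : Fin D → ℝ) (x₁ x₂ t : ℝ) : ℝ :=
  omt a t * kk a e w x₁ x₂ t ^ (-(3 / 2) : ℝ) -
    3 / 2 * (om a t * kk a e w x₁ x₂ t ^ (-(5 / 2) : ℝ) * kkt a e w x₁ x₂ t)

/-- The parametrisation of `[x₁, x₂]` by `[0, π]`. -/
noncomputable def par (x₁ x₂ θ : ℝ) : ℝ := (x₁ + x₂) / 2 + (x₂ - x₁) / 2 * Real.cos θ

/-- The value of `F` in terms of the two roots of `H t = h`. -/
noncomputable def Phi (a e w : Fin D → ℝ) (x₁ x₂ : ℝ) : ℝ :=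
  ∫ θ in (0 : ℝ)..Real.pi,
    om a (par x₁ x₂ θ) * kk a e w x₁ x₂ (par x₁ x₂ θ) ^ (-(1 / 2) : ℝ)

/-- The integrand of the derivative of `Phi` along a curve with velocity `(y₁, y₂)`. -/
noncomputable def thd (a e w : Fin D → ℝ) (x₁ x₂ y₁ y₂ θ : ℝ) : ℝ :=
  (WWt a e w x₁ x₂ (par x₁ x₂ θ) * kk a e w x₁ x₂ (par x₁ x₂ θ) +
      WW a e w x₁ x₂ (par x₁ x₂ θ) * kkt a e w x₁ x₂ (par x₁ x₂ θ)) *
      ((y₁ + y₂) / 2 + (y₂ - y₁) / 2 * Real.cos θ) -
    WW a e w x₁ x₂ (par x₁ x₂ θ) * kkh a e w x₁ x₂ y₁ y₂ (par x₁ x₂ θ) / 2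

/-- The function `F`. -/
noncomputable def Flin (a e w : Fin D → ℝ) (h : ℝ) : ℝ≥0∞ :=
  ∫⁻ t in Ioo (0 : ℝ) 1,
    ENNReal.ofReal (if HH a e w t < h then om a t / √(h - HH a e w t) else 0)

/-- The standing assumptions on `a`. -/
structure Pencil (a : Fin D → ℝ) : Prop where
  nonneg : ∀ k, 0 ≤ a k
  le_one : ∀ k, a k ≤ 1
  zeros : 3 ≤ (Finset.univ.filter fun k => a k = 0).card
  ones : 3 ≤ (Finset.univ.filter fun k => a k = 1).card

theorem ll_pos {a : Fin D → ℝ} (ha : Pencil a) {t : ℝ} (ht : t ∈ Ioo (0 : ℝ) 1) (k : Fin D) :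
    0 < ll a k t := by
  unfold ll
  have h0 := ha.nonneg k
  have h1 := ha.le_one k
  have ht0 := ht.1
  have ht1 := ht.2
  rcases h0.eq_or_lt with h | h
  · rw [← h]; linarith
  · have h2 : 0 < a k * t := mul_pos h ht0
    have h3 : 0 ≤ (1 - a k) * (1 - t) := mul_nonneg (by linarith) (by linarith)
    linarith

/-- The generic vectors `w`. -/
structure Generic (a e w : Fin D → ℝ) : Prop where
  left : ∃ k, a k = 1 ∧ w k ≠ 0
  right : ∃ k, a k = 0 ∧ w k + e k ≠ 0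

/-- The two root functions `x₁ h < x₂ h` of `H t = h` for `h > m`, with derivatives `y₁`, `y₂`. -/
structure Roots (a e w : Fin D → ℝ) (m : ℝ) (x₁ x₂ y₁ y₂ : ℝ → ℝ) : Prop where
  low : ∀ t ∈ Ioo (0 : ℝ) 1, m ≤ HH a e w t
  mem₁ : ∀ h, m < h → x₁ h ∈ Ioo (0 : ℝ) 1
  mem₂ : ∀ h, m < h → x₂ h ∈ Ioo (0 : ℝ) 1
  lt : ∀ h, m < h → x₁ h < x₂ h
  root₁ : ∀ h, m < h → HH a e w (x₁ h) = h
  root₂ : ∀ h, m < h → HH a e w (x₂ h) = h
  deriv₁ : ∀ h, m < h → HasDerivAt x₁ (y₁ h) h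
  deriv₂ : ∀ h, m < h → HasDerivAt x₂ (y₂ h) h
  cont₁ : ContinuousOn y₁ (Ioi m)
  cont₂ : ContinuousOn y₂ (Ioi m)

/-- The affine functions `L i`. -/
noncomputable def LL {ι : Type*} (a : Fin D → ℝ) (z : ι → Fin D → ℝ) (w : Fin D → ℝ) (i : ι) : ℝ :=
  ∑ k, ((1 - a k) * z i k ^ 2 - w k * z i k)

/-- The arguments `y i` at the point `(t, w, η)`. -/
noncomputable def yv {ι : Type*} (a e : Fin D → ℝ) (z : ι → Fin D → ℝ)
    (x : ℝ × ((Fin D → ℝ) × ℝ)) (i : ι) : ℝ :=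
  HH a e x.2.1 x.1 + x.2.2 ^ 2 + LL a z x.2.1 i

end pencil

end Pool.Agent.KneserRank
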