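import Pool.Agent.KneserRank.Gauss
import Pool.Agent.KneserCentre.Sphere

/-!
# From the positivity property to the inequality for smoothed counting functions
-/

set_option autoImplicit false
set_option linter.unusedSectionVars false

namespace Pool.Agent.KneserRank

open MeasureTheory Set Filter Topology
open Pool.Agent.KneserCentre

variable {ι : Type*} [Fintype ι] [DecidableEq ι]

/-- The polynomials attached to a subset. -/
noncomputable def BB (A : ι → Polynomial ℝ) (S : Finset ι) (l : ι) : Polynomial ℝ :=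
  if l ∈ S then A l else 1 - A l

/-- The coefficients of the expansion in Gaussians. -/
noncomputable def coef (φ : ℕ → ℝ) (A : ι → Polynomial ℝ) (k : ι → ℕ) : ℝ :=
  ∑ S : Finset ι, φ S.card * ∏ l, (BB A S l).coeff (k l)

theorem ex_neg (k : ι → ℕ) (y : ι → ℝ) : ex k (fun l => -y l) = ee k y := by
  unfold ex ee
  congr 1
  rw [← Finset.sum_neg_distrib]
  exact Finset.sum_congr rfl fun l _ => by ring

theorem BB_natDegree {A : ι → Polynomial ℝ} {N : ℕ} (hN : ∀ l, (A l).natDegree < N)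
    (_ : 0 < N) (S : Finset ι) (l : ι) : (BB A S l).natDegree < N := by
  unfold BB
  split_ifs
  · exact hN l
  · refine (Polynomial.natDegree_sub_le _ _).trans_lt ?_
    simp [hN l]

theorem BB_eval (A : ι → Polynomial ℝ) (S : Finset ι) (l : ι) (x : ℝ) :
    (BB A S l).eval x = if l ∈ S then (A l).eval x else 1 - (A l).eval x := by
  unfold BB
  split_ifs <;> simp

theorem BB_dP (A : ι → Polynomial ℝ) (S : Finset ι) (l : ι) (s : ℝ) :
    dP (BB A S l) s = (if l ∈ S then (1 : ℝ) else -1) * dP (A l) s := by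
  unfold BB dP
  split_ifs <;> simp

theorem mul_expand (φ : ℕ → ℝ) {A : ι → Polynomial ℝ} {N : ℕ} (hN : ∀ l, (A l).natDegree < N)
    (hN0 : 0 < N) (y : ι → ℝ) :
    mul φ (fun l => (A l).eval (Real.exp (-y l))) = ∑ k ∈ idx ι N, coef φ A k * ee k y := by
  unfold mul coef
  simp only [Finset.sum_mul]
  rw [Finset.sum_comm]
  refine Finset.sum_congr rfl fun S _ => ?_
  have h := prod_expand (BB A S) (BB_natDegree hN hN0 S) (fun l => -y l)
  simp only [ex_neg, BB_eval] at h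
  rw [h, Finset.mul_sum]
  exact Finset.sum_congr rfl fun k _ => by ring

theorem mix_sum_expand (φ : ℕ → ℝ) {A : ι → Polynomial ℝ} {N : ℕ}
    (hN : ∀ l, (A l).natDegree < N) (hN0 : 0 < N) {i j : ι} (hij : i ≠ j) (y : ι → ℝ) :
    ∑ S : Finset ι, φ S.card * mix (BB A S) i j (fun l => -y l) =
      ∑ k ∈ idx ι N, coef φ A k * (((k i : ℝ) * (k j : ℝ)) * ee k y) := by
  unfold coef
  simp only [Finset.sum_mul]
  rw [Finset.sum_comm]
  refine Finset.sum_congr rfl fun S _ => ?_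
  have h := mix_expand (BB A S) (BB_natDegree hN hN0 S) hij (fun l => -y l)
  simp only [ex_neg] at h
  rw [h, Finset.mul_sum]
  exact Finset.sum_congr rfl fun k _ => by ring

theorem mix_sum_nonpos {φ : ℕ → ℝ} (hφ : ∀ k, φ (k + 2) - 2 * φ (k + 1) + φ k ≤ 0)
    {A : ι → Polynomial ℝ}
    (h0 : ∀ i s, s ≤ 0 → 0 ≤ (A i).eval (Real.exp s))
    (h1 : ∀ i s, s ≤ 0 → (A i).eval (Real.exp s) ≤ 1)
    (hd : ∀ i s, s ≤ 0 → 0 ≤ dP (A i) s) {i j : ι} (hij : i ≠ j) {y : ι → ℝ}
    (hy : ∀ l, 0 ≤ y l) :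
    ∑ S : Finset ι, φ S.card * mix (BB A S) i j (fun l => -y l) ≤ 0 := by
  have hy' : ∀ l, -y l ≤ 0 := fun l => neg_nonpos.mpr (hy l)
  have h5 : ∑ S : Finset ι, φ S.card * mix (BB A S) i j (fun l => -y l) =
      (dP (A i) (-y i) * dP (A j) (-y j)) * ∑ S : Finset ι, φ S.card *
        ((if i ∈ S then (1 : ℝ) else -1) * (if j ∈ S then (1 : ℝ) else -1) *
          ∏ l ∈ (Finset.univ.erase i).erase j,
            (if l ∈ S then (A l).eval (Real.exp (-y l)) else
              1 - (A l).eval (Real.exp (-y l)))) := by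
    rw [Finset.mul_sum]
    refine Finset.sum_congr rfl fun S _ => ?_
    unfold mix
    rw [if_neg hij]
    simp only [BB_eval, BB_dP]
    ring
  rw [h5]
  refine mul_nonpos_of_nonneg_of_nonpos (mul_nonneg (hd i _ (hy' i)) (hd j _ (hy' j))) ?_
  exact sum_sign_nonpos φ hφ _ (fun l => h0 l _ (hy' l)) (fun l => h1 l _ (hy' l)) i j hij

theorem coef_zero {φ : ℕ → ℝ} (hφ0 : φ 0 = 0) {A : ι → Polynomial ℝ}
    (hA : ∀ l, (A l).coeff 0 = 0) : coef φ A 0 = 0 := by
  have h1 : coef φ A 0 = mul φ (fun l : ι => if l ∈ (∅ : Finset ι) then (1 : ℝ) else 0) := by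
    unfold coef mul
    refine Finset.sum_congr rfl fun S _ => ?_
    congr 1
    refine Finset.prod_congr rfl fun l _ => ?_
    unfold BB
    by_cases h : l ∈ S
    · simp [h, hA l]
    · simp [h, hA l]
  rw [h1, mul_indicator, Finset.card_empty, hφ0]

variable {X : Type*} [NormedAddCommGroup X] [InnerProductSpace ℝ X] [FiniteDimensional ℝ X]
  [MeasurableSpace X] [BorelSpace X]

theorem smooth_le_of_pos {φ : ℕ → ℝ} (hφ0 : φ 0 = 0)
    (hφ : ∀ k, φ (k + 2) - 2 * φ (k + 1) + φ k ≤ 0)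
    {A : ι → Polynomial ℝ} (hA : ∀ l, (A l).coeff 0 = 0)
    (h0 : ∀ i s, s ≤ 0 → 0 ≤ (A i).eval (Real.exp s))
    (h1 : ∀ i s, s ≤ 0 → (A i).eval (Real.exp s) ≤ 1)
    (hd : ∀ i s, s ≤ 0 → 0 ≤ dP (A i) s) (p q : ι → X)
    (hpq : ∀ i j, ‖q i - q j‖ ^ 2 ≤ ‖p i - p j‖ ^ 2)
    (H : Pos (Module.finrank ℝ X) (fun i j => ‖p i - p j‖ ^ 2) (fun i j => ‖q i - q j‖ ^ 2)) :
    ∫ x, mul φ (fun l => (A l).eval (Real.exp (-‖x - q l‖ ^ 2))) ≤
      ∫ x, mul φ (fun l => (A l).eval (Real.exp (-‖x - p l‖ ^ 2))) := by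
  obtain ⟨N, hN0, hN⟩ : ∃ N : ℕ, 0 < N ∧ ∀ l, (A l).natDegree < N := by
    refine ⟨(∑ l, (A l).natDegree) + 1, Nat.succ_pos _, fun l => ?_⟩
    have := Finset.single_le_sum (f := fun l => (A l).natDegree) (fun _ _ => Nat.zero_le _)
      (Finset.mem_univ l)
    exact Nat.lt_succ_of_le this
  set T : Finset (ι → ℕ) := (idx ι N).erase 0 with hT
  have hTne : ∀ k ∈ T, k ≠ 0 := fun k hk => (Finset.mem_erase.mp hk).1
  have hzero : coef φ A 0 = 0 := coef_zero hφ0 hA
  have hsumT : ∀ f : (ι → ℕ) → ℝ, ∑ k ∈ idx ι N, coef φ A k * f k = ∑ k ∈ T, coef φ A k * f k := by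
    intro f
    rw [hT]
    refine (Finset.sum_erase _ ?_).symm
    rw [hzero, zero_mul]
  set d := Module.finrank ℝ X with hdd
  have hint : ∀ r : ι → X, ∫ x, mul φ (fun l => (A l).eval (Real.exp (-‖x - r l‖ ^ 2))) =
      ∑ k ∈ T, coef φ A k * ((Real.pi / tot k) ^ ((d : ℝ) / 2) *
        Real.exp (-(quad k (fun i j => ‖r i - r j‖ ^ 2) / tot k))) := by
    intro r
    have e1 : ∀ x, mul φ (fun l => (A l).eval (Real.exp (-‖x - r l‖ ^ 2))) =
        ∑ k ∈ T, coef φ A k * ee k (fun l => ‖x - r l‖ ^ 2) := by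
      intro x
      rw [mul_expand φ hN hN0 (fun l => ‖x - r l‖ ^ 2), hsumT]
    simp only [e1]
    rw [integral_finsetSum]
    · refine Finset.sum_congr rfl fun k hk => ?_
      rw [integral_const_mul, integral_ee (hTne k hk)]
    · intro k hk
      exact (integrable_ee (hTne k hk) r).const_mul _
  rw [← sub_nonneg, hint p, hint q, ← Finset.sum_sub_distrib]
  have hG := H T (fun k => -(quad k (fun i j => ‖p i - p j‖ ^ 2) -
    quad k (fun i j => ‖q i - q j‖ ^ 2)) * coef φ A k) hTne ?_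
  · have h6 : ∑ k ∈ T, (coef φ A k * ((Real.pi / tot k) ^ ((d : ℝ) / 2) *
        Real.exp (-(quad k (fun i j => ‖p i - p j‖ ^ 2) / tot k))) -
        coef φ A k * ((Real.pi / tot k) ^ ((d : ℝ) / 2) *
        Real.exp (-(quad k (fun i j => ‖q i - q j‖ ^ 2) / tot k)))) =
        Real.pi ^ ((d : ℝ) / 2) * ∑ k ∈ T, (-(quad k (fun i j => ‖p i - p j‖ ^ 2) -
          quad k (fun i j => ‖q i - q j‖ ^ 2)) * coef φ A k) *
          (tot k ^ (-((d : ℝ) / 2 + 1)) * ∫ t in (0 : ℝ)..1,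
            Real.exp (-((t * quad k (fun i j => ‖p i - p j‖ ^ 2) +
              (1 - t) * quad k (fun i j => ‖q i - q j‖ ^ 2)) / tot k))) := by
      rw [Finset.mul_sum]
      refine Finset.sum_congr rfl fun k hk => ?_
      have hK := tot_pos (hTne k hk)
      set P := quad k (fun i j => ‖p i - p j‖ ^ 2)
      set Q := quad k (fun i j => ‖q i - q j‖ ^ 2)
      rw [← mul_sub, ← mul_sub, exp_sub_exp]
      have h7 : ∀ t : ℝ, -((t * P + (1 - t) * Q) / tot k) =
          -(t * (P / tot k) + (1 - t) * (Q / tot k)) := by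
        intro t; ring
      simp only [h7]
      rw [Real.div_rpow Real.pi_pos.le hK.le, Real.rpow_neg hK.le, Real.rpow_add hK,
        Real.rpow_one]
      have hK2 : tot k ^ ((d : ℝ) / 2) ≠ 0 := (Real.rpow_pos_of_pos hK _).ne'
      field_simp
    rw [h6]
    exact mul_nonneg (Real.rpow_nonneg Real.pi_pos.le _) hG
  · intro y hy
    have h8 : ∑ k ∈ T, -(quad k (fun i j => ‖p i - p j‖ ^ 2) -
        quad k (fun i j => ‖q i - q j‖ ^ 2)) * coef φ A k * ee k y =
        ∑ i, ∑ j, (-(‖p i - p j‖ ^ 2 - ‖q i - q j‖ ^ 2) / 2) *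
          ∑ k ∈ T, coef φ A k * (((k i : ℝ) * (k j : ℝ)) * ee k y) := by
      have h9 : ∀ i j, (-(‖p i - p j‖ ^ 2 - ‖q i - q j‖ ^ 2) / 2) *
          ∑ k ∈ T, coef φ A k * (((k i : ℝ) * (k j : ℝ)) * ee k y) =
          ∑ k ∈ T, (-(‖p i - p j‖ ^ 2 - ‖q i - q j‖ ^ 2) / 2) *
            (coef φ A k * (((k i : ℝ) * (k j : ℝ)) * ee k y)) := by
        intro i j
        rw [Finset.mul_sum]
      simp only [h9]
      have h10 : ∀ i, ∑ j, ∑ k ∈ T, (-(‖p i - p j‖ ^ 2 - ‖q i - q j‖ ^ 2) / 2) *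
            (coef φ A k * (((k i : ℝ) * (k j : ℝ)) * ee k y)) = ∑ k ∈ T, ∑ j,
            (-(‖p i - p j‖ ^ 2 - ‖q i - q j‖ ^ 2) / 2) *
            (coef φ A k * (((k i : ℝ) * (k j : ℝ)) * ee k y)) := fun i => Finset.sum_comm
      simp only [h10]
      rw [Finset.sum_comm]
      refine Finset.sum_congr rfl fun k _ => ?_
      unfold quad
      rw [← sub_div, ← Finset.sum_sub_distrib, neg_mul, neg_mul, div_mul_eq_mul_div,
        div_mul_eq_mul_div, ← neg_div, Finset.sum_mul, Finset.sum_mul, ← Finset.sum_neg_distrib,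
        Finset.sum_div]
      refine Finset.sum_congr rfl fun i _ => ?_
      rw [← Finset.sum_sub_distrib, Finset.sum_mul, Finset.sum_mul, ← Finset.sum_neg_distrib,
        Finset.sum_div]
      refine Finset.sum_congr rfl fun j _ => ?_
      ring
    rw [h8]
    refine Finset.sum_nonneg fun i _ => Finset.sum_nonneg fun j _ => ?_
    rcases eq_or_ne i j with rfl | hij
    · simp
    · refine mul_nonneg_of_nonpos_of_nonpos ?_ ?_
      · have := hpq i j
        linarith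
      · rw [← hsumT, ← mix_sum_expand φ hN hN0 hij y]
        exact mix_sum_nonpos hφ h0 h1 hd hij hy

end Pool.Agent.KneserRank
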