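import Pool.Agent.KneserRank.Gauss

/-!
# Positivity from configurations in dimension `d + 2`

PROOF of `pos_of_conf`. Fix `T`, `C`. For `t ∈ (0, 1)` take the configuration `c` in dimension
`d + 2` with `‖c i - c j‖ ^ 2 = t * s i j + (1 - t) * r i j`. By `integral_ee`, for `k ≠ 0`,
`∫ x, ee k (fun i => ‖x - c i‖ ^ 2) = (π / tot k) ^ (d / 2 + 1) * exp (-(t quad k s + (1 - t) quad k
r) / tot k)`, so `∑ k ∈ T, C k * tot k ^ (-(d / 2 + 1)) * exp (...) = π ^ (-(d / 2 + 1)) *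
∫ x, ∑ k ∈ T, C k * ee k (fun i => ‖x - c i‖ ^ 2) ≥ 0`. Integrate over `t ∈ (0, 1)`.
PROOF of `exists_conf`. For `t ∈ (0, 1)` the linear map `S (x, y) = (√t x, √(1 - t) y)` of
`E × E` is injective, so `S W` has dimension `finrank W ≤ d + 2` and embeds isometrically into
`EuclideanSpace ℝ (Fin (d + 2))` (see `exists_map` in `Pool/Agent/Kneser/Main.lean`). Let `c i` be
the image of `S (p i - p i₀, q i - q i₀)`.
-/

set_option autoImplicit false
set_option linter.unusedSectionVars false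

namespace Pool.Agent.KneserRank

open MeasureTheory Set Filter Topology

open scoped InnerProductSpace

private theorem path_quad {ι : Type*} [Fintype ι] (k : ι → ℕ) (s r u : ι → ι → ℝ) (t : ℝ)
    (h : ∀ i j, u i j = t * s i j + (1 - t) * r i j) :
    quad k u = t * quad k s + (1 - t) * quad k r := by
  unfold quad
  rw [mul_div_assoc', mul_div_assoc', ← add_div]
  congr 1
  rw [Finset.mul_sum, Finset.mul_sum, ← Finset.sum_add_distrib]
  refine Finset.sum_congr rfl fun i _ => ?_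
  rw [Finset.mul_sum, Finset.mul_sum, ← Finset.sum_add_distrib]
  refine Finset.sum_congr rfl fun j _ => ?_
  rw [h i j]
  ring

private theorem path_point {ι : Type*} [Fintype ι] {d : ℕ} (s r : ι → ι → ℝ) (t : ℝ)
    (c : ι → EuclideanSpace ℝ (Fin (d + 2)))
    (hc : ∀ i j, ‖c i - c j‖ ^ 2 = t * s i j + (1 - t) * r i j)
    (T : Finset (ι → ℕ)) (C : (ι → ℕ) → ℝ) (hT : ∀ k ∈ T, k ≠ 0)
    (hpos : ∀ y : ι → ℝ, (∀ i, 0 ≤ y i) → 0 ≤ ∑ k ∈ T, C k * ee k y) :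
    0 ≤ ∑ k ∈ T, C k * (tot k ^ (-((d : ℝ) / 2 + 1)) *
      Real.exp (-((t * quad k s + (1 - t) * quad k r) / tot k))) := by
  have h1 : 0 ≤ ∫ x : EuclideanSpace ℝ (Fin (d + 2)),
      ∑ k ∈ T, C k * ee k (fun i => ‖x - c i‖ ^ 2) :=
    integral_nonneg fun x => hpos _ fun i => sq_nonneg _
  rw [integral_finsetSum T fun k hk => (integrable_ee (hT k hk) c).const_mul (C k)] at h1
  have h2 : ∀ k ∈ T, ∫ x : EuclideanSpace ℝ (Fin (d + 2)), C k * ee k (fun i => ‖x - c i‖ ^ 2) =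
      Real.pi ^ ((d : ℝ) / 2 + 1) * (C k * (tot k ^ (-((d : ℝ) / 2 + 1)) *
        Real.exp (-((t * quad k s + (1 - t) * quad k r) / tot k)))) := by
    intro k hk
    have hk0 := tot_pos (hT k hk)
    rw [integral_const_mul, integral_ee (hT k hk), path_quad k s r _ t hc, finrank_euclideanSpace,
      Fintype.card_fin]
    have h3 : (((d + 2 : ℕ) : ℝ) / 2) = (d : ℝ) / 2 + 1 := by
      push_cast
      ring
    rw [h3, Real.div_rpow Real.pi_pos.le hk0.le, Real.rpow_neg hk0.le]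
    ring
  rw [Finset.sum_congr rfl h2, ← Finset.mul_sum] at h1
  exact nonneg_of_mul_nonneg_right h1 (Real.rpow_pos_of_pos Real.pi_pos _)

private theorem path_map {F : Type*} [NormedAddCommGroup F] [InnerProductSpace ℝ F]
    [FiniteDimensional ℝ F] {m : ℕ} (U : Submodule ℝ F) (hU : Module.finrank ℝ U ≤ m) :
    ∃ L : F →ₗ[ℝ] EuclideanSpace ℝ (Fin m), ∀ v ∈ U, ‖L v‖ = ‖v‖ := by
  set u := stdOrthonormalBasis ℝ U with hu
  set e : Fin (Module.finrank ℝ U) → EuclideanSpace ℝ (Fin m) :=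
    fun a => EuclideanSpace.basisFun (Fin m) ℝ (Fin.castLE hU a) with he
  have heo : Orthonormal ℝ e :=
    (EuclideanSpace.basisFun (Fin m) ℝ).orthonormal.comp _ (Fin.castLE_injective hU)
  let L : F →ₗ[ℝ] EuclideanSpace ℝ (Fin m) :=
    ∑ a, (LinearMap.toSpanSingleton ℝ (EuclideanSpace ℝ (Fin m)) (e a)) ∘ₗ (innerₗ F (u a : F))
  have hL : ∀ v, L v = ∑ a, ⟪(u a : F), v⟫_ℝ • e a := by
    intro v
    simp only [L, LinearMap.sum_apply, LinearMap.comp_apply, LinearMap.toSpanSingleton_apply,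
      innerₗ_apply_apply]
  refine ⟨L, fun v hv => ?_⟩
  rw [← sq_eq_sq₀ (norm_nonneg _) (norm_nonneg _), hL, ← real_inner_self_eq_norm_sq,
    heo.inner_sum]
  have h1 : ‖v‖ ^ 2 = ‖(⟨v, hv⟩ : U)‖ ^ 2 := rfl
  rw [h1, ← real_inner_self_eq_norm_sq, ← u.sum_inner_mul_inner ⟨v, hv⟩ ⟨v, hv⟩]
  refine Finset.sum_congr rfl fun a _ => ?_
  rw [Submodule.coe_inner, Submodule.coe_inner, real_inner_comm (u a : F) v]
  simp

theorem pos_of_conf {ι : Type*} [Fintype ι] {d : ℕ} (s r : ι → ι → ℝ)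
    (H : ∀ t ∈ Ioo (0 : ℝ) 1, ∃ c : ι → EuclideanSpace ℝ (Fin (d + 2)),
      ∀ i j, ‖c i - c j‖ ^ 2 = t * s i j + (1 - t) * r i j) : Pos d s r := by
  intro T C hT hpos
  have hcont : ∀ k : ι → ℕ, Continuous fun t : ℝ =>
      Real.exp (-((t * quad k s + (1 - t) * quad k r) / tot k)) := by
    intro k
    fun_prop
  have h1 : ∑ k ∈ T, C k * (tot k ^ (-((d : ℝ) / 2 + 1)) *
      ∫ t in (0 : ℝ)..1, Real.exp (-((t * quad k s + (1 - t) * quad k r) / tot k))) =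
      ∫ t in (0 : ℝ)..1, ∑ k ∈ T, C k * (tot k ^ (-((d : ℝ) / 2 + 1)) *
        Real.exp (-((t * quad k s + (1 - t) * quad k r) / tot k))) := by
    rw [intervalIntegral.integral_finsetSum fun k _ =>
      (((hcont k).const_mul _).const_mul _).intervalIntegrable 0 1]
    refine Finset.sum_congr rfl fun k _ => ?_
    rw [intervalIntegral.integral_const_mul, intervalIntegral.integral_const_mul]
  rw [h1, intervalIntegral.integral_of_le zero_le_one, integral_Ioc_eq_integral_Ioo]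
  refine setIntegral_nonneg measurableSet_Ioo fun t ht => ?_
  obtain ⟨c, hc⟩ := H t ht
  exact path_point s r t c hc T C hT hpos

theorem exists_conf {E : Type*} [NormedAddCommGroup E] [InnerProductSpace ℝ E]
    [FiniteDimensional ℝ E] {d n : ℕ} (p q : Fin n → E) (i₀ : Fin n)
    (W : Submodule ℝ (WithLp 2 (E × E))) (hW : Module.finrank ℝ W ≤ d + 2)
    (hmem : ∀ i, WithLp.toLp 2 (p i - p i₀, q i - q i₀) ∈ W) :
    ∀ t ∈ Ioo (0 : ℝ) 1, ∃ c : Fin n → EuclideanSpace ℝ (Fin (d + 2)),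
      ∀ i j, ‖c i - c j‖ ^ 2 = t * ‖p i - p j‖ ^ 2 + (1 - t) * ‖q i - q j‖ ^ 2 := by
  intro t ht
  let S : WithLp 2 (E × E) →ₗ[ℝ] WithLp 2 (E × E) :=
    (WithLp.linearEquiv 2 ℝ (E × E)).symm.toLinearMap ∘ₗ
      (LinearMap.prodMap (√t • LinearMap.id) (√(1 - t) • LinearMap.id)) ∘ₗ
        (WithLp.linearEquiv 2 ℝ (E × E)).toLinearMap
  have hS : ∀ x y : E, ‖S (WithLp.toLp 2 (x, y))‖ ^ 2 = t * ‖x‖ ^ 2 + (1 - t) * ‖y‖ ^ 2 := by
    intro x y
    have h1 : S (WithLp.toLp 2 (x, y)) = WithLp.toLp 2 (√t • x, √(1 - t) • y) := rfl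
    rw [h1, WithLp.prod_norm_sq_eq_of_L2]
    change ‖√t • x‖ ^ 2 + ‖√(1 - t) • y‖ ^ 2 = _
    rw [norm_smul, norm_smul, mul_pow, mul_pow, Real.norm_eq_abs, Real.norm_eq_abs, sq_abs, sq_abs,
      Real.sq_sqrt ht.1.le, Real.sq_sqrt (by linarith [ht.2])]
  obtain ⟨L, hL⟩ := path_map (m := d + 2) (W.map S) ((Submodule.finrank_map_le S W).trans hW)
  refine ⟨fun i => L (S (WithLp.toLp 2 (p i - p i₀, q i - q i₀))), fun i j => ?_⟩
  have h2 : L (S (WithLp.toLp 2 (p i - p i₀, q i - q i₀))) -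
      L (S (WithLp.toLp 2 (p j - p i₀, q j - q i₀))) =
      L (S (WithLp.toLp 2 (p i - p i₀, q i - q i₀) - WithLp.toLp 2 (p j - p i₀, q j - q i₀))) := by
    rw [map_sub, map_sub]
  have h3 : WithLp.toLp 2 (p i - p i₀, q i - q i₀) - WithLp.toLp 2 (p j - p i₀, q j - q i₀) =
      WithLp.toLp 2 (p i - p j, q i - q j) := by
    rw [← WithLp.toLp_sub, Prod.mk_sub_mk]
    congr 2
    · abel
    · abel
  change ‖L (S (WithLp.toLp 2 (p i - p i₀, q i - q i₀))) -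
      L (S (WithLp.toLp 2 (p j - p i₀, q j - q i₀)))‖ ^ 2 = _
  rw [h2, hL _ (Submodule.mem_map_of_mem (W.sub_mem (hmem i) (hmem j))), h3, hS]

end Pool.Agent.KneserRank
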