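import Pool.Agent.KneserRank.Shift
import Pool.Agent.KneserRank.Triple

/-!
# Positivity when `D = d + 3`

PROOF of `triple_shift`. `G` is nonnegative where needed because `yv ≥ 0` on `mu D`-almost all
points (`yv_eq`, `ll_pos`). Write both sides as lintegrals, order of integration
`w, t, η` (Tonelli), and for almost every `w` (`ae_generic`) apply `shift_le` with
`g h = ENNReal.ofReal (G (fun i => h + LL a z w i))`.
PROOF of `pos_of_coord`. Let `D = d + 3`, `G y = ∑ k ∈ T, C k * ee k y`, `K = tot k`, and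
`I k = ∫ t in 0..1, exp (-(t quad k s + (1 - t) quad k r) / K)`. By `integral_triple`,
`∫ om * ee k yv ∂mu = 2 ^ D * (π / K) ^ (d / 2 + 2) * I k`. Since
`ee k (y + ε) = exp (-(K ε)) * ee k y`, `triple_shift` gives
`0 ≤ ∑ k ∈ T, C k * (1 - exp (-(K ε))) * K ^ (-(d / 2 + 2)) * I k` for every `ε > 0`. Divide by `ε`
and let `ε → 0`: `(1 - exp (-(K ε))) / ε → K`, so
`0 ≤ ∑ k ∈ T, C k * K ^ (-(d / 2 + 1)) * I k`.
-/

set_option autoImplicit false
set_option linter.unusedSectionVars false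

namespace Pool.Agent.KneserRank

open MeasureTheory Set Filter Topology

variable {ι : Type*} [Fintype ι] {D : ℕ}

private theorem pc_om_nonneg (a : Fin D → ℝ) (t : ℝ) : 0 ≤ om a t := by
  unfold om
  positivity

private theorem pc_ee_shift (k : ι → ℕ) (y : ι → ℝ) (ε : ℝ) :
    ee k (fun i => y i + ε) = Real.exp (-(tot k * ε)) * ee k y := by
  unfold ee tot
  rw [← Real.exp_add]
  congr 1
  rw [Finset.sum_mul, ← neg_add, ← Finset.sum_add_distrib]
  congr 1
  apply Finset.sum_congr rfl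
  intro i _
  ring

private theorem pc_meas_ll (a : Fin D → ℝ) (k : Fin D) : Measurable (fun t : ℝ => ll a k t) := by
  unfold ll
  fun_prop

private theorem pc_meas_om (a : Fin D → ℝ) : Measurable (fun t : ℝ => om a t) := by
  unfold om
  have h : Measurable (fun t : ℝ => ∏ k, ll a k t) :=
    Finset.measurable_prod _ (fun k _ => pc_meas_ll a k)
  exact h.sqrt.inv

private theorem pc_meas_HH (a e : Fin D → ℝ) :
    Measurable (fun x : ℝ × (Fin D → ℝ) => HH a e x.2 x.1) := by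
  unfold HH
  refine Finset.measurable_sum _ (fun k _ => ?_)
  have h1 : Measurable (fun x : ℝ × (Fin D → ℝ) => ll a k x.1) :=
    (pc_meas_ll a k).comp measurable_fst
  have h2 : Measurable (fun x : ℝ × (Fin D → ℝ) => (x.2 k + x.1 * e k) ^ 2) := by fun_prop
  exact h2.div (h1.const_mul 4)

private theorem pc_meas_LL (a : Fin D → ℝ) (z : ι → Fin D → ℝ) (i : ι) :
    Measurable (fun w : Fin D → ℝ => LL a z w i) := by
  unfold LL
  fun_prop

private theorem pc_meas_G (T : Finset (ι → ℕ)) (C : (ι → ℕ) → ℝ) :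
    Measurable (fun y : ι → ℝ => ∑ k ∈ T, C k * ee k y) := by
  unfold ee
  fun_prop

private theorem pc_meas_yv (a e : Fin D → ℝ) (z : ι → Fin D → ℝ) (ε : ℝ) :
    Measurable (fun x : ℝ × ((Fin D → ℝ) × ℝ) => fun i => yv a e z x i + ε) := by
  refine measurable_pi_lambda _ (fun i => ?_)
  unfold yv
  have h1 : Measurable (fun x : ℝ × ((Fin D → ℝ) × ℝ) => HH a e x.2.1 x.1) :=
    (pc_meas_HH a e).comp (measurable_fst.prodMk measurable_snd.fst)
  have h2 : Measurable (fun x : ℝ × ((Fin D → ℝ) × ℝ) => LL a z x.2.1 i) :=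
    (pc_meas_LL a z i).comp measurable_snd.fst
  have h3 : Measurable (fun x : ℝ × ((Fin D → ℝ) × ℝ) => x.2.2 ^ 2) := by fun_prop
  exact ((h1.add h3).add h2).add_const ε

/-- The lintegral over `mu` in the order `w, t, η`. -/
private theorem pc_lint (a e : Fin D → ℝ) (z : ι → Fin D → ℝ) (T : Finset (ι → ℕ))
    (C : (ι → ℕ) → ℝ) (ε : ℝ) :
    ∫⁻ x, ENNReal.ofReal (om a x.1 * ∑ k ∈ T, C k * ee k (fun i => yv a e z x i + ε)) ∂(mu D) =
      ∫⁻ w : Fin D → ℝ, ∫⁻ t in Ioo (0 : ℝ) 1, ENNReal.ofReal (om a t) *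
        ∫⁻ η : ℝ, ENNReal.ofReal (∑ k ∈ T, C k * ee k
          (fun i => (HH a e w t + η ^ 2 + ε) + LL a z w i)) := by
  have hm : Measurable (fun x : ℝ × ((Fin D → ℝ) × ℝ) =>
      ENNReal.ofReal (om a x.1 * ∑ k ∈ T, C k * ee k (fun i => yv a e z x i + ε))) := by
    have h1 := (pc_meas_G T C).comp (pc_meas_yv a e z ε)
    have h2 : Measurable (fun x : ℝ × ((Fin D → ℝ) × ℝ) => om a x.1) :=
      (pc_meas_om a).comp measurable_fst
    exact (h2.mul h1).ennreal_ofReal
  unfold mu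
  rw [lintegral_prod _ hm.aemeasurable]
  have h1 : ∀ t : ℝ, ∫⁻ y, ENNReal.ofReal (om a (t, y).1 * ∑ k ∈ T, C k *
        ee k (fun i => yv a e z (t, y) i + ε))
        ∂((volume : Measure (Fin D → ℝ)).prod (volume : Measure ℝ)) =
      ∫⁻ w : Fin D → ℝ, ∫⁻ η : ℝ, ENNReal.ofReal (om a t * ∑ k ∈ T, C k *
        ee k (fun i => yv a e z (t, (w, η)) i + ε)) := by
    intro t
    have hm' : Measurable (fun y : (Fin D → ℝ) × ℝ => ENNReal.ofReal (om a t * ∑ k ∈ T, C k *
        ee k (fun i => yv a e z (t, y) i + ε))) := hm.comp measurable_prodMk_left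
    exact lintegral_prod _ hm'.aemeasurable
  rw [lintegral_congr h1, lintegral_lintegral_swap]
  · refine lintegral_congr (fun w => lintegral_congr (fun t => ?_))
    rw [← lintegral_const_mul]
    · refine lintegral_congr (fun η => ?_)
      rw [ENNReal.ofReal_mul (pc_om_nonneg a t)]
      congr 3
      funext k
      congr 2
      funext i
      unfold yv
      ring
    · have h3 : Measurable (fun η : ℝ => fun i : ι => (HH a e w t + η ^ 2 + ε) + LL a z w i) := by
        refine measurable_pi_lambda _ (fun i => ?_)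
        fun_prop
      exact ((pc_meas_G T C).comp h3).ennreal_ofReal
  · have h4 : Measurable (fun p : (ℝ × (Fin D → ℝ)) × ℝ => ENNReal.ofReal (om a p.1.1 *
        ∑ k ∈ T, C k * ee k (fun i => yv a e z (p.1.1, (p.1.2, p.2)) i + ε))) :=
      hm.comp (measurable_fst.fst.prodMk (measurable_fst.snd.prodMk measurable_snd))
    exact (h4.lintegral_prod_right').aemeasurable

private theorem pc_integrable {a e : Fin D → ℝ} (ha : Pencil a) {z : ι → Fin D → ℝ}
    (hrel : ∀ i, ∑ k, (2 * a k - 1) * z i k ^ 2 = ∑ k, e k * z i k) (T : Finset (ι → ℕ))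
    (C : (ι → ℕ) → ℝ) (hT : ∀ k ∈ T, k ≠ 0) (ε : ℝ) :
    Integrable (fun x => om a x.1 * ∑ k ∈ T, C k * ee k (fun i => yv a e z x i + ε)) (mu D) := by
  have h : ∀ k ∈ T, Integrable
      (fun x => (C k * Real.exp (-(tot k * ε))) * (om a x.1 * ee k (yv a e z x))) (mu D) :=
    fun k hk => (integrable_triple ha hrel (hT k hk)).const_mul _
  refine (integrable_finsetSum T h).congr (Eventually.of_forall (fun x => ?_))
  simp only [pc_ee_shift, Finset.mul_sum]
  refine Finset.sum_congr rfl (fun k _ => ?_)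
  have : ee k (yv a e z x) = ee k (fun i => yv a e z x i) := rfl
  rw [this]
  ring

private theorem pc_nonneg {a e : Fin D → ℝ} (ha : Pencil a) {z : ι → Fin D → ℝ}
    (hrel : ∀ i, ∑ k, (2 * a k - 1) * z i k ^ 2 = ∑ k, e k * z i k) (T : Finset (ι → ℕ))
    (C : (ι → ℕ) → ℝ)
    (hG : ∀ y : ι → ℝ, (∀ i, 0 ≤ y i) → 0 ≤ ∑ k ∈ T, C k * ee k y) {ε : ℝ} (hε : 0 ≤ ε) :
    0 ≤ᵐ[mu D] fun x => om a x.1 * ∑ k ∈ T, C k * ee k (fun i => yv a e z x i + ε) := by
  have h1 : ∀ᵐ x ∂(mu D), x.1 ∈ Ioo (0 : ℝ) 1 := by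
    unfold mu
    have h2 : ∀ᵐ t ∂((volume : Measure ℝ).restrict (Ioo (0 : ℝ) 1)), t ∈ Ioo (0 : ℝ) 1 :=
      ae_restrict_mem measurableSet_Ioo
    exact Measure.quasiMeasurePreserving_fst.ae h2
  filter_upwards [h1] with x hx
  refine mul_nonneg (pc_om_nonneg a _) (hG _ (fun i => add_nonneg ?_ hε))
  have h3 := yv_eq ha hrel hx x.2.1 x.2.2 i
  have h4 : yv a e z x i = yv a e z (x.1, (x.2.1, x.2.2)) i := rfl
  rw [h4, h3]
  refine add_nonneg (Finset.sum_nonneg (fun k _ => ?_)) (sq_nonneg _)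
  exact mul_nonneg (ll_pos ha hx k).le (sq_nonneg _)

theorem triple_shift {a e : Fin D → ℝ} (ha : Pencil a) {z : ι → Fin D → ℝ}
    (hrel : ∀ i, ∑ k, (2 * a k - 1) * z i k ^ 2 = ∑ k, e k * z i k) (T : Finset (ι → ℕ))
    (C : (ι → ℕ) → ℝ) (hT : ∀ k ∈ T, k ≠ 0)
    (hG : ∀ y : ι → ℝ, (∀ i, 0 ≤ y i) → 0 ≤ ∑ k ∈ T, C k * ee k y) {ε : ℝ} (hε : 0 ≤ ε) :
    ∫ x, om a x.1 * ∑ k ∈ T, C k * ee k (fun i => yv a e z x i + ε) ∂(mu D) ≤
      ∫ x, om a x.1 * ∑ k ∈ T, C k * ee k (yv a e z x) ∂(mu D) := by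
  have h0 : ∀ x, ∑ k ∈ T, C k * ee k (yv a e z x) =
      ∑ k ∈ T, C k * ee k (fun i => yv a e z x i + 0) := by
    intro x
    simp only [add_zero]
  simp only [h0]
  have i1 := pc_integrable ha hrel T C hT ε
  have i0 := pc_integrable ha hrel T C hT 0
  have n1 := pc_nonneg ha hrel T C hG hε
  have n0 := pc_nonneg ha hrel T C hG le_rfl
  rw [integral_eq_lintegral_of_nonneg_ae n1 i1.aestronglyMeasurable,
    integral_eq_lintegral_of_nonneg_ae n0 i0.aestronglyMeasurable]
  refine ENNReal.toReal_mono ?_ ?_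
  · have := i0.lintegral_lt_top
    exact this.ne
  · rw [pc_lint, pc_lint]
    refine lintegral_mono_ae ?_
    filter_upwards [ae_generic ha e] with w hw
    have hg : Measurable (fun h : ℝ => ENNReal.ofReal (∑ k ∈ T, C k * ee k
        (fun i => h + LL a z w i))) := by
      have h3 : Measurable (fun h : ℝ => fun i : ι => h + LL a z w i) := by
        refine measurable_pi_lambda _ (fun i => ?_)
        fun_prop
      exact ((pc_meas_G T C).comp h3).ennreal_ofReal
    have := shift_le ha hw hg hε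
    simp only [add_zero]
    exact this

theorem pos_of_coord {d : ℕ} (hD : D = d + 3) {a e : Fin D → ℝ} (ha : Pencil a)
    {z : ι → Fin D → ℝ} (hrel : ∀ i, ∑ k, (2 * a k - 1) * z i k ^ 2 = ∑ k, e k * z i k) :
    Pos d (fun i j => ∑ k, a k * (z i k - z j k) ^ 2)
      (fun i j => ∑ k, (1 - a k) * (z i k - z j k) ^ 2) := by
  intro T C hT hG
  set I : (ι → ℕ) → ℝ := fun k => ∫ t in (0 : ℝ)..1,
    Real.exp (-((t * quad k (fun i j => ∑ m, a m * (z i m - z j m) ^ 2) +
          (1 - t) * quad k (fun i j => ∑ m, (1 - a m) * (z i m - z j m) ^ 2)) / tot k)) with hI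
  set J : (ι → ℕ) → ℝ := fun k => ∫ x, om a x.1 * ee k (yv a e z x) ∂(mu D) with hJ
  have hJ1 : ∀ k ∈ T, J k = 2 ^ D * (Real.pi / tot k) ^ (((D : ℝ) + 1) / 2) * I k :=
    fun k hk => integral_triple ha hrel (hT k hk)
  have key : ∀ ε : ℝ, ∫ x, om a x.1 * ∑ k ∈ T, C k * ee k (fun i => yv a e z x i + ε) ∂(mu D) =
      ∑ k ∈ T, C k * Real.exp (-(tot k * ε)) * J k := by
    intro ε
    have h1 : ∀ x : ℝ × ((Fin D → ℝ) × ℝ),
        om a x.1 * ∑ k ∈ T, C k * ee k (fun i => yv a e z x i + ε) =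
        ∑ k ∈ T, (C k * Real.exp (-(tot k * ε))) * (om a x.1 * ee k (yv a e z x)) := by
      intro x
      simp only [pc_ee_shift, Finset.mul_sum]
      refine Finset.sum_congr rfl (fun k _ => ?_)
      have : ee k (yv a e z x) = ee k (fun i => yv a e z x i) := rfl
      rw [this]
      ring
    simp only [h1]
    rw [integral_finsetSum T
      (fun k hk => (integrable_triple ha hrel (hT k hk)).const_mul _)]
    refine Finset.sum_congr rfl (fun k _ => ?_)
    rw [integral_const_mul]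
  have hf : ∀ ε : ℝ, 0 ≤ ε → 0 ≤ ∑ k ∈ T, C k * (1 - Real.exp (-(tot k * ε))) * J k := by
    intro ε hε
    have h1 := triple_shift ha hrel T C hT hG hε
    have h2 := key 0
    simp only [add_zero, mul_zero, neg_zero, Real.exp_zero, mul_one] at h2
    have h3 : ∫ x, om a x.1 * ∑ k ∈ T, C k * ee k (yv a e z x) ∂(mu D) = ∑ k ∈ T, C k * J k := h2
    rw [key ε, h3] at h1
    have h4 : ∑ k ∈ T, C k * (1 - Real.exp (-(tot k * ε))) * J k =
        ∑ k ∈ T, C k * J k - ∑ k ∈ T, C k * Real.exp (-(tot k * ε)) * J k := by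
      rw [← Finset.sum_sub_distrib]
      refine Finset.sum_congr rfl (fun k _ => ?_)
      ring
    rw [h4]
    linarith
  have hder : HasDerivAt (fun ε : ℝ => ∑ k ∈ T, C k * (1 - Real.exp (-(tot k * ε))) * J k)
      (∑ k ∈ T, C k * tot k * J k) 0 := by
    have h1 : ∀ k ∈ T, HasDerivAt (fun ε : ℝ => C k * (1 - Real.exp (-(tot k * ε))) * J k)
        (C k * tot k * J k) 0 := by
      intro k _
      have h2 : HasDerivAt (fun ε : ℝ => -(tot k * ε)) (-(tot k * 1)) 0 :=
        ((hasDerivAt_id (0 : ℝ)).const_mul (tot k)).neg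
      have h3 := (((h2.exp).const_sub 1).const_mul (C k)).mul_const (J k)
      have h4 : C k * -(Real.exp (-(tot k * 0)) * -(tot k * 1)) * J k = C k * tot k * J k := by
        rw [mul_zero, neg_zero, Real.exp_zero]
        ring
      rw [← h4]
      exact h3
    have h5 := HasDerivAt.fun_sum h1
    exact h5
  have hlim := hder.tendsto_slope_zero_right
  have hpos : 0 ≤ ∑ k ∈ T, C k * tot k * J k := by
    refine ge_of_tendsto hlim ?_
    filter_upwards [self_mem_nhdsWithin] with t ht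
    have ht' : (0 : ℝ) < t := ht
    have h1 := hf t ht'.le
    have h2 : ∑ k ∈ T, C k * (1 - Real.exp (-(tot k * 0))) * J k = 0 := by simp
    show 0 ≤ t⁻¹ • ((∑ k ∈ T, C k * (1 - Real.exp (-(tot k * (0 + t)))) * J k) -
      ∑ k ∈ T, C k * (1 - Real.exp (-(tot k * 0))) * J k)
    rw [h2, sub_zero, zero_add, smul_eq_mul]
    exact mul_nonneg (inv_nonneg.mpr ht'.le) h1
  have hc : (0 : ℝ) < 2 ^ D * Real.pi ^ ((d : ℝ) / 2 + 2) := by
    have := Real.pi_pos
    positivity
  have hfin : ∑ k ∈ T, C k * tot k * J k =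
      (2 ^ D * Real.pi ^ ((d : ℝ) / 2 + 2)) *
        ∑ k ∈ T, C k * (tot k ^ (-((d : ℝ) / 2 + 1)) * I k) := by
    rw [Finset.mul_sum]
    refine Finset.sum_congr rfl (fun k hk => ?_)
    have hK := tot_pos (hT k hk)
    rw [hJ1 k hk]
    have hexp : ((D : ℝ) + 1) / 2 = (d : ℝ) / 2 + 2 := by
      rw [hD]; push_cast; ring
    rw [hexp, Real.div_rpow Real.pi_pos.le hK.le]
    have h1 : tot k ^ (-((d : ℝ) / 2 + 1)) = tot k / tot k ^ ((d : ℝ) / 2 + 2) := by
      have h2 : (-((d : ℝ) / 2 + 1)) = 1 - ((d : ℝ) / 2 + 2) := by ring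
      rw [h2, Real.rpow_sub hK, Real.rpow_one]
    rw [h1]
    field_simp
  rw [hfin] at hpos
  exact nonneg_of_mul_nonneg_right hpos hc

end Pool.Agent.KneserRank
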