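import Pool.Agent.KneserRank.Defs

/-!
# Linear algebra: the rank condition

PROOF of `rank_split`. Let `S` be the span of the vectors `(1, p i, q i, ‖p i‖ ^ 2 - ‖q i‖ ^ 2)`,
`finrank S ≤ finrank E + 4`, and `π : S → ℝ × E × E` the map forgetting the last coordinate.
The image of `π` is the span of the `(1, p i, q i)`, its dimension is `finrank W + 1` where `W` is the
span of the `(p i - p i₀, q i - q i₀)` (it is the direct sum of the line through `(1, p i₀, q i₀)` and
`{0} × W`). If `π` is not injective then `finrank W + 1 ≤ finrank S - 1`, i.e.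
`finrank W ≤ finrank E + 2`. If `π` is injective, then `finrank W ≤ finrank E + 3` and the last
coordinate is a linear function of the first three on `S`; extend it to a linear functional of
`ℝ × E × E`, which has the form `c * x + lam y + mu z`.
-/

set_option autoImplicit false
set_option linter.unusedSectionVars false

namespace Pool.Agent.KneserRank

open Set Module
open scoped InnerProductSpace

variable {E : Type*} [NormedAddCommGroup E] [InnerProductSpace ℝ E] [FiniteDimensional ℝ E]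
variable {n : ℕ}

theorem rank_split (p q : Fin n → E) (i₀ : Fin n)
    (h : finrank ℝ (Submodule.span ℝ (Set.range fun i : Fin n =>
      ((1 : ℝ), p i, q i, ‖p i‖ ^ 2 - ‖q i‖ ^ 2))) ≤ finrank ℝ E + 4) :
    finrank ℝ (Submodule.span ℝ (Set.range fun i : Fin n =>
        (WithLp.toLp 2 (p i - p i₀, q i - q i₀) : WithLp 2 (E × E)))) ≤ finrank ℝ E + 2 ∨
      (finrank ℝ (Submodule.span ℝ (Set.range fun i : Fin n =>
        (WithLp.toLp 2 (p i - p i₀, q i - q i₀) : WithLp 2 (E × E)))) = finrank ℝ E + 3 ∧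
        ∃ (lam mu : E →ₗ[ℝ] ℝ) (c : ℝ), ∀ i,
          ‖p i‖ ^ 2 - ‖q i‖ ^ 2 = lam (p i) + mu (q i) + c) := by
  classical
  set S := Submodule.span ℝ (Set.range fun i : Fin n =>
      ((1 : ℝ), p i, q i, ‖p i‖ ^ 2 - ‖q i‖ ^ 2)) with hS
  set S' := Submodule.span ℝ (Set.range fun i : Fin n => ((1 : ℝ), p i, q i)) with hS'
  set W := Submodule.span ℝ (Set.range fun i : Fin n =>
        (WithLp.toLp 2 (p i - p i₀, q i - q i₀) : WithLp 2 (E × E))) with hW
  -- the projection
  let π : (ℝ × E × E × ℝ) →ₗ[ℝ] (ℝ × E × E) :=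
    (LinearMap.fst ℝ ℝ (E × E × ℝ)).prod
      (((LinearMap.fst ℝ E (E × ℝ)).comp (LinearMap.snd ℝ ℝ (E × E × ℝ))).prod
        (((LinearMap.fst ℝ E ℝ).comp (LinearMap.snd ℝ E (E × ℝ))).comp
          (LinearMap.snd ℝ ℝ (E × E × ℝ))))
  have hπ : ∀ i, π ((1 : ℝ), p i, q i, ‖p i‖ ^ 2 - ‖q i‖ ^ 2) = ((1 : ℝ), p i, q i) := by
    intro i; rfl
  have hmap : S.map π = S' := by
    rw [hS, hS', Submodule.map_span, ← Set.range_comp]
    rfl
  -- the embedding of W
  let ψ : WithLp 2 (E × E) →ₗ[ℝ] (ℝ × E × E) :=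
    (LinearMap.inr ℝ ℝ (E × E)).comp (WithLp.linearEquiv 2 ℝ (E × E)).toLinearMap
  have hψ : ∀ u v : E, ψ (WithLp.toLp 2 (u, v)) = ((0 : ℝ), u, v) := fun u v => rfl
  have hψi : Function.Injective ψ := by
    intro x y hxy
    have h1 := LinearMap.inr_injective (R := ℝ) (M := ℝ) (M₂ := E × E) hxy
    exact (WithLp.linearEquiv 2 ℝ (E × E)).injective h1
  have hWS : W.map ψ < S' := by
    refine lt_of_le_of_ne ?_ ?_
    · rw [hW, Submodule.map_span, Submodule.span_le]
      rintro _ ⟨_, ⟨i, rfl⟩, rfl⟩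
      have e1 : ψ (WithLp.toLp 2 (p i - p i₀, q i - q i₀)) =
          ((1 : ℝ), p i, q i) - ((1 : ℝ), p i₀, q i₀) := by
        rw [hψ]; simp
      change ψ (WithLp.toLp 2 (p i - p i₀, q i - q i₀)) ∈ S'
      rw [e1]
      exact S'.sub_mem (Submodule.subset_span ⟨i, rfl⟩) (Submodule.subset_span ⟨i₀, rfl⟩)
    · intro heq
      have h1 : ((1 : ℝ), p i₀, q i₀) ∈ S' := Submodule.subset_span ⟨i₀, rfl⟩
      rw [← heq] at h1
      obtain ⟨x, _, hx⟩ := h1
      have h2 : (ψ x).1 = 0 := rfl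
      rw [hx] at h2
      exact one_ne_zero h2
  have hlt : finrank ℝ W < finrank ℝ S' := by
    have h1 := Submodule.finrank_lt_finrank_of_lt hWS
    rwa [← LinearEquiv.finrank_eq (Submodule.equivMapOfInjective ψ hψi W)] at h1
  have hle : finrank ℝ S' ≤ finrank ℝ S := by
    rw [← hmap]; exact Submodule.finrank_map_le π S
  by_cases hc : finrank ℝ W ≤ finrank ℝ E + 2
  · exact Or.inl hc
  · right
    have hWd : finrank ℝ W = finrank ℝ E + 3 := by omega
    have heq : finrank ℝ S' = finrank ℝ S := by omega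
    refine ⟨hWd, ?_⟩
    have hmem : ∀ x : S, π x ∈ S' := by
      intro x
      rw [← hmap]
      exact Submodule.mem_map_of_mem x.2
    let g : S →ₗ[ℝ] S' := (π.comp S.subtype).codRestrict S' hmem
    have hgs : Function.Surjective g := by
      rintro ⟨y, hy⟩
      have hy' := hy
      rw [← hmap] at hy'
      obtain ⟨x, hx, hxy⟩ := hy'
      exact ⟨⟨x, hx⟩, Subtype.ext hxy⟩
    have hgi : Function.Injective g :=
      (LinearMap.injective_iff_surjective_of_finrank_eq_finrank heq.symm).mpr hgs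
    let eq := LinearEquiv.ofBijective g ⟨hgi, hgs⟩
    let last : (ℝ × E × E × ℝ) →ₗ[ℝ] ℝ :=
      ((LinearMap.snd ℝ E ℝ).comp (LinearMap.snd ℝ E (E × ℝ))).comp
        (LinearMap.snd ℝ ℝ (E × E × ℝ))
    obtain ⟨F, hF⟩ := LinearMap.exists_extend
      ((last.comp S.subtype).comp eq.symm.toLinearMap)
    have hFi : ∀ i, F ((1 : ℝ), p i, q i) = ‖p i‖ ^ 2 - ‖q i‖ ^ 2 := by
      intro i
      have hi : ((1 : ℝ), p i, q i, ‖p i‖ ^ 2 - ‖q i‖ ^ 2) ∈ S := Submodule.subset_span ⟨i, rfl⟩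
      have hi' : ((1 : ℝ), p i, q i) ∈ S' := Submodule.subset_span ⟨i, rfl⟩
      have h1 : eq ⟨_, hi⟩ = ⟨_, hi'⟩ := Subtype.ext rfl
      have h2 : eq.symm ⟨_, hi'⟩ = ⟨_, hi⟩ := by
        rw [← h1, LinearEquiv.symm_apply_apply]
      have h3 := LinearMap.congr_fun hF ⟨_, hi'⟩
      have h4 : F ((1 : ℝ), p i, q i) = last (eq.symm ⟨_, hi'⟩ : S) := h3
      rw [h4, h2]
      rfl
    refine ⟨F.comp ((LinearMap.inr ℝ ℝ (E × E)).comp (LinearMap.inl ℝ E E)),
      F.comp ((LinearMap.inr ℝ ℝ (E × E)).comp (LinearMap.inr ℝ E E)), F (1, 0, 0), ?_⟩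
    intro i
    rw [← hFi i]
    change _ = F (0, p i, 0) + F (0, 0, q i) + F (1, 0, 0)
    rw [← map_add, ← map_add]
    simp

end Pool.Agent.KneserRank
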