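import Pool.Agent.KneserRank.Weighted
import Pool.Agent.KneserRank.Path
import Pool.Agent.KneserRank.Coord
import Pool.Agent.KneserRank.Split
import Pool.Agent.KneserRank.PosCoord

/-!
# The rank theorem
-/

set_option autoImplicit false
set_option linter.unusedSectionVars false

namespace Pool.Agent.KneserRank

open MeasureTheory Set Filter Topology Module
open Pool.Agent.Kneser

variable {E : Type*} [NormedAddCommGroup E] [InnerProductSpace ℝ E] [FiniteDimensional ℝ E]
variable {n : ℕ}

/-- The rank condition implies the positivity property. -/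
theorem pos_of_rank (p q : Fin n → E)
    (h : finrank ℝ (Submodule.span ℝ (Set.range fun i : Fin n =>
      ((1 : ℝ), p i, q i, ‖p i‖ ^ 2 - ‖q i‖ ^ 2))) ≤ finrank ℝ E + 4) :
    Pos (finrank ℝ E) (fun i j => ‖p i - p j‖ ^ 2) (fun i j => ‖q i - q j‖ ^ 2) := by
  rcases Nat.eq_zero_or_pos n with hn | hn
  · subst hn
    intro T C hT _
    have : T = ∅ := by
      refine Finset.eq_empty_of_forall_notMem fun k hk => hT k hk ?_
      exact Subsingleton.elim _ _
    rw [this, Finset.sum_empty]
  · set i₀ : Fin n := ⟨0, hn⟩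
    rcases rank_split p q i₀ h with h1 | ⟨h1, hrel⟩
    · exact pos_of_conf _ _ (exists_conf p q i₀ _ h1
        fun i => Submodule.subset_span ⟨i, rfl⟩)
    · obtain ⟨a, e, z, ha0, ha1, hz, ho, hp, hq, hr⟩ := exists_coord p q i₀ _ h1
        (fun i => Submodule.subset_span ⟨i, rfl⟩) hrel
      have hP : Pencil a := ⟨ha0, ha1, by omega, by omega⟩
      have h2 := pos_of_coord rfl hP hr
      have e1 : (fun i j => ‖p i - p j‖ ^ 2) = fun i j => ∑ k, a k * (z i k - z j k) ^ 2 := by
        funext i j; exact hp i j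
      have e2 : (fun i j => ‖q i - q j‖ ^ 2) =
          fun i j => ∑ k, (1 - a k) * (z i k - z j k) ^ 2 := by
        funext i j; exact hq i j
      rw [e1, e2]
      exact h2

variable [MeasurableSpace E] [BorelSpace E]

/-- The rank theorem. -/
theorem weighted_of_rank (p q : Fin n → E) (ρ τ : Fin n → ℝ)
    (hr : finrank ℝ (Submodule.span ℝ (Set.range fun i : Fin n =>
      ((1 : ℝ), p i, q i, ‖p i‖ ^ 2 - ‖q i‖ ^ 2))) ≤ finrank ℝ E + 4)
    (h : ∀ i j, dist (q i) (q j) ≤ dist (p i) (p j)) (hρ : ∀ i, 0 ≤ ρ i) (hτ : Antitone τ) :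
    ∑ k : Fin n, τ k * (volume {x : E | k.val + 1 ≤ num q ρ x}).toReal ≤
      ∑ k : Fin n, τ k * (volume {x : E | k.val + 1 ≤ num p ρ x}).toReal :=
  weighted_of_pos p q ρ τ h hρ hτ (pos_of_rank p q hr)

theorem rank_of_card (p q : Fin n → E) (hn : n ≤ finrank ℝ E + 4) :
    finrank ℝ (Submodule.span ℝ (Set.range fun i : Fin n =>
      ((1 : ℝ), p i, q i, ‖p i‖ ^ 2 - ‖q i‖ ^ 2))) ≤ finrank ℝ E + 4 := by
  refine (finrank_range_le_card (R := ℝ) fun i : Fin n =>
    ((1 : ℝ), p i, q i, ‖p i‖ ^ 2 - ‖q i‖ ^ 2)).trans ?_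
  simpa using hn

/-- Unions. -/
theorem union_of_rank (p q : Fin n → E) (ρ : Fin n → ℝ)
    (hr : finrank ℝ (Submodule.span ℝ (Set.range fun i : Fin n =>
      ((1 : ℝ), p i, q i, ‖p i‖ ^ 2 - ‖q i‖ ^ 2))) ≤ finrank ℝ E + 4)
    (h : ∀ i j, dist (q i) (q j) ≤ dist (p i) (p j)) (hρ : ∀ i, 0 ≤ ρ i) :
    volume (⋃ i, Metric.closedBall (q i) (ρ i)) ≤
      volume (⋃ i, Metric.closedBall (p i) (ρ i)) := by
  rcases Nat.eq_zero_or_pos n with hn | hn
  · subst hn
    simp
  · have hset : ∀ r : Fin n → E, {x : E | 0 + 1 ≤ num r ρ x} =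
        ⋃ i, Metric.closedBall (r i) (ρ i) := by
      intro r
      ext x
      simp only [zero_add, mem_iUnion, Metric.mem_closedBall]
      change 1 ≤ num r ρ x ↔ _
      unfold num
      rw [Nat.one_le_iff_ne_zero, Finset.card_ne_zero]
      constructor
      · rintro ⟨i, hi⟩
        exact ⟨i, (Finset.mem_filter.mp hi).2⟩
      · rintro ⟨i, hi⟩
        exact ⟨i, Finset.mem_filter.mpr ⟨Finset.mem_univ i, hi⟩⟩
    have h1 := weighted_of_rank p q ρ (fun k => if k.val = 0 then 1 else 0) hr h hρ (by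
      intro a b hab
      have hab' : a.val ≤ b.val := hab
      by_cases hb : b.val = 0
      · have ha : a.val = 0 := by omega
        simp [ha, hb]
      · by_cases ha : a.val = 0
        · simp [ha, hb]
        · simp [ha, hb])
    have h2 : ∀ r : Fin n → E, ∑ k : Fin n, (if k.val = 0 then (1 : ℝ) else 0) *
        (volume {x : E | k.val + 1 ≤ num r ρ x}).toReal =
        (volume (⋃ i, Metric.closedBall (r i) (ρ i))).toReal := by
      intro r
      rw [Finset.sum_eq_single (⟨0, hn⟩ : Fin n)]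
      · simp only [if_true, one_mul, hset]
      · intro k _ hk
        have : k.val ≠ 0 := fun h0 => hk (Fin.ext h0)
        simp [this]
      · intro h0
        exact absurd (Finset.mem_univ _) h0
    rw [h2, h2] at h1
    have hfin : ∀ r : Fin n → E, volume (⋃ i, Metric.closedBall (r i) (ρ i)) ≠ ⊤ := by
      intro r
      rw [← hset]
      exact (finite_lev r ρ 0).ne
    exact (ENNReal.toReal_le_toReal (hfin q) (hfin p)).mp h1

/-- Intersections. -/
theorem inter_of_rank (hn : 0 < n) (p q : Fin n → E) (ρ : Fin n → ℝ)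
    (hr : finrank ℝ (Submodule.span ℝ (Set.range fun i : Fin n =>
      ((1 : ℝ), p i, q i, ‖p i‖ ^ 2 - ‖q i‖ ^ 2))) ≤ finrank ℝ E + 4)
    (h : ∀ i j, dist (q i) (q j) ≤ dist (p i) (p j)) (hρ : ∀ i, 0 ≤ ρ i) :
    volume (⋂ i, Metric.closedBall (p i) (ρ i)) ≤
      volume (⋂ i, Metric.closedBall (q i) (ρ i)) := by
  have hset : ∀ r : Fin n → E, {x : E | n - 1 + 1 ≤ num r ρ x} =
      ⋂ i, Metric.closedBall (r i) (ρ i) := by
    intro r
    ext x
    simp only [mem_iInter, Metric.mem_closedBall]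
    change n - 1 + 1 ≤ num r ρ x ↔ _
    rw [Nat.sub_add_cancel hn]
    constructor
    · intro h1 i
      have h2 : Finset.univ.filter (fun i => dist x (r i) ≤ ρ i) = Finset.univ := by
        refine Finset.eq_univ_of_card _ (le_antisymm ?_ ?_)
        · exact Finset.card_le_univ _
        · simpa [num] using h1
      have h3 : i ∈ Finset.univ.filter (fun i => dist x (r i) ≤ ρ i) := by
        rw [h2]; exact Finset.mem_univ i
      exact (Finset.mem_filter.mp h3).2
    · intro h1
      unfold num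
      rw [Finset.filter_true_of_mem fun i _ => h1 i]
      simp
  have h1 := weighted_of_rank p q ρ (fun k => if k.val = n - 1 then -1 else 0) hr h hρ (by
    intro a b hab
    have hab' : a.val ≤ b.val := hab
    have hb' := b.isLt
    have ha' := a.isLt
    by_cases ha : a.val = n - 1
    · have hb : b.val = n - 1 := by omega
      simp [ha, hb]
    · by_cases hb : b.val = n - 1
      · simp [ha, hb]
      · simp [ha, hb])
  have h2 : ∀ r : Fin n → E, ∑ k : Fin n, (if k.val = n - 1 then (-1 : ℝ) else 0) *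
      (volume {x : E | k.val + 1 ≤ num r ρ x}).toReal =
      -(volume (⋂ i, Metric.closedBall (r i) (ρ i))).toReal := by
    intro r
    rw [Finset.sum_eq_single (⟨n - 1, by omega⟩ : Fin n)]
    · simp only [if_true, hset]
      ring
    · intro k _ hk
      have : k.val ≠ n - 1 := fun h0 => hk (Fin.ext h0)
      simp [this]
    · intro h0
      exact absurd (Finset.mem_univ _) h0
  rw [h2, h2, neg_le_neg_iff] at h1
  have hfin : ∀ r : Fin n → E, volume (⋂ i, Metric.closedBall (r i) (ρ i)) ≠ ⊤ := by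
    intro r
    rw [← hset]
    exact (finite_lev r ρ (n - 1)).ne
  exact (ENNReal.toReal_le_toReal (hfin p) (hfin q)).mp h1

end Pool.Agent.KneserRank
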