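import Pool.Agent.KneserRank.Defs

/-!
# Gaussian integrals of configurations

PROOF of `integral_ee`. With K = tot k > 0 and m = (∑ i, k i • p i) / K one has
`∑ i, k i * ‖x - p i‖ ^ 2 = K * ‖x - m‖ ^ 2 + quad k (fun i j => ‖p i - p j‖ ^ 2) / K`
(expand both sides; `∑ i j, k i k j ‖p i - p j‖ ^ 2 = 2 K ∑ k i ‖p i‖ ^ 2 - 2 ‖∑ k i p i‖ ^ 2`).
Then translate by m and use `GaussianFourier.integral_rexp_neg_mul_sq_norm` (and the corresponding
integrability statement).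
PROOF of `exp_sub_exp`. The derivative of `t ↦ exp (-(t * A + (1 - t) * B))` is
`-(A - B) * exp (-(t * A + (1 - t) * B))`; integrate from 0 to 1.
-/

set_option autoImplicit false
set_option linter.unusedSectionVars false

namespace Pool.Agent.KneserRank

open MeasureTheory Set Filter Topology

variable {ι : Type*} [Fintype ι]

variable {X : Type*} [NormedAddCommGroup X] [InnerProductSpace ℝ X] [FiniteDimensional ℝ X]
  [MeasurableSpace X] [BorelSpace X]

private theorem gauss_quad (k : ι → ℕ) (p : ι → X) :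
    quad k (fun i j => ‖p i - p j‖ ^ 2) =
      tot k * (∑ i, (k i : ℝ) * ‖p i‖ ^ 2) - ‖∑ i, (k i : ℝ) • p i‖ ^ 2 := by
  have h1 : ‖∑ i, (k i : ℝ) • p i‖ ^ 2 =
      ∑ i, ∑ j, (k i : ℝ) * (k j : ℝ) * inner ℝ (p i) (p j) := by
    rw [← real_inner_self_eq_norm_sq, sum_inner]
    refine Finset.sum_congr rfl fun i _ => ?_
    rw [inner_sum]
    refine Finset.sum_congr rfl fun j _ => ?_
    rw [real_inner_smul_left, real_inner_smul_right]
    ring
  have h2 : ∑ i, ∑ j, (k i : ℝ) * (k j : ℝ) * ‖p i - p j‖ ^ 2 =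
      ∑ i, ∑ j, (k i : ℝ) * (k j : ℝ) * ‖p i‖ ^ 2 +
        ∑ i, ∑ j, (k i : ℝ) * (k j : ℝ) * ‖p j‖ ^ 2 -
        2 * ∑ i, ∑ j, (k i : ℝ) * (k j : ℝ) * inner ℝ (p i) (p j) := by
    rw [Finset.mul_sum, ← Finset.sum_add_distrib, ← Finset.sum_sub_distrib]
    refine Finset.sum_congr rfl fun i _ => ?_
    rw [Finset.mul_sum, ← Finset.sum_add_distrib, ← Finset.sum_sub_distrib]
    refine Finset.sum_congr rfl fun j _ => ?_
    rw [norm_sub_sq_real]
    ring
  have h3 : ∑ i, ∑ j, (k i : ℝ) * (k j : ℝ) * ‖p j‖ ^ 2 =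
      tot k * ∑ j, (k j : ℝ) * ‖p j‖ ^ 2 := by
    unfold tot
    rw [Finset.sum_mul_sum]
    refine Finset.sum_congr rfl fun i _ => Finset.sum_congr rfl fun j _ => ?_
    ring
  have h4 : ∑ i, ∑ j, (k i : ℝ) * (k j : ℝ) * ‖p i‖ ^ 2 =
      tot k * ∑ j, (k j : ℝ) * ‖p j‖ ^ 2 := by
    rw [Finset.sum_comm, ← h3]
    refine Finset.sum_congr rfl fun i _ => Finset.sum_congr rfl fun j _ => ?_
    ring
  unfold quad
  rw [h2, h3, h4, h1]
  ring

private theorem gauss_sum {k : ι → ℕ} (hk : k ≠ 0) (p : ι → X) (x : X) :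
    ∑ i, (k i : ℝ) * ‖x - p i‖ ^ 2 =
      tot k * ‖x - (tot k)⁻¹ • ∑ i, (k i : ℝ) • p i‖ ^ 2 +
        quad k (fun i j => ‖p i - p j‖ ^ 2) / tot k := by
  have hK := tot_pos hk
  have h1 : ∑ i, (k i : ℝ) * ‖x - p i‖ ^ 2 =
      tot k * ‖x‖ ^ 2 - 2 * inner ℝ x (∑ i, (k i : ℝ) • p i) +
        ∑ i, (k i : ℝ) * ‖p i‖ ^ 2 := by
    unfold tot
    rw [inner_sum, Finset.mul_sum, Finset.sum_mul, ← Finset.sum_sub_distrib,
      ← Finset.sum_add_distrib]
    refine Finset.sum_congr rfl fun i _ => ?_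
    rw [norm_sub_sq_real, real_inner_smul_right]
    ring
  rw [h1, gauss_quad, norm_sub_sq_real, real_inner_smul_right, norm_smul, mul_pow,
    Real.norm_eq_abs, sq_abs]
  field_simp
  ring

private theorem gauss_ee {k : ι → ℕ} (hk : k ≠ 0) (p : ι → X) (x : X) :
    ee k (fun i => ‖x - p i‖ ^ 2) =
      Real.exp (-tot k * ‖x - (tot k)⁻¹ • ∑ i, (k i : ℝ) • p i‖ ^ 2) *
        Real.exp (-(quad k (fun i j => ‖p i - p j‖ ^ 2) / tot k)) := by
  unfold ee
  rw [gauss_sum hk, ← Real.exp_add]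
  congr 1
  ring

theorem integral_ee {k : ι → ℕ} (hk : k ≠ 0) (p : ι → X) :
    ∫ x, ee k (fun i => ‖x - p i‖ ^ 2) =
      (Real.pi / tot k) ^ ((Module.finrank ℝ X : ℝ) / 2) *
        Real.exp (-(quad k (fun i j => ‖p i - p j‖ ^ 2) / tot k)) := by
  simp_rw [gauss_ee hk]
  rw [integral_mul_const,
    integral_sub_right_eq_self (fun x : X => Real.exp (-tot k * ‖x‖ ^ 2)),
    GaussianFourier.integral_rexp_neg_mul_sq_norm (tot_pos hk)]

theorem integrable_ee {k : ι → ℕ} (hk : k ≠ 0) (p : ι → X) :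
    Integrable (fun x => ee k (fun i => ‖x - p i‖ ^ 2)) := by
  by_contra h
  have h1 := integral_ee hk p
  rw [integral_undef h] at h1
  have h2 : 0 < (Real.pi / tot k) ^ ((Module.finrank ℝ X : ℝ) / 2) *
      Real.exp (-(quad k (fun i j => ‖p i - p j‖ ^ 2) / tot k)) :=
    mul_pos (Real.rpow_pos_of_pos (div_pos Real.pi_pos (tot_pos hk)) _) (Real.exp_pos _)
  exact h2.ne h1

theorem exp_sub_exp (A B : ℝ) : Real.exp (-A) - Real.exp (-B) =
    -(A - B) * ∫ t in (0 : ℝ)..1, Real.exp (-(t * A + (1 - t) * B)) := by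
  rw [← intervalIntegral.integral_const_mul]
  have h : ∀ t ∈ uIcc (0 : ℝ) 1, HasDerivAt (fun t : ℝ => Real.exp (-(t * A + (1 - t) * B)))
      (-(A - B) * Real.exp (-(t * A + (1 - t) * B))) t := by
    intro t _
    have h1 : HasDerivAt (fun t : ℝ => -(t * A + (1 - t) * B)) (-(A - B)) t := by
      have h2 := (((hasDerivAt_id t).mul_const A).add
        (((hasDerivAt_id t).const_sub 1).mul_const B)).neg
      refine h2.congr_deriv ?_
      ring
    refine h1.exp.congr_deriv ?_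
    ring
  rw [intervalIntegral.integral_eq_sub_of_hasDerivAt h]
  · norm_num
  · refine Continuous.intervalIntegrable ?_ _ _
    fun_prop

end Pool.Agent.KneserRank
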