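import Pool.Agent.KneserRank.Smooth
import Pool.Agent.KneserRank.Convex

/-!
# The sign of the derivative

Notation: `l = (x₂ - x₁) / 2`, `c = (x₁ + x₂) / 2`, `t = c + l cos θ`, `τ = t - c = l cos θ`,
`q = (t - x₁) (x₂ - t) = l² - τ² = l² sin² θ`, `v = (y₁ + y₂)/2 + (y₂ - y₁)/2 cos θ = v₀ + v₁ τ` with
`v₀ = (y₁ + y₂)/2`, `v₁ = (y₂ - y₁)/(2 l)`, and `K = kk x₁ x₂`, `W = WW x₁ x₂`, `Kh = kkh ..`.
PROOF. (1) `hrel` at `t = x₁` and `t = x₂`: `y₁ K(x₁) = -1/(2l)`, `y₂ K(x₂) = 1/(2l)`.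
(2) With `S j t = ∑ k, DD k ^ 2 (2 a k - 1) / (4 l k x₁ l k x₂ l k (x j) l k t)` one has
`K(t) - K(x j) = -(t - x j) S j t`. Put `E t = (y₂ S₂ t - y₁ S₁ t) / (2 l)`. Then
`q E = K v - τ / (2 l²)` (because `v = (y₁ (x₂ - t) + y₂ (t - x₁)) / (2 l)`; use (1)). `E` is smooth.
(3) For `θ ∈ (0, π)`: `d/dθ (-l W(t) E(t) sin θ) = q (W E)'(t) - τ W E
   = (W' K + W K') v - W Kh / 2 - W' τ / (2 l²) = thd θ - W'(t) cos θ / (2 l)`.
Indeed the terms with `W'` agree by (2). For the terms with `W` one needs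
`q E' - τ E = K' v - Kh / 2`; differentiating (2) gives `q E' - 2 τ E = K' v + K v₁ - 1/(2l²)`, so it is
enough that `K v₁ - 1/(2l²) + τ E = -Kh/2`; multiply by `q > 0` and use (2) and `hrel`, i.e.
`B K + q Kh = 1` with `B = -y₁ (x₂ - t) + y₂ (t - x₁) = 2 v₀ τ + 2 v₁ l²`, and `q v₁ + τ v = B / 2`,
`q + τ² = l²`.
(4) By `intervalIntegral.integral_eq_sub_of_hasDerivAt_of_le` (derivative on the open interval,
continuity on `[0, π]`, `sin 0 = sin π = 0`),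
`∫ θ in 0..π, thd θ = (1/(2l)) ∫ θ in 0..π, W'(c + l cos θ) cos θ`, and by `θ ↦ π - θ` twice the last
integral is `∫ (W'(c + l cos θ) - W'(c - l cos θ)) cos θ ≥ 0`, as `W'` is nondecreasing
(`convexOn_WW`, `hasDerivAt_WW`, `ConvexOn.monotoneOn_deriv`).
-/

set_option autoImplicit false
set_option linter.unusedSectionVars false

namespace Pool.Agent.KneserRank

open MeasureTheory Set Filter Topology

variable {D : ℕ}

/-- The divided difference of `kk` in `t`. -/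
private noncomputable def identS (a e w : Fin D → ℝ) (x₁ x₂ x t : ℝ) : ℝ :=
  ∑ k, DD a e w k ^ 2 * (2 * a k - 1) / (4 * ll a k x₁ * ll a k x₂ * ll a k x * ll a k t)

/-- The function `E`. -/
private noncomputable def identE (a e w : Fin D → ℝ) (x₁ x₂ y₁ y₂ t : ℝ) : ℝ :=
  (y₂ * identS a e w x₁ x₂ x₂ t - y₁ * identS a e w x₁ x₂ x₁ t) / (x₂ - x₁)

private theorem identS_spec {a e w : Fin D → ℝ} (ha : Pencil a) {x₁ x₂ x t : ℝ}
    (h₁ : x₁ ∈ Ioo (0 : ℝ) 1) (h₂ : x₂ ∈ Ioo (0 : ℝ) 1) (hx : x ∈ Ioo (0 : ℝ) 1)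
    (ht : t ∈ Ioo (0 : ℝ) 1) :
    kk a e w x₁ x₂ t - kk a e w x₁ x₂ x = -(t - x) * identS a e w x₁ x₂ x t := by
  unfold kk identS
  rw [← Finset.sum_sub_distrib, Finset.mul_sum]
  refine Finset.sum_congr rfl fun k _ => ?_
  have p₁ := (ll_pos ha h₁ k).ne'
  have p₂ := (ll_pos ha h₂ k).ne'
  have p₃ := (ll_pos ha hx k).ne'
  have p₄ := (ll_pos ha ht k).ne'
  have key : ll a k t - ll a k x = (2 * a k - 1) * (t - x) := by unfold ll; ring
  field_simp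
  linear_combination (-(DD a e w k ^ 2)) * key

private theorem identE_spec {a e w : Fin D → ℝ} (ha : Pencil a) {x₁ x₂ y₁ y₂ t : ℝ}
    (h₁ : x₁ ∈ Ioo (0 : ℝ) 1) (h₂ : x₂ ∈ Ioo (0 : ℝ) 1) (hlt : x₁ < x₂)
    (ht : t ∈ Ioo (0 : ℝ) 1)
    (k₁ : y₁ * kk a e w x₁ x₂ x₁ * (x₂ - x₁) = -1) (k₂ : y₂ * kk a e w x₁ x₂ x₂ * (x₂ - x₁) = 1) :
    (t - x₁) * (x₂ - t) * identE a e w x₁ x₂ y₁ y₂ t =
      kk a e w x₁ x₂ t * ((y₁ * (x₂ - t) + y₂ * (t - x₁)) / (x₂ - x₁)) -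
        (2 * t - x₁ - x₂) / (x₂ - x₁) ^ 2 := by
  have s₁ := identS_spec (e := e) (w := w) ha h₁ h₂ h₁ ht
  have s₂ := identS_spec (e := e) (w := w) ha h₁ h₂ h₂ ht
  have hl : x₂ - x₁ ≠ 0 := (sub_pos.2 hlt).ne'
  unfold identE
  rw [eq_sub_iff_add_eq]
  field_simp
  linear_combination (-(y₂ * (t - x₁) * (x₂ - x₁))) * s₂ - (y₁ * (x₂ - t) * (x₂ - x₁)) * s₁ +
    (t - x₁) * (-k₂) - (x₂ - t) * k₁

private theorem identE_diff {a e w : Fin D → ℝ} (ha : Pencil a) {x₁ x₂ y₁ y₂ t : ℝ}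
    (h₁ : x₁ ∈ Ioo (0 : ℝ) 1) (h₂ : x₂ ∈ Ioo (0 : ℝ) 1) (ht : t ∈ Ioo (0 : ℝ) 1) :
    DifferentiableAt ℝ (identE a e w x₁ x₂ y₁ y₂) t := by
  have hS : ∀ x ∈ Ioo (0 : ℝ) 1, DifferentiableAt ℝ (identS a e w x₁ x₂ x) t := by
    intro x hx
    unfold identS
    refine DifferentiableAt.fun_sum fun k _ => ?_
    have hne : 4 * ll a k x₁ * ll a k x₂ * ll a k x * ll a k t ≠ 0 :=
      mul_ne_zero (mul_ne_zero (mul_ne_zero (mul_ne_zero (by norm_num) (ll_pos ha h₁ k).ne')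
        (ll_pos ha h₂ k).ne') (ll_pos ha hx k).ne') (ll_pos ha ht k).ne'
    refine (differentiableAt_const _).div ?_ hne
    refine (differentiableAt_const _).mul ?_
    unfold ll
    fun_prop
  unfold identE
  exact (((differentiableAt_const _).mul (hS x₂ h₂)).sub
    ((differentiableAt_const _).mul (hS x₁ h₁))).div_const _

private theorem ident_kk_deriv {a e w : Fin D → ℝ} (ha : Pencil a) {x₁ x₂ t : ℝ}
    (h₁ : x₁ ∈ Ioo (0 : ℝ) 1) (h₂ : x₂ ∈ Ioo (0 : ℝ) 1) (ht : t ∈ Ioo (0 : ℝ) 1) :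
    HasDerivAt (kk a e w x₁ x₂) (kkt a e w x₁ x₂ t) t := by
  have h := hasDerivAt_kk (e := e) (w := w) ha (x₁ := fun _ => x₁) (x₂ := fun _ => x₂)
    (s := fun u => u) (h := t) h₁ h₂ ht (hasDerivAt_const t x₁) (hasDerivAt_const t x₂)
    (hasDerivAt_id t)
  have h0 : kkh a e w x₁ x₂ 0 0 t = 0 := by
    unfold kkh
    simp
  simpa [h0] using h

private theorem ident_key {a e w : Fin D → ℝ} (ha : Pencil a) {x₁ x₂ y₁ y₂ t : ℝ}
    (h₁ : x₁ ∈ Ioo (0 : ℝ) 1) (h₂ : x₂ ∈ Ioo (0 : ℝ) 1) (hlt : x₁ < x₂)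
    (ht : t ∈ Ioo x₁ x₂)
    (k₁ : y₁ * kk a e w x₁ x₂ x₁ * (x₂ - x₁) = -1) (k₂ : y₂ * kk a e w x₁ x₂ x₂ * (x₂ - x₁) = 1)
    (hrel : (-y₁ * (x₂ - t) + y₂ * (t - x₁)) * kk a e w x₁ x₂ t +
      (t - x₁) * (x₂ - t) * kkh a e w x₁ x₂ y₁ y₂ t = 1) :
    (t - x₁) * (x₂ - t) * deriv (identE a e w x₁ x₂ y₁ y₂) t -
        (t - (x₁ + x₂) / 2) * identE a e w x₁ x₂ y₁ y₂ t =
      kkt a e w x₁ x₂ t * ((y₁ * (x₂ - t) + y₂ * (t - x₁)) / (x₂ - x₁)) -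
        kkh a e w x₁ x₂ y₁ y₂ t / 2 := by
  have hl : x₂ - x₁ ≠ 0 := (sub_pos.2 hlt).ne'
  have ht' : t ∈ Ioo (0 : ℝ) 1 := ⟨h₁.1.trans ht.1, ht.2.trans h₂.2⟩
  set E := identE a e w x₁ x₂ y₁ y₂ with hE
  have dE : HasDerivAt E (deriv E t) t := (identE_diff ha h₁ h₂ ht').hasDerivAt
  have dK := ident_kk_deriv (e := e) (w := w) ha h₁ h₂ ht'
  have f1 : HasDerivAt (fun u : ℝ => u - x₁) 1 t := (hasDerivAt_id t).sub_const x₁
  have f2 : HasDerivAt (fun u : ℝ => x₂ - u) (-1) t := (hasDerivAt_id t).const_sub x₂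
  have g1 := (f1.mul f2).mul dE
  have g2 := (dK.mul (((f2.const_mul y₁).add (f1.const_mul y₂)).div_const (x₂ - x₁))).sub
    (((((hasDerivAt_id t).const_mul 2).sub_const x₁).sub_const x₂).div_const ((x₂ - x₁) ^ 2))
  have hev : (fun u => (u - x₁) * (x₂ - u) * E u) =ᶠ[𝓝 t] fun u =>
      kk a e w x₁ x₂ u * ((y₁ * (x₂ - u) + y₂ * (u - x₁)) / (x₂ - x₁)) -
        (2 * u - x₁ - x₂) / (x₂ - x₁) ^ 2 := by
    filter_upwards [isOpen_Ioo.mem_nhds ht'] with u hu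
    exact identE_spec ha h₁ h₂ hlt hu k₁ k₂
  have e1 : (1 * (x₂ - t) + (t - x₁) * -1) * E t + ((t - x₁) * (x₂ - t)) * deriv E t =
      kkt a e w x₁ x₂ t * ((y₁ * (x₂ - t) + y₂ * (t - x₁)) / (x₂ - x₁)) +
        kk a e w x₁ x₂ t * ((y₁ * -1 + y₂ * 1) / (x₂ - x₁)) - 2 * 1 / (x₂ - x₁) ^ 2 :=
    HasDerivAt.unique (g1.congr_of_eventuallyEq hev.symm) g2
  have e2 := identE_spec (e := e) (w := w) ha h₁ h₂ hlt ht' k₁ k₂
  rw [← hE] at e2
  have q0 : (t - x₁) * (x₂ - t) ≠ 0 := (mul_pos (sub_pos.2 ht.1) (sub_pos.2 ht.2)).ne'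
  have e3 : (t - x₁) * (x₂ - t) * (kk a e w x₁ x₂ t * ((y₂ - y₁) / (x₂ - x₁)) -
      2 / (x₂ - x₁) ^ 2 + (t - (x₁ + x₂) / 2) * E t + kkh a e w x₁ x₂ y₁ y₂ t / 2) = 0 := by
    have e4 : (t - x₁) * (x₂ - t) * (kk a e w x₁ x₂ t * ((y₂ - y₁) / (x₂ - x₁)) -
        2 / (x₂ - x₁) ^ 2 + (t - (x₁ + x₂) / 2) * E t + kkh a e w x₁ x₂ y₁ y₂ t / 2) =
        (t - x₁) * (x₂ - t) * (kk a e w x₁ x₂ t * ((y₂ - y₁) / (x₂ - x₁)) -
        2 / (x₂ - x₁) ^ 2) + (t - (x₁ + x₂) / 2) * ((t - x₁) * (x₂ - t) * E t) +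
        (t - x₁) * (x₂ - t) * kkh a e w x₁ x₂ y₁ y₂ t / 2 := by ring
    rw [e4, e2]
    have e5 : (t - x₁) * (x₂ - t) * kkh a e w x₁ x₂ y₁ y₂ t =
        1 - (-y₁ * (x₂ - t) + y₂ * (t - x₁)) * kk a e w x₁ x₂ t := by linarith
    rw [e5]
    field_simp
    ring
  have e6 := (mul_eq_zero.1 e3).resolve_left q0
  have e7 : (kkt a e w x₁ x₂ t * ((y₁ * (x₂ - t) + y₂ * (t - x₁)) / (x₂ - x₁)) +
      kk a e w x₁ x₂ t * ((y₂ - y₁) / (x₂ - x₁))) - 2 / (x₂ - x₁) ^ 2 =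
      (x₂ - t - (t - x₁)) * E t + (t - x₁) * (x₂ - t) * deriv E t := by
    have : (y₁ * -1 + y₂ * 1) = y₂ - y₁ := by ring
    rw [this] at e1
    linarith
  linear_combination (-1) * e7 + e6

private theorem ident_mono {a e w : Fin D → ℝ} (ha : Pencil a) (hg : Generic a e w)
    {x₁ x₂ : ℝ} (h₁ : x₁ ∈ Ioo (0 : ℝ) 1) (h₂ : x₂ ∈ Ioo (0 : ℝ) 1) :
    MonotoneOn (WWt a e w x₁ x₂) (Ioo (0 : ℝ) 1) := by
  have h := (convexOn_WW ha hg h₁ h₂).monotoneOn_deriv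
    (fun t ht => (hasDerivAt_WW ha hg h₁ h₂ ht).differentiableAt)
  intro s hs t ht hst
  have := h hs ht hst
  rwa [(hasDerivAt_WW ha hg h₁ h₂ hs).deriv, (hasDerivAt_WW ha hg h₁ h₂ ht).deriv] at this

private theorem ident_par_cont (x₁ x₂ : ℝ) : Continuous (par x₁ x₂) := by
  unfold par
  fun_prop

private theorem ident_last {a e w : Fin D → ℝ} (ha : Pencil a) (hg : Generic a e w)
    {x₁ x₂ : ℝ} (h₁ : x₁ ∈ Ioo (0 : ℝ) 1) (h₂ : x₂ ∈ Ioo (0 : ℝ) 1) (hlt : x₁ < x₂) :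
    0 ≤ ∫ θ in (0 : ℝ)..Real.pi, WWt a e w x₁ x₂ (par x₁ x₂ θ) * Real.cos θ := by
  have hcont : Continuous fun θ => WWt a e w x₁ x₂ (par x₁ x₂ θ) :=
    (continuousOn_WWt ha hg).comp_continuous
      (f := fun θ => (x₁, x₂, par x₁ x₂ θ))
      (continuous_const.prodMk (continuous_const.prodMk (ident_par_cont x₁ x₂)))
      (fun θ => ⟨h₁, h₂, par_mem h₁ h₂ θ⟩)
  have hsym : (∫ θ in (0 : ℝ)..Real.pi, WWt a e w x₁ x₂ (par x₁ x₂ θ) * Real.cos θ) =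
      ∫ θ in (0 : ℝ)..Real.pi, -(WWt a e w x₁ x₂ (par x₁ x₂ (Real.pi - θ)) * Real.cos θ) := by
    have h := intervalIntegral.integral_comp_sub_left
      (fun θ => WWt a e w x₁ x₂ (par x₁ x₂ θ) * Real.cos θ) (a := 0) (b := Real.pi) Real.pi
    rw [sub_self, sub_zero] at h
    rw [← h]
    refine intervalIntegral.integral_congr fun θ _ => ?_
    simp only [Real.cos_pi_sub]
    ring
  have hc1 : IntervalIntegrable (fun θ => WWt a e w x₁ x₂ (par x₁ x₂ θ) * Real.cos θ) volume 0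
      Real.pi := (hcont.mul Real.continuous_cos).intervalIntegrable _ _
  have hc2 : IntervalIntegrable
      (fun θ => -(WWt a e w x₁ x₂ (par x₁ x₂ (Real.pi - θ)) * Real.cos θ)) volume 0 Real.pi :=
    ((hcont.comp (continuous_const.sub continuous_id)).mul
      Real.continuous_cos).neg.intervalIntegrable _ _
  have h2 : 0 ≤ ∫ θ in (0 : ℝ)..Real.pi, (WWt a e w x₁ x₂ (par x₁ x₂ θ) * Real.cos θ +
      -(WWt a e w x₁ x₂ (par x₁ x₂ (Real.pi - θ)) * Real.cos θ)) := by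
    refine intervalIntegral.integral_nonneg Real.pi_pos.le fun θ _ => ?_
    have e0 : WWt a e w x₁ x₂ (par x₁ x₂ θ) * Real.cos θ +
        -(WWt a e w x₁ x₂ (par x₁ x₂ (Real.pi - θ)) * Real.cos θ) =
        (WWt a e w x₁ x₂ (par x₁ x₂ θ) - WWt a e w x₁ x₂ (par x₁ x₂ (Real.pi - θ))) *
          Real.cos θ := by ring
    rw [e0]
    have e1 : par x₁ x₂ θ - par x₁ x₂ (Real.pi - θ) = (x₂ - x₁) * Real.cos θ := by
      unfold par
      rw [Real.cos_pi_sub]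
      ring
    rcases le_total 0 (Real.cos θ) with hc | hc
    · refine mul_nonneg (sub_nonneg.2 ?_) hc
      refine ident_mono ha hg h₁ h₂ (par_mem h₁ h₂ _) (par_mem h₁ h₂ _) ?_
      have := mul_nonneg (sub_pos.2 hlt).le hc
      linarith
    · refine mul_nonneg_of_nonpos_of_nonpos (sub_nonpos.2 ?_) hc
      refine ident_mono ha hg h₁ h₂ (par_mem h₁ h₂ _) (par_mem h₁ h₂ _) ?_
      have := mul_nonpos_iff.2 (Or.inl ⟨(sub_pos.2 hlt).le, hc⟩)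
      linarith
  rw [intervalIntegral.integral_add hc1 hc2, ← hsym] at h2
  linarith

theorem integral_thd_nonneg {a e w : Fin D → ℝ} (ha : Pencil a) (hg : Generic a e w)
    {x₁ x₂ y₁ y₂ : ℝ} (h₁ : x₁ ∈ Ioo (0 : ℝ) 1) (h₂ : x₂ ∈ Ioo (0 : ℝ) 1) (hlt : x₁ < x₂)
    (hrel : ∀ t ∈ Ioo (0 : ℝ) 1, (-y₁ * (x₂ - t) + y₂ * (t - x₁)) * kk a e w x₁ x₂ t +
      (t - x₁) * (x₂ - t) * kkh a e w x₁ x₂ y₁ y₂ t = 1) :
    0 ≤ ∫ θ in (0 : ℝ)..Real.pi, thd a e w x₁ x₂ y₁ y₂ θ := by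
  have hd : 0 < x₂ - x₁ := sub_pos.2 hlt
  have hp := ident_par_cont x₁ x₂
  have hm := fun θ => par_mem h₁ h₂ θ
  have k₁ : y₁ * kk a e w x₁ x₂ x₁ * (x₂ - x₁) = -1 := by
    have := hrel x₁ h₁
    linear_combination (-1) * this
  have k₂ : y₂ * kk a e w x₁ x₂ x₂ * (x₂ - x₁) = 1 := by
    have := hrel x₂ h₂
    linear_combination this
  have cWt : Continuous fun θ => WWt a e w x₁ x₂ (par x₁ x₂ θ) :=
    (continuousOn_WWt ha hg).comp_continuous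
      (f := fun θ => (x₁, x₂, par x₁ x₂ θ))
      (continuous_const.prodMk (continuous_const.prodMk hp)) (fun θ => ⟨h₁, h₂, hm θ⟩)
  have cW : Continuous fun θ => WW a e w x₁ x₂ (par x₁ x₂ θ) :=
    (continuousOn_WW ha hg).comp_continuous
      (f := fun θ => (x₁, x₂, par x₁ x₂ θ))
      (continuous_const.prodMk (continuous_const.prodMk hp)) (fun θ => ⟨h₁, h₂, hm θ⟩)
  have cK : Continuous fun θ => kk a e w x₁ x₂ (par x₁ x₂ θ) :=
    (continuousOn_kk (e := e) (w := w) ha).comp_continuous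
      (f := fun θ => (x₁, x₂, par x₁ x₂ θ))
      (continuous_const.prodMk (continuous_const.prodMk hp)) (fun θ => ⟨h₁, h₂, hm θ⟩)
  have cKt : Continuous fun θ => kkt a e w x₁ x₂ (par x₁ x₂ θ) :=
    (continuousOn_kkt (e := e) (w := w) ha).comp_continuous
      (f := fun θ => (x₁, x₂, par x₁ x₂ θ))
      (continuous_const.prodMk (continuous_const.prodMk hp)) (fun θ => ⟨h₁, h₂, hm θ⟩)
  have cKh : Continuous fun θ => kkh a e w x₁ x₂ y₁ y₂ (par x₁ x₂ θ) :=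
    (continuousOn_kkh (e := e) (w := w) ha).comp_continuous
      (f := fun θ => ((y₁, y₂), x₁, x₂, par x₁ x₂ θ))
      (continuous_const.prodMk (continuous_const.prodMk (continuous_const.prodMk hp)))
      (fun θ => ⟨mem_univ _, h₁, h₂, hm θ⟩)
  have cT : Continuous fun θ => thd a e w x₁ x₂ y₁ y₂ θ := by
    unfold thd
    exact ((((cWt.mul cK).add (cW.mul cKt)).mul (continuous_const.add
      (continuous_const.mul Real.continuous_cos))).sub ((cW.mul cKh).div_const 2))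
  have cE : Continuous fun θ => identE a e w x₁ x₂ y₁ y₂ (par x₁ x₂ θ) := by
    have h0 : ContinuousOn (identE a e w x₁ x₂ y₁ y₂) (Ioo (0 : ℝ) 1) := fun t ht =>
      (identE_diff ha h₁ h₂ ht).continuousAt.continuousWithinAt
    exact h0.comp_continuous hp hm
  set G : ℝ → ℝ := fun θ => -((x₂ - x₁) / 2) * (WW a e w x₁ x₂ (par x₁ x₂ θ) *
    identE a e w x₁ x₂ y₁ y₂ (par x₁ x₂ θ)) * Real.sin θ with hG
  have cG : Continuous G := (continuous_const.mul (cW.mul cE)).mul Real.continuous_sin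
  have hder : ∀ θ ∈ Ioo (0 : ℝ) Real.pi, HasDerivAt G (thd a e w x₁ x₂ y₁ y₂ θ -
      WWt a e w x₁ x₂ (par x₁ x₂ θ) * Real.cos θ / (x₂ - x₁)) θ := by
    intro θ hθ
    have hs : 0 < Real.sin θ := Real.sin_pos_of_pos_of_lt_pi hθ.1 hθ.2
    have hsc := Real.sin_sq_add_cos_sq θ
    have habs : |Real.cos θ| < 1 := by
      rw [← sq_lt_one_iff_abs_lt_one]
      nlinarith
    obtain ⟨hc1, hc2⟩ := abs_lt.1 habs
    set t := par x₁ x₂ θ with ht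
    have ta : t - x₁ = (x₂ - x₁) / 2 * (1 + Real.cos θ) := by rw [ht]; unfold par; ring
    have tb : x₂ - t = (x₂ - x₁) / 2 * (1 - Real.cos θ) := by rw [ht]; unfold par; ring
    have tm : t ∈ Ioo x₁ x₂ := by
      constructor
      · have : 0 < t - x₁ := by
          rw [ta]
          exact mul_pos (by linarith) (by linarith)
        linarith
      · have : 0 < x₂ - t := by
          rw [tb]
          exact mul_pos (by linarith) (by linarith)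
        linarith
    have dp : HasDerivAt (par x₁ x₂) ((x₂ - x₁) / 2 * -Real.sin θ) θ := by
      have := ((Real.hasDerivAt_cos θ).const_mul ((x₂ - x₁) / 2)).const_add ((x₁ + x₂) / 2)
      exact this
    have dW : HasDerivAt (fun u => WW a e w x₁ x₂ (par x₁ x₂ u))
        (WWt a e w x₁ x₂ t * ((x₂ - x₁) / 2 * -Real.sin θ)) θ :=
      (hasDerivAt_WW ha hg h₁ h₂ (hm θ)).comp θ dp
    have dE : HasDerivAt (fun u => identE a e w x₁ x₂ y₁ y₂ (par x₁ x₂ u))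
        (deriv (identE a e w x₁ x₂ y₁ y₂) t * ((x₂ - x₁) / 2 * -Real.sin θ)) θ :=
      (identE_diff ha h₁ h₂ (hm θ)).hasDerivAt.comp θ dp
    have dG := ((dW.mul dE).const_mul (-((x₂ - x₁) / 2))).mul (Real.hasDerivAt_sin θ)
    refine dG.congr_deriv ?_
    have key := ident_key ha h₁ h₂ hlt tm k₁ k₂ (hrel t (hm θ))
    have spec := identE_spec (e := e) (w := w) ha h₁ h₂ hlt (hm θ) k₁ k₂
    have hv : (y₁ * (x₂ - t) + y₂ * (t - x₁)) / (x₂ - x₁) =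
        (y₁ + y₂) / 2 + (y₂ - y₁) / 2 * Real.cos θ := by
      rw [ta, tb]
      field_simp
      ring
    have ht2 : (2 * t - x₁ - x₂) / (x₂ - x₁) ^ 2 = Real.cos θ / (x₂ - x₁) := by
      have : 2 * t - x₁ - x₂ = (x₂ - x₁) * Real.cos θ := by linear_combination ta - tb
      rw [this]
      field_simp
    have hq : (t - x₁) * (x₂ - t) = ((x₂ - x₁) / 2) ^ 2 * Real.sin θ ^ 2 := by
      rw [ta, tb]
      linear_combination ((x₂ - x₁) / 2) ^ 2 * (-hsc)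
    have hτ : t - (x₁ + x₂) / 2 = (x₂ - x₁) / 2 * Real.cos θ := by
      linear_combination (ta - tb) / 2
    rw [hv, hq, hτ] at key
    rw [← ht, hv, ht2, hq] at spec
    simp only [Pi.mul_apply, ← ht]
    unfold thd
    rw [← ht]
    linear_combination WWt a e w x₁ x₂ t * spec + WW a e w x₁ x₂ t * key
  have cWc : Continuous fun θ => WWt a e w x₁ x₂ (par x₁ x₂ θ) * Real.cos θ / (x₂ - x₁) :=
    (cWt.mul Real.continuous_cos).div_const _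
  have hint := intervalIntegral.integral_eq_sub_of_hasDerivAt_of_le Real.pi_pos.le
    cG.continuousOn hder ((cT.sub cWc).intervalIntegrable _ _)
  have hG0 : G Real.pi - G 0 = 0 := by simp [hG]
  rw [hG0, intervalIntegral.integral_sub (cT.intervalIntegrable _ _)
    (cWc.intervalIntegrable _ _), intervalIntegral.integral_div, sub_eq_zero] at hint
  rw [hint]
  exact div_nonneg (ident_last ha hg h₁ h₂ hlt) hd.le

end Pool.Agent.KneserRank
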