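import Pool.Agent.KneserRank.Roots
import Pool.Agent.KneserRank.Param
import Pool.Agent.KneserRank.Ident

/-!
# Monotonicity of `Flin`

PROOF of `Flin_eq_Phi`. For `t ∈ (0, 1)`, dividing `HH_interp` by `x₂ - x₁`:
`h - HH t = (t - x₁) (x₂ - t) kk x₁ x₂ t`, so `HH t < h` iff `t ∈ (x₁, x₂)`. Hence `Flin h` is the
lintegral over `(x₁, x₂)` of `om t / √((t - x₁) (x₂ - t) kk t)`. Substitute
`t = par x₁ x₂ θ`, `θ ∈ (0, π)` (strictly decreasing, derivative `-(x₂ - x₁)/2 sin θ`, and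
`(t - x₁) (x₂ - t) = ((x₂ - x₁)/2) ^ 2 sin² θ`; `lintegral_image_eq_lintegral_abs_deriv_mul`) to get
the lintegral over `(0, π)` of `om (par θ) * kk (par θ) ^ (-1/2)`, a continuous function, i.e.
`ENNReal.ofReal (Phi x₁ x₂)`.
PROOF of `Flin_mono`. Take `m`, `x₁`, `x₂`, `y₁`, `y₂` from `exists_roots`. For `h ≤ m`, `Flin h = 0`
(the integrand vanishes). For `h > m`, `Flin h = ENNReal.ofReal (Phi (x₁ h) (x₂ h))`, and
`h ↦ Phi (x₁ h) (x₂ h)` is monotone on `Ioi m` because its derivative is nonnegative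
(`hasDerivAt_Phi`, `kk_rel`, `integral_thd_nonneg`, `monotoneOn_of_deriv_nonneg`).
-/

set_option autoImplicit false
set_option linter.unusedSectionVars false

namespace Pool.Agent.KneserRank

open MeasureTheory Set Filter Topology

variable {D : ℕ}

private theorem Mono_sub {a e w : Fin D → ℝ} (ha : Pencil a) {x₁ x₂ h t : ℝ}
    (h₁ : x₁ ∈ Ioo (0 : ℝ) 1) (h₂ : x₂ ∈ Ioo (0 : ℝ) 1) (hlt : x₁ < x₂)
    (r₁ : HH a e w x₁ = h) (r₂ : HH a e w x₂ = h) (ht : t ∈ Ioo (0 : ℝ) 1) :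
    h - HH a e w t = (t - x₁) * (x₂ - t) * kk a e w x₁ x₂ t := by
  have hi := HH_interp ha e w h₁ h₂ ht
  rw [r₁, r₂] at hi
  have hne : x₂ - x₁ ≠ 0 := sub_ne_zero.2 hlt.ne'
  apply mul_left_cancel₀ hne
  linear_combination -hi

private theorem Mono_iff {a e w : Fin D → ℝ} (ha : Pencil a) (hg : Generic a e w)
    {x₁ x₂ h t : ℝ}
    (h₁ : x₁ ∈ Ioo (0 : ℝ) 1) (h₂ : x₂ ∈ Ioo (0 : ℝ) 1) (hlt : x₁ < x₂)
    (r₁ : HH a e w x₁ = h) (r₂ : HH a e w x₂ = h) (ht : t ∈ Ioo (0 : ℝ) 1) :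
    HH a e w t < h ↔ t ∈ Ioo x₁ x₂ := by
  have hs := Mono_sub ha h₁ h₂ hlt r₁ r₂ ht
  have hk := kk_pos ha hg h₁ h₂ ht
  constructor
  · intro hh
    have hp : 0 < (t - x₁) * (x₂ - t) * kk a e w x₁ x₂ t := by rw [← hs]; linarith
    have hq : 0 < (t - x₁) * (x₂ - t) := by
      by_contra hc
      push Not at hc
      have := mul_nonpos_of_nonpos_of_nonneg hc hk.le
      linarith
    rcases mul_pos_iff.1 hq with hc | hc
    · exact ⟨by linarith [hc.1], by linarith [hc.2]⟩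
    · exfalso
      linarith [hc.1, hc.2]
  · intro hh
    have hp : 0 < (t - x₁) * (x₂ - t) * kk a e w x₁ x₂ t :=
      mul_pos (mul_pos (by linarith [hh.1]) (by linarith [hh.2])) hk
    linarith

private theorem Mono_par_cont (x₁ x₂ : ℝ) : Continuous (par x₁ x₂) := by
  unfold par
  fun_prop

private theorem Mono_par_deriv (x₁ x₂ θ : ℝ) :
    HasDerivAt (par x₁ x₂) ((x₂ - x₁) / 2 * (-Real.sin θ)) θ := by
  have h := ((Real.hasDerivAt_cos θ).const_mul ((x₂ - x₁) / 2)).const_add ((x₁ + x₂) / 2)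
  exact h

private theorem Mono_par_inj {x₁ x₂ : ℝ} (hlt : x₁ < x₂) :
    InjOn (par x₁ x₂) (Ioo 0 Real.pi) := by
  intro s hs t ht hst
  have hl : (x₂ - x₁) / 2 ≠ 0 := by
    have : 0 < (x₂ - x₁) / 2 := by linarith
    exact this.ne'
  have hc : Real.cos s = Real.cos t := by
    unfold par at hst
    exact mul_left_cancel₀ hl (by linarith)
  exact Real.injOn_cos ⟨hs.1.le, hs.2.le⟩ ⟨ht.1.le, ht.2.le⟩ hc

private theorem Mono_par_image {x₁ x₂ : ℝ} (hlt : x₁ < x₂) :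
    par x₁ x₂ '' Ioo 0 Real.pi = Ioo x₁ x₂ := by
  have hl : 0 < (x₂ - x₁) / 2 := by linarith
  ext t
  constructor
  · rintro ⟨θ, hθ, rfl⟩
    have hc1 : Real.cos θ < 1 := by
      have := Real.cos_lt_cos_of_nonneg_of_le_pi le_rfl hθ.2.le hθ.1
      rwa [Real.cos_zero] at this
    have hc2 : -1 < Real.cos θ := by
      have := Real.cos_lt_cos_of_nonneg_of_le_pi hθ.1.le le_rfl hθ.2
      rwa [Real.cos_pi] at this
    unfold par
    constructor
    · nlinarith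
    · nlinarith
  · intro ht
    have hu1 : -1 < (t - (x₁ + x₂) / 2) / ((x₂ - x₁) / 2) := by
      rw [lt_div_iff₀ hl]
      linarith [ht.1]
    have hu2 : (t - (x₁ + x₂) / 2) / ((x₂ - x₁) / 2) < 1 := by
      rw [div_lt_iff₀ hl]
      linarith [ht.2]
    refine ⟨Real.arccos ((t - (x₁ + x₂) / 2) / ((x₂ - x₁) / 2)), ⟨?_, ?_⟩, ?_⟩
    · exact Real.arccos_pos.2 hu2
    · refine lt_of_le_of_ne (Real.arccos_le_pi _) fun hh => ?_
      have := Real.arccos_eq_pi.1 hh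
      linarith
    · unfold par
      have hne : (x₂ - x₁) / 2 ≠ 0 := hl.ne'
      rw [Real.cos_arccos hu1.le hu2.le, mul_div_cancel₀ _ hne]
      ring

private theorem Mono_F_cont {a e w : Fin D → ℝ} (ha : Pencil a) (hg : Generic a e w) {x₁ x₂ : ℝ}
    (h₁ : x₁ ∈ Ioo (0 : ℝ) 1) (h₂ : x₂ ∈ Ioo (0 : ℝ) 1) :
    Continuous fun θ => om a (par x₁ x₂ θ) * kk a e w x₁ x₂ (par x₁ x₂ θ) ^ (-(1 / 2) : ℝ) := by
  have c1 : Continuous fun θ => om a (par x₁ x₂ θ) :=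
    (continuousOn_om ha).comp_continuous (Mono_par_cont x₁ x₂) fun θ => par_mem h₁ h₂ θ
  have c2 : Continuous fun θ => kk a e w x₁ x₂ (par x₁ x₂ θ) := by
    have hc : Continuous fun θ => ((x₁, x₂, par x₁ x₂ θ) : ℝ × ℝ × ℝ) :=
      continuous_const.prodMk (continuous_const.prodMk (Mono_par_cont x₁ x₂))
    exact (continuousOn_kk (e := e) (w := w) ha).comp_continuous hc
      fun θ => ⟨h₁, h₂, par_mem h₁ h₂ θ⟩
  exact c1.mul (c2.rpow_const fun θ => Or.inl (kk_pos ha hg h₁ h₂ (par_mem h₁ h₂ θ)).ne')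

theorem Flin_eq_Phi {a e w : Fin D → ℝ} (ha : Pencil a) (hg : Generic a e w) {x₁ x₂ h : ℝ}
    (h₁ : x₁ ∈ Ioo (0 : ℝ) 1) (h₂ : x₂ ∈ Ioo (0 : ℝ) 1) (hlt : x₁ < x₂)
    (r₁ : HH a e w x₁ = h) (r₂ : HH a e w x₂ = h) :
    Flin a e w h = ENNReal.ofReal (Phi a e w x₁ x₂) := by
  have hl : 0 < (x₂ - x₁) / 2 := by linarith
  have hsub : Ioo x₁ x₂ ⊆ Ioo (0 : ℝ) 1 := fun t ht =>
    ⟨h₁.1.trans ht.1, ht.2.trans h₂.2⟩
  have s1 : Flin a e w h = ∫⁻ t in Ioo (0 : ℝ) 1, (Ioo x₁ x₂).indicator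
      (fun t => ENNReal.ofReal (om a t / √((t - x₁) * (x₂ - t) * kk a e w x₁ x₂ t))) t := by
    unfold Flin
    refine setLIntegral_congr_fun measurableSet_Ioo fun t ht => ?_
    have hi := Mono_iff ha hg h₁ h₂ hlt r₁ r₂ ht
    by_cases hh : HH a e w t < h
    · have hm := hi.1 hh
      simp only [hh, if_true, indicator_of_mem hm]
      rw [Mono_sub ha h₁ h₂ hlt r₁ r₂ ht]
    · have hm : t ∉ Ioo x₁ x₂ := fun hc => hh (hi.2 hc)
      simp only [hh, if_false, indicator_of_notMem hm, ENNReal.ofReal_zero]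
  have s2 : Flin a e w h = ∫⁻ t in Ioo x₁ x₂,
      ENNReal.ofReal (om a t / √((t - x₁) * (x₂ - t) * kk a e w x₁ x₂ t)) := by
    rw [s1, setLIntegral_indicator measurableSet_Ioo, inter_eq_left.2 hsub]
  have s3 : Flin a e w h = ∫⁻ θ in Ioo (0 : ℝ) Real.pi, ENNReal.ofReal
      (om a (par x₁ x₂ θ) * kk a e w x₁ x₂ (par x₁ x₂ θ) ^ (-(1 / 2) : ℝ)) := by
    rw [s2, ← Mono_par_image hlt, lintegral_image_eq_lintegral_abs_deriv_mul measurableSet_Ioo
      (fun θ _ => (Mono_par_deriv x₁ x₂ θ).hasDerivWithinAt) (Mono_par_inj hlt)]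
    refine setLIntegral_congr_fun measurableSet_Ioo fun θ hθ => ?_
    have hsin : 0 < Real.sin θ := Real.sin_pos_of_pos_of_lt_pi hθ.1 hθ.2
    have hk := kk_pos ha hg h₁ h₂ (par_mem h₁ h₂ θ)
    have hq : (par x₁ x₂ θ - x₁) * (x₂ - par x₁ x₂ θ) =
        ((x₂ - x₁) / 2 * Real.sin θ) ^ 2 := by
      unfold par
      rw [mul_pow, Real.sin_sq]
      ring
    have hls : 0 < (x₂ - x₁) / 2 * Real.sin θ := mul_pos hl hsin
    have habs : |(x₂ - x₁) / 2 * (-Real.sin θ)| = (x₂ - x₁) / 2 * Real.sin θ := by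
      rw [mul_neg, abs_neg, abs_of_pos hls]
    rw [habs, ← ENNReal.ofReal_mul hls.le, hq, Real.sqrt_mul (sq_nonneg _),
      Real.sqrt_sq hls.le]
    congr 1
    rw [Real.rpow_neg hk.le, ← Real.sqrt_eq_rpow]
    have hsk : √(kk a e w x₁ x₂ (par x₁ x₂ θ)) ≠ 0 := (Real.sqrt_pos.2 hk).ne'
    have hne : x₂ - x₁ ≠ 0 := sub_ne_zero.2 hlt.ne'
    field_simp
  rw [s3]
  unfold Phi
  have hc := Mono_F_cont ha hg h₁ h₂
  rw [intervalIntegral.integral_of_le Real.pi_pos.le, integral_Ioc_eq_integral_Ioo]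
  refine (ofReal_integral_eq_lintegral_ofReal ?_ ?_).symm
  · exact ((hc.continuousOn (s := Icc 0 Real.pi)).integrableOn_Icc).mono_set Ioo_subset_Icc_self
  · refine Eventually.of_forall fun θ => ?_
    exact mul_nonneg (om_pos ha (par_mem h₁ h₂ θ)).le
      (Real.rpow_nonneg (kk_pos ha hg h₁ h₂ (par_mem h₁ h₂ θ)).le _)

theorem Flin_mono {a e w : Fin D → ℝ} (ha : Pencil a) (hg : Generic a e w) :
    Monotone (Flin a e w) := by
  obtain ⟨m, x₁, x₂, y₁, y₂, hr⟩ := exists_roots ha hg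
  have hzero : ∀ h, h ≤ m → Flin a e w h = 0 := by
    intro h hh
    unfold Flin
    rw [setLIntegral_congr_fun (g := fun _ => 0) measurableSet_Ioo, lintegral_zero]
    intro t ht
    have hn : ¬ HH a e w t < h := not_lt.2 (hh.trans (hr.low t ht))
    simp only [hn, if_false, ENNReal.ofReal_zero]
  have hmono : MonotoneOn (fun h => Phi a e w (x₁ h) (x₂ h)) (Ioi m) := by
    refine monotoneOn_of_deriv_nonneg (convex_Ioi m) ?_ ?_ ?_
    · exact fun h hh => (hasDerivAt_Phi ha hg hr hh).continuousAt.continuousWithinAt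
    · rw [interior_Ioi]
      exact fun h hh =>
        (hasDerivAt_Phi ha hg hr hh).differentiableAt.differentiableWithinAt
    · rw [interior_Ioi]
      intro h hh
      rw [(hasDerivAt_Phi ha hg hr hh).deriv]
      exact integral_thd_nonneg ha hg (hr.mem₁ h hh) (hr.mem₂ h hh) (hr.lt h hh)
        fun t ht => kk_rel ha hr hh ht
  intro h h' hle
  rcases le_or_gt h m with hm | hm
  · rw [hzero h hm]
    exact zero_le
  · have hm' : m < h' := lt_of_lt_of_le hm hle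
    rw [Flin_eq_Phi ha hg (hr.mem₁ h hm) (hr.mem₂ h hm) (hr.lt h hm) (hr.root₁ h hm)
      (hr.root₂ h hm), Flin_eq_Phi ha hg (hr.mem₁ h' hm') (hr.mem₂ h' hm') (hr.lt h' hm')
      (hr.root₁ h' hm') (hr.root₂ h' hm')]
    exact ENNReal.ofReal_le_ofReal (hmono hm hm' hle)

end Pool.Agent.KneserRank
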