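import Pool.Agent.KneserRank.Mono

/-!
# The shift inequality

PROOF of `lintegral_eq`. For a real number `H`, `∫⁻ η : ℝ, g (H + η ^ 2) =
∫⁻ h in Ioi H, g h * ENNReal.ofReal (1 / √(h - H))` (substitution `h = H + η ^ 2` on `η > 0`,
`dη = dh / (2 √(h - H))`, and the same for `η < 0`; for instance
`lintegral_image_eq_lintegral_abs_deriv_mul`). Insert this and exchange the two integrals
(`lintegral_lintegral_swap`, everything is measurable: `HH a e w` and `om a` are measurable).
PROOF of `shift_le`. By `lintegral_eq` for `h ↦ g (h + ε)`, translation invariance and `Flin_mono`: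
`∫⁻ g (h + ε) * Flin h = ∫⁻ g h * Flin (h - ε) ≤ ∫⁻ g h * Flin h`.
PROOF of `ae_generic`. The set of `w : Fin D → ℝ` with `w k = 0`, or with `w k + e k = 0`, for a
given `k` is null. By `Pencil.ones` and `Pencil.zeros` there are indices with `a k = 1`, `a k = 0`.
-/

set_option autoImplicit false
set_option linter.unusedSectionVars false

namespace Pool.Agent.KneserRank

open MeasureTheory Set Filter Topology
open scoped ENNReal

variable {D : ℕ}

private theorem shift_meas_HH (a e w : Fin D → ℝ) : Measurable (HH a e w) := by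
  unfold HH ll
  fun_prop

private theorem shift_meas_om (a : Fin D → ℝ) : Measurable (om a) := by
  unfold om ll
  fun_prop

private theorem shift_om_nonneg (a : Fin D → ℝ) (t : ℝ) : 0 ≤ om a t := by
  unfold om
  positivity

private theorem shift_meas_inner {g : ℝ → ℝ≥0∞} (hg : Measurable g) (H : ℝ) :
    Measurable fun h : ℝ => g h * ENNReal.ofReal (1 / √(h - H)) := by
  refine hg.mul (ENNReal.measurable_ofReal.comp ?_)
  exact measurable_const.div
    (Real.continuous_sqrt.measurable.comp (measurable_id.sub measurable_const))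

private theorem shift_half {g : ℝ → ℝ≥0∞} (H : ℝ) {s : Set ℝ} (hs : MeasurableSet s)
    (hs0 : ∀ x ∈ s, x ≠ 0) (hinj : InjOn (fun x : ℝ => H + x ^ 2) s)
    (him : (fun x : ℝ => H + x ^ 2) '' s = Ioi H) :
    ∫⁻ h in Ioi H, g h * ENNReal.ofReal (1 / √(h - H)) =
      ∫⁻ x in s, 2 * g (H + x ^ 2) := by
  have hd : ∀ x ∈ s, HasDerivWithinAt (fun x : ℝ => H + x ^ 2) (2 * x) s x := by
    intro x _
    have h1 : HasDerivAt (fun x : ℝ => H + x ^ 2) (2 * x) x := by
      simpa using ((hasDerivAt_id x).pow 2).const_add H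
    exact h1.hasDerivWithinAt
  have h2 := lintegral_image_eq_lintegral_abs_deriv_mul hs hd hinj
    (fun h => g h * ENNReal.ofReal (1 / √(h - H)))
  rw [him] at h2
  rw [h2]
  refine setLIntegral_congr_fun hs fun x hx => ?_
  have hx0 := hs0 x hx
  have h3 : H + x ^ 2 - H = x ^ 2 := by ring
  have h4 : ENNReal.ofReal |2 * x| * ENNReal.ofReal (1 / |x|) = 2 := by
    rw [← ENNReal.ofReal_mul (abs_nonneg _), abs_mul]
    have h5 : |(2 : ℝ)| * |x| * (1 / |x|) = 2 := by
      have : |x| ≠ 0 := abs_ne_zero.mpr hx0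
      rw [abs_two]
      field_simp
    rw [h5]
    simp
  simp only [h3, Real.sqrt_sq_eq_abs]
  calc ENNReal.ofReal |2 * x| * (g (H + x ^ 2) * ENNReal.ofReal (1 / |x|))
      = (ENNReal.ofReal |2 * x| * ENNReal.ofReal (1 / |x|)) * g (H + x ^ 2) := by ring
    _ = 2 * g (H + x ^ 2) := by rw [h4]

private theorem shift_inner {g : ℝ → ℝ≥0∞} (hg : Measurable g) (H : ℝ) :
    ∫⁻ η : ℝ, g (H + η ^ 2) = ∫⁻ h in Ioi H, g h * ENNReal.ofReal (1 / √(h - H)) := by
  have hp : ∫⁻ h in Ioi H, g h * ENNReal.ofReal (1 / √(h - H)) =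
      ∫⁻ x in Ioi (0 : ℝ), 2 * g (H + x ^ 2) := by
    refine shift_half H measurableSet_Ioi (fun x hx => (mem_Ioi.mp hx).ne') ?_ ?_
    · intro x hx y hy hxy
      have hx' := mem_Ioi.mp hx
      have hy' := mem_Ioi.mp hy
      have h1 : x ^ 2 = y ^ 2 := by simpa using hxy
      nlinarith [sq_nonneg (x - y), sq_nonneg (x + y)]
    · ext h
      simp only [mem_image, mem_Ioi]
      constructor
      · rintro ⟨x, hx, rfl⟩
        have : 0 < x ^ 2 := by positivity
        linarith
      · intro hh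
        exact ⟨√(h - H), Real.sqrt_pos.mpr (by linarith),
          by rw [Real.sq_sqrt (by linarith)]; ring⟩
  have hn : ∫⁻ h in Ioi H, g h * ENNReal.ofReal (1 / √(h - H)) =
      ∫⁻ x in Iio (0 : ℝ), 2 * g (H + x ^ 2) := by
    refine shift_half H measurableSet_Iio (fun x hx => (mem_Iio.mp hx).ne) ?_ ?_
    · intro x hx y hy hxy
      have hx' := mem_Iio.mp hx
      have hy' := mem_Iio.mp hy
      have h1 : x ^ 2 = y ^ 2 := by simpa using hxy
      nlinarith [sq_nonneg (x - y), sq_nonneg (x + y)]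
    · ext h
      simp only [mem_image, mem_Ioi, mem_Iio]
      constructor
      · rintro ⟨x, hx, rfl⟩
        have : 0 < x ^ 2 := by nlinarith
        linarith
      · intro hh
        exact ⟨-√(h - H), by simpa using Real.sqrt_pos.mpr (by linarith : 0 < h - H),
          by rw [neg_sq, Real.sq_sqrt (by linarith)]; ring⟩
  have hgm : Measurable fun x : ℝ => g (H + x ^ 2) := hg.comp (by fun_prop)
  have hsum : ∫⁻ η : ℝ, 2 * g (H + η ^ 2) =
      (∫⁻ x in Iio (0 : ℝ), 2 * g (H + x ^ 2)) + ∫⁻ x in Ioi (0 : ℝ), 2 * g (H + x ^ 2) := by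
    rw [← lintegral_add_compl _ (measurableSet_Iio (a := (0 : ℝ))), compl_Iio,
      setLIntegral_congr (Ioi_ae_eq_Ici (a := (0 : ℝ)))]
  have h2 : (2 : ℝ≥0∞) * ∫⁻ η : ℝ, g (H + η ^ 2) =
      2 * ∫⁻ h in Ioi H, g h * ENNReal.ofReal (1 / √(h - H)) := by
    rw [← lintegral_const_mul _ hgm, hsum, ← hn, ← hp, two_mul]
  exact (ENNReal.mul_right_inj (by norm_num) (by norm_num)).mp h2

theorem lintegral_eq {a e w : Fin D → ℝ} {g : ℝ → ℝ≥0∞} (hg : Measurable g) :
    ∫⁻ t in Ioo (0 : ℝ) 1, ENNReal.ofReal (om a t) * ∫⁻ η : ℝ, g (HH a e w t + η ^ 2) =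
      ∫⁻ h, g h * Flin a e w h := by
  have hH : Measurable (HH a e w) := shift_meas_HH a e w
  have ho : Measurable (om a) := shift_meas_om a
  have hm : Measurable (Function.uncurry fun h t : ℝ => g h *
      ENNReal.ofReal (if HH a e w t < h then om a t / √(h - HH a e w t) else 0)) := by
    refine (hg.comp measurable_fst).mul (ENNReal.measurable_ofReal.comp ?_)
    refine Measurable.ite ?_ ?_ measurable_const
    · exact measurableSet_lt (hH.comp measurable_snd) measurable_fst
    · exact (ho.comp measurable_snd).div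
        (Real.continuous_sqrt.measurable.comp (measurable_fst.sub (hH.comp measurable_snd)))
  calc ∫⁻ t in Ioo (0 : ℝ) 1, ENNReal.ofReal (om a t) * ∫⁻ η : ℝ, g (HH a e w t + η ^ 2)
      = ∫⁻ t in Ioo (0 : ℝ) 1, ∫⁻ h, g h *
          ENNReal.ofReal (if HH a e w t < h then om a t / √(h - HH a e w t) else 0) := by
        refine lintegral_congr fun t => ?_
        rw [shift_inner hg, ← lintegral_const_mul _ (shift_meas_inner hg _),
          ← lintegral_indicator measurableSet_Ioi]
        refine lintegral_congr fun h => ?_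
        by_cases hh : HH a e w t < h
        · rw [indicator_of_mem (mem_Ioi.mpr hh), if_pos hh,
            div_eq_mul_one_div (om a t), ENNReal.ofReal_mul (shift_om_nonneg a t)]
          ring
        · rw [indicator_of_notMem (by simpa using hh), if_neg hh]
          simp
    _ = ∫⁻ h, ∫⁻ t in Ioo (0 : ℝ) 1, g h *
          ENNReal.ofReal (if HH a e w t < h then om a t / √(h - HH a e w t) else 0) := by
        rw [lintegral_lintegral_swap]
        exact (hm.comp measurable_swap).aemeasurable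
    _ = ∫⁻ h, g h * Flin a e w h := by
        refine lintegral_congr fun h => ?_
        rw [Flin, lintegral_const_mul]
        refine ENNReal.measurable_ofReal.comp (Measurable.ite ?_ ?_ measurable_const)
        · exact measurableSet_lt hH measurable_const
        · exact ho.div (Real.continuous_sqrt.measurable.comp (measurable_const.sub hH))

theorem shift_le {a e w : Fin D → ℝ} (ha : Pencil a) (hw : Generic a e w) {g : ℝ → ℝ≥0∞}
    (hg : Measurable g) {ε : ℝ} (hε : 0 ≤ ε) :
    ∫⁻ t in Ioo (0 : ℝ) 1, ENNReal.ofReal (om a t) * ∫⁻ η : ℝ, g (HH a e w t + η ^ 2 + ε) ≤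
      ∫⁻ t in Ioo (0 : ℝ) 1, ENNReal.ofReal (om a t) * ∫⁻ η : ℝ, g (HH a e w t + η ^ 2) := by
  have h1 := lintegral_eq (a := a) (e := e) (w := w) (g := fun h => g (h + ε))
    (hg.comp (measurable_id.add measurable_const))
  rw [h1, lintegral_eq hg]
  have h2 := lintegral_add_right_eq_self (μ := (volume : Measure ℝ))
    (fun h => g h * Flin a e w (h - ε)) ε
  simp only [add_sub_cancel_right] at h2
  rw [h2]
  exact lintegral_mono fun h => mul_le_mul_right (Flin_mono ha hw (by linarith)) _

theorem ae_generic {a : Fin D → ℝ} (ha : Pencil a) (e : Fin D → ℝ) :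
    ∀ᵐ w : Fin D → ℝ, Generic a e w := by
  have h1 : ∃ k, a k = 1 := by
    have h := ha.ones
    obtain ⟨k, hk⟩ := Finset.card_pos.mp (by omega :
      0 < (Finset.univ.filter fun k => a k = 1).card)
    exact ⟨k, (Finset.mem_filter.mp hk).2⟩
  have h0 : ∃ k, a k = 0 := by
    have h := ha.zeros
    obtain ⟨k, hk⟩ := Finset.card_pos.mp (by omega :
      0 < (Finset.univ.filter fun k => a k = 0).card)
    exact ⟨k, (Finset.mem_filter.mp hk).2⟩
  obtain ⟨i, hi⟩ := h1
  obtain ⟨j, hj⟩ := h0
  have hn : ∀ (k : Fin D) (x : ℝ), ∀ᵐ w : Fin D → ℝ, w k ≠ x := by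
    intro k x
    rw [ae_iff]
    simp only [ne_eq, not_not]
    rw [volume_pi]
    exact Measure.pi_hyperplane (fun _ : Fin D => (volume : Measure ℝ)) k x
  filter_upwards [hn i 0, hn j (-e j)] with w hw1 hw2
  exact ⟨⟨i, hi, hw1⟩, ⟨j, hj, fun h => hw2 (by linarith)⟩⟩

end Pool.Agent.KneserRank
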