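import Pool.Agent.KneserRank.Algebra

/-!
# Derivatives of the explicit functions

PROOF. `ll a k` is affine with slope `2 a k - 1` and positive on `(0, 1)`. `om = (√(∏ ll))⁻¹`:
the derivative of a product of positive functions is the product times the sum of the logarithmic
derivatives. `kk` and `WW = om * kk ^ (-3/2)` by the chain rule (`HasDerivAt.rpow_const`). The
joint continuity statements are clear from the formulas (`kk > 0` by `kk_pos`).
-/

set_option autoImplicit false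
set_option linter.unusedSectionVars false

namespace Pool.Agent.KneserRank

open MeasureTheory Set Filter Topology

variable {D : ℕ}

private theorem hasDerivAt_ll_Smooth (a : Fin D → ℝ) (k : Fin D) (t : ℝ) :
    HasDerivAt (ll a k) (2 * a k - 1) t := by
  have h : HasDerivAt (fun t : ℝ => a k * t + (1 - a k) * (1 - t))
      (a k * 1 + (1 - a k) * (0 - 1)) t :=
    ((hasDerivAt_id t).const_mul (a k)).add
      (((hasDerivAt_const t (1 : ℝ)).sub (hasDerivAt_id t)).const_mul (1 - a k))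
  have e : a k * 1 + (1 - a k) * (0 - 1) = 2 * a k - 1 := by ring
  rw [e] at h
  exact h

private theorem continuous_ll_Smooth (a : Fin D → ℝ) (k : Fin D) : Continuous (ll a k) := by
  unfold ll
  fun_prop

private theorem prod_pos_Smooth {a : Fin D → ℝ} (ha : Pencil a) {t : ℝ}
    (ht : t ∈ Ioo (0 : ℝ) 1) : 0 < ∏ k, ll a k t :=
  Finset.prod_pos fun k _ => ll_pos ha ht k

theorem om_pos {a : Fin D → ℝ} (ha : Pencil a) {t : ℝ} (ht : t ∈ Ioo (0 : ℝ) 1) : 0 < om a t := by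
  unfold om
  exact inv_pos.mpr (Real.sqrt_pos.mpr (prod_pos_Smooth ha ht))

private theorem hasDerivAt_prod_Smooth {a : Fin D → ℝ} (ha : Pencil a) {t : ℝ}
    (ht : t ∈ Ioo (0 : ℝ) 1) :
    HasDerivAt (fun t => ∏ k, ll a k t)
      ((∏ k, ll a k t) * ∑ k, (2 * a k - 1) / ll a k t) t := by
  have h := HasDerivAt.fun_finsetProd (u := (Finset.univ : Finset (Fin D)))
    (f := fun k => ll a k) (f' := fun k => 2 * a k - 1) (x := t)
    (fun k _ => hasDerivAt_ll_Smooth a k t)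
  refine h.congr_deriv ?_
  rw [Finset.mul_sum]
  refine Finset.sum_congr rfl fun k _ => ?_
  have hk := (ll_pos ha ht k).ne'
  rw [← Finset.mul_prod_erase Finset.univ (fun j => ll a j t) (Finset.mem_univ k), smul_eq_mul]
  field_simp

theorem hasDerivAt_om {a : Fin D → ℝ} (ha : Pencil a) {t : ℝ} (ht : t ∈ Ioo (0 : ℝ) 1) :
    HasDerivAt (om a) (omt a t) t := by
  have hP := prod_pos_Smooth ha ht
  have hs : √(∏ k, ll a k t) ≠ 0 := (Real.sqrt_pos.mpr hP).ne'
  have h := ((hasDerivAt_prod_Smooth ha ht).sqrt hP.ne').inv hs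
  refine h.congr_deriv ?_
  unfold omt om
  have e : √(∏ k, ll a k t) ^ 2 = ∏ k, ll a k t := Real.sq_sqrt hP.le
  have e3 : ((∏ k, ll a k t) * ∑ k, (2 * a k - 1) / ll a k t) =
      √(∏ k, ll a k t) ^ 2 * ∑ k, (2 * a k - 1) / ll a k t := by rw [e]
  rw [e3]
  generalize √(∏ k, ll a k t) = r at hs
  generalize (∑ k, (2 * a k - 1) / ll a k t) = S
  field_simp

/-- Derivative of `kk` along a curve. -/
theorem hasDerivAt_kk {a e w : Fin D → ℝ} (ha : Pencil a) {x₁ x₂ s : ℝ → ℝ} {y₁ y₂ v h : ℝ}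
    (h₁ : x₁ h ∈ Ioo (0 : ℝ) 1) (h₂ : x₂ h ∈ Ioo (0 : ℝ) 1) (hs : s h ∈ Ioo (0 : ℝ) 1)
    (d₁ : HasDerivAt x₁ y₁ h) (d₂ : HasDerivAt x₂ y₂ h) (ds : HasDerivAt s v h) :
    HasDerivAt (fun u => kk a e w (x₁ u) (x₂ u) (s u))
      (kkt a e w (x₁ h) (x₂ h) (s h) * v + kkh a e w (x₁ h) (x₂ h) y₁ y₂ (s h)) h := by
  have key : ∀ k ∈ (Finset.univ : Finset (Fin D)), HasDerivAt
      (fun u => DD a e w k ^ 2 / (4 * ll a k (x₁ u) * ll a k (x₂ u) * ll a k (s u)))
      (-(DD a e w k ^ 2 * (2 * a k - 1) /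
          (4 * ll a k (x₁ h) * ll a k (x₂ h) * ll a k (s h) ^ 2)) * v -
        DD a e w k ^ 2 / (4 * ll a k (x₁ h) * ll a k (x₂ h) * ll a k (s h)) *
        ((2 * a k - 1) * y₁ / ll a k (x₁ h) + (2 * a k - 1) * y₂ / ll a k (x₂ h))) h := by
    intro k _
    have p₁ := (ll_pos ha h₁ k).ne'
    have p₂ := (ll_pos ha h₂ k).ne'
    have p := (ll_pos ha hs k).ne'
    have l₁ : HasDerivAt (fun u => ll a k (x₁ u)) ((2 * a k - 1) * y₁) h :=
      (hasDerivAt_ll_Smooth a k (x₁ h)).comp h d₁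
    have l₂ : HasDerivAt (fun u => ll a k (x₂ u)) ((2 * a k - 1) * y₂) h :=
      (hasDerivAt_ll_Smooth a k (x₂ h)).comp h d₂
    have l : HasDerivAt (fun u => ll a k (s u)) ((2 * a k - 1) * v) h :=
      (hasDerivAt_ll_Smooth a k (s h)).comp h ds
    have hd := (hasDerivAt_const h (DD a e w k ^ 2)).fun_div
      (((l₁.const_mul 4).fun_mul l₂).fun_mul l)
      (mul_ne_zero (mul_ne_zero (mul_ne_zero (by norm_num) p₁) p₂) p)
    refine hd.congr_deriv ?_
    field_simp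
    ring
  have h := HasDerivAt.fun_sum key
  unfold kk
  refine h.congr_deriv ?_
  unfold kkt kkh
  rw [Finset.sum_sub_distrib, ← Finset.sum_mul, Finset.sum_neg_distrib]
  ring

theorem hasDerivAt_WW {a e w : Fin D → ℝ} (ha : Pencil a) (hg : Generic a e w) {x₁ x₂ t : ℝ}
    (h₁ : x₁ ∈ Ioo (0 : ℝ) 1) (h₂ : x₂ ∈ Ioo (0 : ℝ) 1) (ht : t ∈ Ioo (0 : ℝ) 1) :
    HasDerivAt (WW a e w x₁ x₂) (WWt a e w x₁ x₂ t) t := by
  have hk := kk_pos ha hg h₁ h₂ ht
  have h0 := hasDerivAt_kk (a := a) (e := e) (w := w) ha (x₁ := fun _ => x₁) (x₂ := fun _ => x₂)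
    (s := fun u => u) (h := t) h₁ h₂ ht (hasDerivAt_const t x₁) (hasDerivAt_const t x₂)
    (hasDerivAt_id' t)
  have hkk : HasDerivAt (fun u => kk a e w x₁ x₂ u) (kkt a e w x₁ x₂ t) t := by
    refine h0.congr_deriv ?_
    unfold kkh
    simp
  have h1 := (hasDerivAt_om ha ht).fun_mul
    (hkk.rpow_const (p := (-(3 / 2) : ℝ)) (Or.inl hk.ne'))
  have h2 : HasDerivAt (WW a e w x₁ x₂) _ t := h1
  refine h2.congr_deriv ?_
  unfold WWt
  have e1 : (-(3 / 2) : ℝ) - 1 = -(5 / 2) := by norm_num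
  rw [e1]
  ring

private theorem continuousOn_ll_comp_Smooth {X : Type*} [TopologicalSpace X] (a : Fin D → ℝ)
    (k : Fin D) {f : X → ℝ} {s : Set X} (hf : ContinuousOn f s) :
    ContinuousOn (fun x => ll a k (f x)) s :=
  (continuous_ll_Smooth a k).comp_continuousOn hf

theorem continuousOn_kk {a e w : Fin D → ℝ} (ha : Pencil a) :
    ContinuousOn (fun x : ℝ × ℝ × ℝ => kk a e w x.1 x.2.1 x.2.2)
      (Ioo (0 : ℝ) 1 ×ˢ Ioo (0 : ℝ) 1 ×ˢ Ioo (0 : ℝ) 1) := by
  unfold kk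
  refine continuousOn_finsetSum _ fun k _ => ?_
  refine ContinuousOn.div continuousOn_const ?_ ?_
  · exact ((continuousOn_const.mul (continuousOn_ll_comp_Smooth a k continuousOn_fst)).mul
      (continuousOn_ll_comp_Smooth a k (continuous_fst.comp continuous_snd).continuousOn)).mul
      (continuousOn_ll_comp_Smooth a k (continuous_snd.comp continuous_snd).continuousOn)
  · rintro x ⟨hx1, hx2, hx3⟩
    exact mul_ne_zero (mul_ne_zero (mul_ne_zero (by norm_num) (ll_pos ha hx1 k).ne')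
      (ll_pos ha hx2 k).ne') (ll_pos ha hx3 k).ne'

theorem continuousOn_kkt {a e w : Fin D → ℝ} (ha : Pencil a) :
    ContinuousOn (fun x : ℝ × ℝ × ℝ => kkt a e w x.1 x.2.1 x.2.2)
      (Ioo (0 : ℝ) 1 ×ˢ Ioo (0 : ℝ) 1 ×ˢ Ioo (0 : ℝ) 1) := by
  unfold kkt
  refine (continuousOn_finsetSum _ fun k _ => ?_).neg
  refine ContinuousOn.div continuousOn_const ?_ ?_
  · exact ((continuousOn_const.mul (continuousOn_ll_comp_Smooth a k continuousOn_fst)).mul
      (continuousOn_ll_comp_Smooth a k (continuous_fst.comp continuous_snd).continuousOn)).mul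
      ((continuousOn_ll_comp_Smooth a k (continuous_snd.comp continuous_snd).continuousOn).pow 2)
  · rintro x ⟨hx1, hx2, hx3⟩
    exact mul_ne_zero (mul_ne_zero (mul_ne_zero (by norm_num) (ll_pos ha hx1 k).ne')
      (ll_pos ha hx2 k).ne') (pow_ne_zero 2 (ll_pos ha hx3 k).ne')

theorem continuousOn_kkh {a e w : Fin D → ℝ} (ha : Pencil a) :
    ContinuousOn (fun x : (ℝ × ℝ) × ℝ × ℝ × ℝ => kkh a e w x.2.1 x.2.2.1 x.1.1 x.1.2 x.2.2.2)
      (univ ×ˢ Ioo (0 : ℝ) 1 ×ˢ Ioo (0 : ℝ) 1 ×ˢ Ioo (0 : ℝ) 1) := by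
  have c1 : Continuous (fun x : (ℝ × ℝ) × ℝ × ℝ × ℝ => x.2.1) :=
    continuous_fst.comp continuous_snd
  have c2 : Continuous (fun x : (ℝ × ℝ) × ℝ × ℝ × ℝ => x.2.2.1) :=
    continuous_fst.comp (continuous_snd.comp continuous_snd)
  have c3 : Continuous (fun x : (ℝ × ℝ) × ℝ × ℝ × ℝ => x.2.2.2) :=
    continuous_snd.comp (continuous_snd.comp continuous_snd)
  have c4 : Continuous (fun x : (ℝ × ℝ) × ℝ × ℝ × ℝ => x.1.1) :=
    continuous_fst.comp continuous_fst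
  have c5 : Continuous (fun x : (ℝ × ℝ) × ℝ × ℝ × ℝ => x.1.2) :=
    continuous_snd.comp continuous_fst
  unfold kkh
  refine (continuousOn_finsetSum _ fun k _ => ?_).neg
  refine ContinuousOn.mul ?_ (ContinuousOn.add ?_ ?_)
  · refine ContinuousOn.div continuousOn_const ?_ ?_
    · exact ((continuousOn_const.mul (continuousOn_ll_comp_Smooth a k c1.continuousOn)).mul
        (continuousOn_ll_comp_Smooth a k c2.continuousOn)).mul
        (continuousOn_ll_comp_Smooth a k c3.continuousOn)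
    · rintro x ⟨-, hx1, hx2, hx3⟩
      exact mul_ne_zero (mul_ne_zero (mul_ne_zero (by norm_num) (ll_pos ha hx1 k).ne')
        (ll_pos ha hx2 k).ne') (ll_pos ha hx3 k).ne'
  · refine ContinuousOn.div (continuousOn_const.mul c4.continuousOn)
      (continuousOn_ll_comp_Smooth a k c1.continuousOn) ?_
    rintro x ⟨-, hx1, hx2, hx3⟩
    exact (ll_pos ha hx1 k).ne'
  · refine ContinuousOn.div (continuousOn_const.mul c5.continuousOn)
      (continuousOn_ll_comp_Smooth a k c2.continuousOn) ?_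
    rintro x ⟨-, hx1, hx2, hx3⟩
    exact (ll_pos ha hx2 k).ne'

theorem continuousOn_om {a : Fin D → ℝ} (ha : Pencil a) :
    ContinuousOn (om a) (Ioo (0 : ℝ) 1) := fun _ ht =>
  (hasDerivAt_om ha ht).continuousAt.continuousWithinAt

private theorem continuousOn_omt_Smooth {a : Fin D → ℝ} (ha : Pencil a) :
    ContinuousOn (omt a) (Ioo (0 : ℝ) 1) := by
  unfold omt
  refine (((continuousOn_om ha).mul (continuousOn_finsetSum _ fun k _ => ?_)).neg).div_const 2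
  exact ContinuousOn.div continuousOn_const (continuous_ll_Smooth a k).continuousOn
    fun t ht => (ll_pos ha ht k).ne'

private theorem continuousOn_rpow_kk_Smooth {a e w : Fin D → ℝ} (ha : Pencil a)
    (hg : Generic a e w) (p : ℝ) :
    ContinuousOn (fun x : ℝ × ℝ × ℝ => kk a e w x.1 x.2.1 x.2.2 ^ p)
      (Ioo (0 : ℝ) 1 ×ˢ Ioo (0 : ℝ) 1 ×ˢ Ioo (0 : ℝ) 1) :=
  (continuousOn_kk ha).rpow_const fun _ hx =>
    Or.inl (kk_pos ha hg hx.1 hx.2.1 hx.2.2).ne'

private theorem continuousOn_snd_snd_Smooth {f : ℝ → ℝ} (hf : ContinuousOn f (Ioo (0 : ℝ) 1)) :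
    ContinuousOn (fun x : ℝ × ℝ × ℝ => f x.2.2)
      (Ioo (0 : ℝ) 1 ×ˢ Ioo (0 : ℝ) 1 ×ˢ Ioo (0 : ℝ) 1) :=
  hf.comp (continuous_snd.comp continuous_snd).continuousOn fun _ hx => hx.2.2

theorem continuousOn_WW {a e w : Fin D → ℝ} (ha : Pencil a) (hg : Generic a e w) :
    ContinuousOn (fun x : ℝ × ℝ × ℝ => WW a e w x.1 x.2.1 x.2.2)
      (Ioo (0 : ℝ) 1 ×ˢ Ioo (0 : ℝ) 1 ×ˢ Ioo (0 : ℝ) 1) := by
  unfold WW
  exact (continuousOn_snd_snd_Smooth (continuousOn_om ha)).mul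
    (continuousOn_rpow_kk_Smooth ha hg _)

theorem continuousOn_WWt {a e w : Fin D → ℝ} (ha : Pencil a) (hg : Generic a e w) :
    ContinuousOn (fun x : ℝ × ℝ × ℝ => WWt a e w x.1 x.2.1 x.2.2)
      (Ioo (0 : ℝ) 1 ×ˢ Ioo (0 : ℝ) 1 ×ˢ Ioo (0 : ℝ) 1) := by
  unfold WWt
  exact ((continuousOn_snd_snd_Smooth (continuousOn_omt_Smooth ha)).mul
    (continuousOn_rpow_kk_Smooth ha hg _)).sub
    (continuousOn_const.mul (((continuousOn_snd_snd_Smooth (continuousOn_om ha)).mul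
      (continuousOn_rpow_kk_Smooth ha hg _)).mul (continuousOn_kkt ha)))

theorem par_mem {x₁ x₂ : ℝ} (h₁ : x₁ ∈ Ioo (0 : ℝ) 1) (h₂ : x₂ ∈ Ioo (0 : ℝ) 1) (θ : ℝ) :
    par x₁ x₂ θ ∈ Ioo (0 : ℝ) 1 := by
  have hc1 := Real.neg_one_le_cos θ
  have hc2 := Real.cos_le_one θ
  obtain ⟨a1, a2⟩ := h₁
  obtain ⟨b1, b2⟩ := h₂
  have e : par x₁ x₂ θ = x₁ * ((1 - Real.cos θ) / 2) + x₂ * ((1 + Real.cos θ) / 2) := by
    unfold par; ring
  have u0 : 0 ≤ (1 - Real.cos θ) / 2 := by linarith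
  have v0 : 0 ≤ (1 + Real.cos θ) / 2 := by linarith
  have uv : (1 - Real.cos θ) / 2 + (1 + Real.cos θ) / 2 = 1 := by ring
  generalize (1 - Real.cos θ) / 2 = u at *
  generalize (1 + Real.cos θ) / 2 = v at *
  rw [e]
  have hv : v = 1 - u := by linarith
  subst hv
  constructor
  · rcases u0.eq_or_lt with h | h
    · rw [← h]; linarith
    · have := mul_pos a1 h
      have := mul_nonneg b1.le v0
      linarith
  · rcases u0.eq_or_lt with h | h
    · rw [← h]; linarith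
    · have h3 : x₁ * u < 1 * u := mul_lt_mul_of_pos_right a2 h
      have h4 : x₂ * (1 - u) ≤ 1 * (1 - u) := mul_le_mul_of_nonneg_right b2.le v0
      linarith

end Pool.Agent.KneserRank
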