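import Pool.Agent.KneserRank.Expand
import Pool.Agent.KneserCentre.Slice

/-!
# The weighted inequality from the positivity property
-/

set_option autoImplicit false
set_option linter.unusedSectionVars false

namespace Pool.Agent.KneserRank

open MeasureTheory Set Filter Topology
open Pool.Agent.Kneser Pool.Agent.KneserCentre

section approx

/-- The approximating polynomial in `exp (-y)`: close to `1` for `y < c` and to `0` for
`y > c`. -/
noncomputable def AZ (c : ℝ) (N : ℕ) : Polynomial ℝ := AA 0 (-c) N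

theorem ratio_le_one' {c s : ℝ} (hs : s ≤ 0) (N : ℕ) :
    Real.exp ((N : ℝ) * (s - c)) / MM 0 c N ≤ 1 := by
  have hM : (0 : ℝ) < MM 0 c N := by exact_mod_cast MM_pos 0 c N
  rw [div_le_one hM]
  refine le_trans (Real.exp_le_exp.mpr ?_) (le_MM 0 c N)
  have h1 : s - c ≤ 0 + |c| := by
    have hb := neg_abs_le c
    linarith
  exact mul_le_mul_of_nonneg_left h1 (Nat.cast_nonneg N)

theorem AZ_nonneg (c : ℝ) (N : ℕ) {s : ℝ} (hs : s ≤ 0) : 0 ≤ (AZ c N).eval (Real.exp s) := by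
  unfold AZ
  rw [AA_eval, sub_nonneg]
  refine pow_le_one₀ (sub_nonneg.mpr (ratio_le_one' hs N)) ?_
  have := ratio_nonneg 0 (-c) s N
  linarith

theorem AZ_le_one (c : ℝ) (N : ℕ) {s : ℝ} (hs : s ≤ 0) : (AZ c N).eval (Real.exp s) ≤ 1 := by
  unfold AZ
  rw [AA_eval, sub_le_self_iff]
  exact pow_nonneg (sub_nonneg.mpr (ratio_le_one' hs N)) _

theorem AZ_le_exp (c : ℝ) (N : ℕ) {s : ℝ} (hs : s ≤ 0) :
    (AZ c N).eval (Real.exp s) ≤ Real.exp ((N : ℝ) * (s + c)) := by
  unfold AZ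
  rw [AA_eval]
  have hM : (0 : ℝ) < MM 0 (-c) N := by exact_mod_cast MM_pos 0 (-c) N
  have h2 := one_add_mul_le_pow (a := -(Real.exp ((N : ℝ) * (s - -c)) / MM 0 (-c) N))
    (by have := ratio_le_one' (c := -c) hs N; linarith) (MM 0 (-c) N)
  have h3 : (MM 0 (-c) N : ℝ) * -(Real.exp ((N : ℝ) * (s - -c)) / MM 0 (-c) N) =
      -Real.exp ((N : ℝ) * (s - -c)) := by
    field_simp
  rw [h3, ← sub_eq_add_neg, ← sub_eq_add_neg] at h2
  have h4 : s + c = s - -c := by ring
  rw [h4]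
  linarith

theorem AZ_le_exp' (c : ℝ) {N : ℕ} (hN : 1 ≤ N) {s : ℝ} (hs : s ≤ 0) :
    (AZ c N).eval (Real.exp s) ≤ Real.exp (s + c) := by
  rcases le_total 0 (s + c) with h | h
  · exact (AZ_le_one c N hs).trans (Real.one_le_exp h)
  · refine (AZ_le_exp c N hs).trans (Real.exp_le_exp.mpr ?_)
    have h1 : (1 : ℝ) ≤ N := by exact_mod_cast hN
    nlinarith

theorem dP_AZ_nonneg (c : ℝ) (N : ℕ) {s : ℝ} (hs : s ≤ 0) : 0 ≤ dP (AZ c N) s := by
  have h1 : Polynomial.derivative (AZ c N) =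
      Polynomial.C (MM 0 (-c) N : ℝ) * (1 - Polynomial.C (Real.exp (-((N : ℝ) * -c)) /
        MM 0 (-c) N) * Polynomial.X ^ N) ^ (MM 0 (-c) N - 1) *
        (Polynomial.C (Real.exp (-((N : ℝ) * -c)) / MM 0 (-c) N) *
          (Polynomial.C (N : ℝ) * Polynomial.X ^ (N - 1))) := by
    unfold AZ AA
    rw [Polynomial.derivative_sub, Polynomial.derivative_one, Polynomial.derivative_pow,
      Polynomial.derivative_sub, Polynomial.derivative_one, Polynomial.derivative_mul,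
      Polynomial.derivative_C, Polynomial.derivative_X_pow]
    ring
  unfold dP
  rw [h1]
  simp only [Polynomial.eval_sub, Polynomial.eval_one, Polynomial.eval_pow, Polynomial.eval_mul,
    Polynomial.eval_C, Polynomial.eval_X]
  have h2 : Real.exp (-((N : ℝ) * -c)) / MM 0 (-c) N * Real.exp s ^ N =
      Real.exp ((N : ℝ) * (s - -c)) / MM 0 (-c) N := by
    rw [← Real.exp_nat_mul, div_mul_eq_mul_div, ← Real.exp_add]
    congr 2
    ring
  rw [h2]
  have h3 := sub_nonneg.mpr (ratio_le_one' (c := -c) hs N)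
  positivity

theorem AZ_coeff_zero (c : ℝ) {N : ℕ} (hN : 1 ≤ N) : (AZ c N).coeff 0 = 0 := by
  rw [Polynomial.coeff_zero_eq_eval_zero]
  unfold AZ AA
  have h : N ≠ 0 := by omega
  simp [h]

theorem AZ_tendsto_zero {c s : ℝ} (hs : s ≤ 0) (h : s + c < 0) :
    Tendsto (fun N => (AZ c N).eval (Real.exp s)) atTop (𝓝 0) := by
  have h1 : Tendsto (fun N : ℕ => Real.exp ((N : ℝ) * (s + c))) atTop (𝓝 0) := by
    refine Real.tendsto_exp_atBot.comp ?_
    exact tendsto_natCast_atTop_atTop.atTop_mul_const_of_neg h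
  exact tendsto_of_tendsto_of_tendsto_of_le_of_le tendsto_const_nhds h1
    (fun N => AZ_nonneg c N hs) fun N => AZ_le_exp c N hs

theorem AZ_tendsto_one {c s : ℝ} (hs : s ≤ 0) (h : 0 < s + c) :
    Tendsto (fun N => (AZ c N).eval (Real.exp s)) atTop (𝓝 1) := by
  have h1 : Tendsto (fun N : ℕ => Real.exp (-Real.exp ((N : ℝ) * (s + c)))) atTop (𝓝 0) := by
    refine Real.tendsto_exp_atBot.comp (tendsto_neg_atTop_atBot.comp
      (Real.tendsto_exp_atTop.comp ?_))
    exact tendsto_natCast_atTop_atTop.atTop_mul_const h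
  have h2 : Tendsto (fun N : ℕ => 1 - Real.exp (-Real.exp ((N : ℝ) * (s + c)))) atTop
      (𝓝 1) := by
    simpa using h1.const_sub 1
  refine tendsto_of_tendsto_of_tendsto_of_le_of_le h2 tendsto_const_nhds (fun N => ?_)
    (fun N => AZ_le_one c N hs)
  simp only [AZ, AA_eval]
  have hM : (0 : ℝ) < MM 0 (-c) N := by exact_mod_cast MM_pos 0 (-c) N
  have h5 : s + c = s - -c := by ring
  have h3 : (1 - Real.exp ((N : ℝ) * (s - -c)) / MM 0 (-c) N) ^ (MM 0 (-c) N) ≤
      Real.exp (-Real.exp ((N : ℝ) * (s + c))) := by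
    have h4 : 1 - Real.exp ((N : ℝ) * (s - -c)) / MM 0 (-c) N ≤
        Real.exp (-(Real.exp ((N : ℝ) * (s - -c)) / MM 0 (-c) N)) :=
      Real.one_sub_le_exp_neg _
    refine (pow_le_pow_left₀ (sub_nonneg.mpr (ratio_le_one' hs N)) h4 _).trans ?_
    rw [← Real.exp_nat_mul, h5]
    refine Real.exp_le_exp.mpr (le_of_eq ?_)
    field_simp
  linarith

end approx

section bound

variable {ι : Type*} [Fintype ι] [DecidableEq ι]

theorem abs_mul_le_sum {φ : ℕ → ℝ} (hφ0 : φ 0 = 0) {w : ι → ℝ} (h0 : ∀ i, 0 ≤ w i)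
    (h1 : ∀ i, w i ≤ 1) : |mul φ w| ≤ (∑ S : Finset ι, |φ S.card|) * ∑ l, w l := by
  unfold mul
  rw [Finset.sum_mul]
  refine (Finset.abs_sum_le_sum_abs _ _).trans (Finset.sum_le_sum fun S _ => ?_)
  rw [abs_mul]
  rcases S.eq_empty_or_nonempty with rfl | ⟨i, hi⟩
  · simp [hφ0]
  refine mul_le_mul_of_nonneg_left ?_ (abs_nonneg _)
  have hab : ∀ l, |(if l ∈ S then w l else 1 - w l)| ≤ 1 := by
    intro l
    have ha := h0 l
    have hb := h1 l
    rw [abs_le]
    split_ifs <;> constructor <;> linarith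
  rw [Finset.abs_prod, ← Finset.mul_prod_erase Finset.univ _ (Finset.mem_univ i), if_pos hi,
    abs_of_nonneg (h0 i)]
  have h2 : ∏ l ∈ Finset.univ.erase i, |(if l ∈ S then w l else 1 - w l)| ≤ 1 :=
    Finset.prod_le_one (fun l _ => abs_nonneg _) fun l _ => hab l
  refine (mul_le_of_le_one_right (h0 i) h2).trans ?_
  exact Finset.single_le_sum (f := w) (fun l _ => h0 l) (Finset.mem_univ i)

end bound

section limit

variable {X : Type*} [NormedAddCommGroup X] [InnerProductSpace ℝ X] [FiniteDimensional ℝ X]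
  [MeasurableSpace X] [BorelSpace X]

theorem ae_ne_sphere [Nontrivial X] (p : X) (c : ℝ) : ∀ᵐ x : X, ‖x - p‖ ^ 2 ≠ c := by
  rw [ae_iff]
  simp only [not_not]
  have h1 : {x : X | ‖x - p‖ ^ 2 = c} ⊆ Metric.sphere p (√c) := by
    intro x hx
    have hx' : ‖x - p‖ ^ 2 = c := hx
    rw [mem_sphere_iff_norm, ← hx', Real.sqrt_sq (norm_nonneg _)]
  exact measure_mono_null h1 (Measure.addHaar_sphere _ _ _)

theorem integrable_exp_norm (p : X) (c : ℝ) :
    Integrable (fun x => Real.exp (-‖x - p‖ ^ 2 + c)) := by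
  have h := integrable_ee (ι := Fin 1) (k := fun _ => 1)
    (by intro h; exact absurd (congrFun h 0) (by norm_num)) (fun _ => p)
  have h2 := h.const_mul (Real.exp c)
  refine h2.congr (Eventually.of_forall fun x => ?_)
  simp only [ee, Finset.univ_unique, Finset.sum_singleton, Nat.cast_one, one_mul]
  rw [← Real.exp_add]
  congr 1
  ring

theorem tendsto_smooth [Nontrivial X] {n : ℕ} {φ : ℕ → ℝ} (hφ0 : φ 0 = 0) (p : Fin n → X)
    (ρ : Fin n → ℝ) (hρ : ∀ i, 0 ≤ ρ i) :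
    Tendsto (fun N => ∫ x, mul φ (fun l => (AZ (ρ l ^ 2) (N + 1)).eval
      (Real.exp (-‖x - p l‖ ^ 2)))) atTop (𝓝 (∫ x, φ (num p ρ x))) := by
  have hneg : ∀ (x : X) l, -‖x - p l‖ ^ 2 ≤ 0 := fun x l => neg_nonpos.mpr (by positivity)
  refine tendsto_integral_of_dominated_convergence
    (bound := fun x => (∑ S : Finset (Fin n), |φ S.card|) *
      ∑ l, Real.exp (-‖x - p l‖ ^ 2 + ρ l ^ 2)) ?_ ?_ ?_ ?_
  · intro N
    refine Continuous.aestronglyMeasurable ?_
    refine (continuous_mul φ).comp (continuous_pi fun l => ?_)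
    refine (AZ (ρ l ^ 2) (N + 1)).continuous.comp (Real.continuous_exp.comp ?_)
    fun_prop
  · exact (integrable_finsetSum _ fun l _ => integrable_exp_norm (p l) (ρ l ^ 2)).const_mul _
  · intro N
    refine Eventually.of_forall fun x => ?_
    rw [Real.norm_eq_abs]
    refine (abs_mul_le_sum hφ0 (fun l => AZ_nonneg _ _ (hneg x l))
      (fun l => AZ_le_one _ _ (hneg x l))).trans ?_
    refine mul_le_mul_of_nonneg_left (Finset.sum_le_sum fun l _ => ?_)
      (Finset.sum_nonneg fun S _ => abs_nonneg _)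
    exact AZ_le_exp' _ (Nat.le_add_left 1 N) (hneg x l)
  · have hne : ∀ᵐ x : X, ∀ l, ‖x - p l‖ ^ 2 ≠ ρ l ^ 2 :=
      ae_all_iff.2 fun l => ae_ne_sphere (p l) (ρ l ^ 2)
    filter_upwards [hne] with x hx
    have hnum : num p ρ x = (Finset.univ.filter (fun i => dist x (p i) ≤ ρ i)).card := rfl
    rw [hnum, ← mul_indicator φ]
    refine ((continuous_mul φ).tendsto _).comp (tendsto_pi_nhds.mpr fun l => ?_)
    have hiff : l ∈ Finset.univ.filter (fun i => dist x (p i) ≤ ρ i) ↔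
        ‖x - p l‖ ^ 2 ≤ ρ l ^ 2 := by
      rw [Finset.mem_filter, dist_eq_norm, ← sq_le_sq₀ (norm_nonneg _) (hρ l)]
      simp
    rcases lt_or_gt_of_ne (hx l) with h | h
    · rw [if_pos (hiff.mpr h.le)]
      exact (tendsto_add_atTop_iff_nat 1).mpr
        (AZ_tendsto_one (c := ρ l ^ 2) (hneg x l) (by linarith))
    · rw [if_neg (by rw [hiff]; exact not_le.mpr h)]
      exact (tendsto_add_atTop_iff_nat 1).mpr
        (AZ_tendsto_zero (c := ρ l ^ 2) (hneg x l) (by linarith))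

theorem num_le_of_pos [Nontrivial X] {n : ℕ} {φ : ℕ → ℝ} (hφ0 : φ 0 = 0)
    (hφ : ∀ k, φ (k + 2) - 2 * φ (k + 1) + φ k ≤ 0) (p q : Fin n → X) (ρ : Fin n → ℝ)
    (hρ : ∀ i, 0 ≤ ρ i) (hpq : ∀ i j, dist (q i) (q j) ≤ dist (p i) (p j))
    (H : Pos (Module.finrank ℝ X) (fun i j => ‖p i - p j‖ ^ 2) (fun i j => ‖q i - q j‖ ^ 2)) :
    ∫ x, φ (num q ρ x) ≤ ∫ x, φ (num p ρ x) := by
  refine le_of_tendsto_of_tendsto' (tendsto_smooth hφ0 q ρ hρ) (tendsto_smooth hφ0 p ρ hρ)
    fun N => ?_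
  refine smooth_le_of_pos hφ0 hφ (A := fun l => AZ (ρ l ^ 2) (N + 1))
    (fun l => AZ_coeff_zero _ (Nat.le_add_left 1 N)) (fun l s hs => AZ_nonneg _ _ hs)
    (fun l s hs => AZ_le_one _ _ hs) (fun l s hs => dP_AZ_nonneg _ _ hs) p q ?_ H
  intro i j
  have h1 := hpq i j
  rw [dist_eq_norm, dist_eq_norm] at h1
  gcongr

/-- The weighted inequality from the positivity property. -/
theorem weighted_of_pos {n : ℕ} (p q : Fin n → X) (ρ τ : Fin n → ℝ)
    (h : ∀ i j, dist (q i) (q j) ≤ dist (p i) (p j)) (hρ : ∀ i, 0 ≤ ρ i) (hτ : Antitone τ)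
    (H : Pos (Module.finrank ℝ X) (fun i j => ‖p i - p j‖ ^ 2) (fun i j => ‖q i - q j‖ ^ 2)) :
    ∑ k : Fin n, τ k * (volume {x : X | k.val + 1 ≤ num q ρ x}).toReal ≤
      ∑ k : Fin n, τ k * (volume {x : X | k.val + 1 ≤ num p ρ x}).toReal := by
  rcases subsingleton_or_nontrivial X with hX | hX
  · have : q = p := funext fun i => Subsingleton.elim _ _
    rw [this]
  have h1 : ∀ m : ℕ, ∑ k ∈ Finset.range m, lev q ρ k ≤ ∑ k ∈ Finset.range m, lev p ρ k := by
    intro m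
    rw [← integral_min_num, ← integral_min_num]
    refine num_le_of_pos (φ := fun k => ((min k m : ℕ) : ℝ)) (by simp) (fun k => ?_) p q ρ hρ h H
    have h : min (k + 2) m + min k m ≤ 2 * min (k + 1) m := by omega
    have h' : ((min (k + 2) m : ℕ) : ℝ) + ((min k m : ℕ) : ℝ) ≤
        2 * ((min (k + 1) m : ℕ) : ℝ) := by
      exact_mod_cast h
    linarith
  have h2 : ∑ k ∈ Finset.range n, lev q ρ k = ∑ k ∈ Finset.range n, lev p ρ k := by
    rw [sum_lev q ρ hρ, sum_lev p ρ hρ]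
  have h3 := abel_sum (fun k => if h : k < n then τ ⟨k, h⟩ else 0) (lev p ρ) (lev q ρ) n
    (fun k hk => by
      have hk' : k < n := by omega
      simp only [hk, hk', dif_pos]
      exact hτ (by simp [Fin.le_def])) h1 h2
  rw [Finset.sum_range, Finset.sum_range] at h3
  simpa [lev] using h3

end limit

end Pool.Agent.KneserRank
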